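import Mathlib

/-!
JOB MS-A1a (owner helper784, MP_a51306_an: matricial versus Hilbert-Schmidt stability; frozen S05682).
Self-contained identity in an R-algebra.

Elements `x, y, z` of an algebra over the reals, `x^p = y^p = z^p = 1`, `p` prime, `z` commutes with `x` and `y`, `x y = z y x`.
P, Q, C = averages over the powers of x, y, z; A = 1 - P, B = 1 - Q, D = 1 - C, e = 1/sqrt p, M = (1+e) - P - Q.

PROOF.
(1) P^2 = P, x^s P = P (same for Q, C): standard, as x^p = 1. C commutes with x, y, P, Q. C D = 0, D^2 = D.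
(2) P y^t = y^t (1/p) sum_s z^(ts) x^s since x y^t = z^t y^t x (induction) and z is central; multiply by P on the right:
    P y^t P = y^t ((1/p) sum_s (z^t)^s) P. For t = 0 the bracket is 1, for 0 < t < p it is C
    (s -> ts mod p is a bijection of ZMod p). Hence P Q P D = (1/p) P D. By symmetry (y x = z^-1 x y, with z^(p-1) for z^-1;
    the average over powers of z^(p-1) is again C) Q P Q D = (1/p) Q D.
(3) z C = C gives x^s y^t C = y^t x^s C, so P Q C = Q P C.
(4) Split the left side X = A B + B A + e (A + B) as X C + X D.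
    On C: A B C = B A C, so (C B A)(A B C) = A B C and X C = 2 A B C + e A C + e B C = 2 (CBA)(ABC) + e (CA)(AC) + e (CB)(BC).
    On D, with e^2 = 1/p: M^2 = (1+e)^2 - (1+2e)(P+Q) + PQ + QP ; M P M D = (e^2 P + e^2 Q - e (PQ + QP)) D, the same for M Q M D;
    X D = (2(1+e) - (2+e)(P+Q) + PQ + QP) D = c1 M^2 D + c2 (M P M + M Q M) D with c1 = 2/(1+e), c2 = (1-e)/(2e(1+e)):
    constant: c1 (1+e)^2 = 2(1+e); PQ+QP: 2/(1+e) - (1-e)/(1+e) = 1; P+Q: (-2(1+2e) + e(1-e))/(1+e) = -(2+e).
    (D M P)(P M D) = M P M D etc. since D is a central idempotent.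
Hints: P, Q, C are `(p:ℝ)⁻¹ • Σ`; `Finset.mul_sum`, `Finset.sum_mul`, `Algebra.smul_mul_assoc`; keep the ring
identities of step (4) abstract: first prove a lemma for an R-algebra with elements P Q C satisfying P*P = P, Q*Q = Q, C*C = C,
C central for P, Q, P*Q*C = Q*P*C, P*Q*P*(1-C) = (e*e) • (P*(1-C)), Q*P*Q*(1-C) = (e*e) • (Q*(1-C)).
-/

set_option autoImplicit false

namespace Pool.Agent.Helper784MS

/-- average over the powers of `x` -/
noncomputable def av {A : Type} [Ring A] [Algebra ℝ A] (p : ℕ) (x : A) : A :=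
  (p : ℝ)⁻¹ • ∑ t ∈ Finset.range p, x ^ t

section heis

variable {A : Type} [Ring A] [Algebra ℝ A] {p : ℕ}

theorem mul_av {x : A} (hx : x ^ p = 1) : x * av p x = av p x := by
  unfold av
  rw [mul_smul_comm, Finset.mul_sum]
  congr 1
  have h1 : ∑ t ∈ Finset.range p, x * x ^ t = ∑ t ∈ Finset.range p, x ^ (t + 1) :=
    Finset.sum_congr rfl fun t _ => (pow_succ' x t).symm
  rw [h1]
  have h2 := Finset.sum_range_succ (fun t => x ^ t) p
  have h3 := Finset.sum_range_succ' (fun t => x ^ t) p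
  rw [h2, hx, pow_zero] at h3
  exact (add_right_cancel h3).symm

theorem pow_mul_av {x : A} (hx : x ^ p = 1) (s : ℕ) : x ^ s * av p x = av p x := by
  induction s with
  | zero => rw [pow_zero, one_mul]
  | succ s ih => rw [pow_succ, mul_assoc, mul_av hx, ih]

theorem av_mul_of {x w : A} (hp : p ≠ 0) (h : ∀ s, x ^ s * w = w) : av p x * w = w := by
  unfold av
  rw [smul_mul_assoc, Finset.sum_mul, Finset.sum_congr rfl fun s _ => h s, Finset.sum_const,
    Finset.card_range, ← Nat.cast_smul_eq_nsmul ℝ, smul_smul, inv_mul_cancel₀ (by exact_mod_cast hp),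
    one_smul]

theorem av_mul (x w : A) : av p x * w = (p : ℝ)⁻¹ • ∑ s ∈ Finset.range p, x ^ s * w := by
  rw [av, smul_mul_assoc, Finset.sum_mul]

theorem av_commute {x w : A} (h : Commute x w) : Commute (av p x) w := by
  unfold av
  exact (Commute.sum_left _ _ _ fun s _ => h.pow_left s).smul_left _

/-- averages over the powers of `z` and of `z ^ t` -/
theorem av_pow {z : A} (hp : p.Prime) (hz : z ^ p = 1) {t : ℕ} (ht : t.Coprime p) :
    av p (z ^ t) = av p z := by
  have hzt : (z ^ t) ^ p = 1 := by rw [← pow_mul, mul_comm, pow_mul, hz, one_pow]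
  have h1 : av p (z ^ t) * av p z = av p z := by
    refine av_mul_of hp.ne_zero fun s => ?_
    rw [← pow_mul, pow_mul_av hz]
  have h2 : av p z * av p (z ^ t) = av p (z ^ t) := by
    refine av_mul_of hp.ne_zero fun s => ?_
    obtain ⟨t', ht'⟩ := Nat.exists_mul_mod_eq_one_of_coprime ht hp.one_lt
    have h3 : z = (z ^ t) ^ t' := by
      rw [← pow_mul, ← Nat.div_add_mod (t * t') p, pow_add, pow_mul, hz, one_pow, one_mul, ht'.2,
        pow_one]
    have h4 : z ^ s * av p (z ^ t) = (z ^ t) ^ (t' * s) * av p (z ^ t) := by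
      rw [pow_mul, ← h3]
    rw [h4, pow_mul_av hzt]
  have h3 : Commute (av p z) (av p (z ^ t)) :=
    av_commute (av_commute ((Commute.refl z).pow_left t)).symm
  rw [← h1, ← h3.eq, h2]

theorem xs_yt {x y z : A} (zx : Commute z x) (zy : Commute z y) (xy : x * y = z * (y * x))
    (s t : ℕ) : x ^ s * y ^ t = z ^ (t * s) * (y ^ t * x ^ s) := by
  have h1 : ∀ t, x * y ^ t = z ^ t * (y ^ t * x) := by
    intro t
    induction t with
    | zero => simp
    | succ t ih =>
      calc x * y ^ (t + 1) = (x * y ^ t) * y := by rw [pow_succ, mul_assoc]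
        _ = z ^ t * (y ^ t * (x * y)) := by rw [ih]; simp only [mul_assoc]
        _ = z ^ t * (y ^ t * z * (y * x)) := by rw [xy]; simp only [mul_assoc]
        _ = z ^ t * (z * y ^ t * (y * x)) := by rw [(zy.pow_right t).eq]
        _ = _ := by rw [pow_succ z, pow_succ y]; simp only [mul_assoc]
  induction s with
  | zero => simp
  | succ s ih =>
    calc x ^ (s + 1) * y ^ t = x ^ s * (x * y ^ t) := by rw [pow_succ, mul_assoc]
      _ = x ^ s * z ^ t * (y ^ t * x) := by rw [h1]; simp only [mul_assoc]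
      _ = z ^ t * x ^ s * (y ^ t * x) := by rw [((zx.pow_pow t s).eq)]
      _ = z ^ t * (x ^ s * y ^ t) * x := by simp only [mul_assoc]
      _ = _ := by
        rw [ih, Nat.mul_succ, add_comm, pow_add, pow_succ x]
        simp only [mul_assoc]

theorem PyP {x y z : A} (hp : p.Prime) (hx : x ^ p = 1) (hz : z ^ p = 1)
    (zx : Commute z x) (zy : Commute z y) (xy : x * y = z * (y * x)) {t : ℕ} (ht0 : 0 < t)
    (ht : t < p) : av p x * (y ^ t * av p x) = y ^ t * (av p z * av p x) := by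
  have h1 : ∀ s, x ^ s * (y ^ t * av p x) = y ^ t * ((z ^ t) ^ s * av p x) := by
    intro s
    rw [← mul_assoc, xs_yt zx zy xy, mul_assoc, mul_assoc, pow_mul_av hx, ← mul_assoc,
      ← pow_mul, ((zy.pow_pow (t * s) t).eq), mul_assoc]
  have h2 : av p x * (y ^ t * av p x) = y ^ t * (av p (z ^ t) * av p x) := by
    rw [av_mul, Finset.sum_congr rfl fun s _ => h1 s, ← Finset.mul_sum, av_mul (z ^ t),
      mul_smul_comm]
  rw [h2, av_pow hp hz (Nat.coprime_of_lt_prime ht0.ne' ht hp).symm]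

/-- `P Q P (1 - C) = (1 / p) P (1 - C)` -/
theorem PQP {x y z : A} (hp : p.Prime) (hx : x ^ p = 1) (hz : z ^ p = 1)
    (zx : Commute z x) (zy : Commute z y) (xy : x * y = z * (y * x)) :
    av p x * (av p y * (av p x * (1 - av p z))) = (p : ℝ)⁻¹ • (av p x * (1 - av p z)) := by
  have hCP : Commute (av p z) (av p x) := av_commute (av_commute zx.symm).symm
  have hCC : av p z * av p z = av p z := av_mul_of hp.ne_zero fun s => pow_mul_av hz s
  have hPP : av p x * av p x = av p x := av_mul_of hp.ne_zero fun s => pow_mul_av hx s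
  have h0 : av p z * (av p x * (1 - av p z)) = 0 := by
    rw [← mul_assoc, hCP.eq, mul_assoc, mul_sub, mul_one, hCC, sub_self, mul_zero]
  rw [av_mul y, mul_smul_comm, Finset.mul_sum]
  congr 1
  rw [Finset.sum_eq_single 0]
  · rw [pow_zero, one_mul, ← mul_assoc, hPP]
  · intro t ht ht0
    have h1 := PyP hp hx hz zx zy xy (Nat.pos_of_ne_zero ht0) (Finset.mem_range.1 ht)
    calc av p x * (y ^ t * (av p x * (1 - av p z)))
        = (av p x * (y ^ t * av p x)) * (1 - av p z) := by simp only [mul_assoc]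
      _ = y ^ t * (av p z * (av p x * (1 - av p z))) := by rw [h1]; simp only [mul_assoc]
      _ = 0 := by rw [h0, mul_zero]
  · intro h
    exact absurd (Finset.mem_range.2 hp.pos) h

/-- `P Q C = Q P C` -/
theorem PQC {x y z : A} (hz : z ^ p = 1) (zx : Commute z x) (zy : Commute z y)
    (xy : x * y = z * (y * x)) :
    av p x * (av p y * av p z) = av p y * (av p x * av p z) := by
  have h1 : ∀ s t, x ^ s * (y ^ t * av p z) = y ^ t * (x ^ s * av p z) := by
    intro s t
    rw [← mul_assoc, xs_yt zx zy xy, mul_assoc, mul_assoc]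
    have h2 : Commute (z ^ (t * s)) (y ^ t) := zy.pow_pow _ _
    have h3 : Commute (z ^ (t * s)) (x ^ s) := zx.pow_pow _ _
    rw [← mul_assoc (z ^ (t * s)), h2.eq, mul_assoc, ← mul_assoc (z ^ (t * s)), h3.eq, mul_assoc,
      pow_mul_av hz]
  rw [av_mul x, av_mul y, av_mul y, av_mul x]
  simp only [mul_smul_comm, Finset.mul_sum, h1]
  rw [Finset.smul_sum, Finset.smul_sum]
  simp only [Finset.smul_sum]
  rw [Finset.sum_comm]

/-- the abstract identity -/
theorem abs_id {P Q C : A} (hPP : P * P = P) (hQQ : Q * Q = Q) (hCC : C * C = C)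
    (hCP : C * P = P * C) (hCQ : C * Q = Q * C) (hPQC : P * (Q * C) = Q * (P * C)) {e : ℝ}
    (he : 0 < e) (hPQP : P * (Q * (P * (1 - C))) = (e * e) • (P * (1 - C)))
    (hQPQ : Q * (P * (Q * (1 - C))) = (e * e) • (Q * (1 - C))) {M : A}
    (hM : M = (1 + e) • (1 : A) - P - Q) :
    (1 - P) * (1 - Q) + (1 - Q) * (1 - P) + e • ((1 - P) + (1 - Q)) =
      (2 : ℝ) • ((C * ((1 - Q) * (1 - P))) * (((1 - P) * (1 - Q)) * C)) +
      e • ((C * (1 - P)) * ((1 - P) * C)) + e • ((C * (1 - Q)) * ((1 - Q) * C)) +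
      (2 / (1 + e)) • (((1 - C) * M) * (M * (1 - C))) +
      ((1 - e) / (2 * e * (1 + e))) • ((((1 - C) * M) * P) * (P * (M * (1 - C)))) +
      ((1 - e) / (2 * e * (1 + e))) • ((((1 - C) * M) * Q) * (Q * (M * (1 - C)))) := by
  have hPP' : ∀ w, P * (P * w) = P * w := fun w => by rw [← mul_assoc, hPP]
  have hQQ' : ∀ w, Q * (Q * w) = Q * w := fun w => by rw [← mul_assoc, hQQ]
  have hCP' : ∀ w, C * (P * w) = P * (C * w) := fun w => by rw [← mul_assoc, hCP, mul_assoc]
  have hCQ' : ∀ w, C * (Q * w) = Q * (C * w) := fun w => by rw [← mul_assoc, hCQ, mul_assoc]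
  have hPQP1 : P * (Q * P) = P * (Q * C) + (e * e) • P - (e * e) • (P * C) := by
    have h1 : P * (Q * (P * C)) = P * (Q * C) := by
      rw [← hPQC, hPP']
    have h2 : P * (Q * P) = P * (Q * (P * (1 - C))) + P * (Q * (P * C)) := by
      rw [← mul_add, ← mul_add, ← mul_add, sub_add_cancel, mul_one]
    rw [h2, hPQP, h1, mul_sub, mul_one, smul_sub]
    abel
  have hQPQ1 : Q * (P * Q) = P * (Q * C) + (e * e) • Q - (e * e) • (Q * C) := by
    have h1 : Q * (P * (Q * C)) = P * (Q * C) := by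
      rw [hPQC, hQQ']
    have h2 : Q * (P * Q) = Q * (P * (Q * (1 - C))) + Q * (P * (Q * C)) := by
      rw [← mul_add, ← mul_add, ← mul_add, sub_add_cancel, mul_one]
    rw [h2, hQPQ, h1, mul_sub, mul_one, smul_sub]
    abel
  have hPQPC : P * (Q * (P * C)) = P * (Q * C) := by rw [← hPQC, hPP']
  have hQPQC : Q * (P * (Q * C)) = P * (Q * C) := by rw [hPQC, hQQ']
  have hM2 : ((1 - C) * M) * (M * (1 - C)) = (1 + e) ^ 2 • (1 - C) -
      (1 + 2 * e) • (P - P * C + (Q - Q * C)) + (P * Q - P * (Q * C) +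
        (Q * P - P * (Q * C))) := by
    subst hM
    simp only [sub_mul, mul_sub, smul_mul_assoc, mul_smul_comm, one_mul, mul_one,
      mul_assoc, hPP, hPP', hQQ, hQQ', hCC, hCP, hCP', hCQ, hCQ', ← hPQC]
    module
  have hP2 : (((1 - C) * M) * P) * (P * (M * (1 - C))) = (e * e) • (P - P * C + (Q - Q * C)) -
      e • (P * Q - P * (Q * C) + (Q * P - P * (Q * C))) := by
    subst hM
    simp only [sub_mul, mul_sub, smul_mul_assoc, mul_smul_comm, one_mul, mul_one,
      mul_assoc, hPP, hPP', hQQ, hQQ', hCC, hCP, hCP', hCQ, hCQ', ← hPQC, hQPQ1, hQPQC]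
    module
  have hQ2 : (((1 - C) * M) * Q) * (Q * (M * (1 - C))) = (e * e) • (P - P * C + (Q - Q * C)) -
      e • (P * Q - P * (Q * C) + (Q * P - P * (Q * C))) := by
    subst hM
    simp only [sub_mul, mul_sub, smul_mul_assoc, mul_smul_comm, one_mul, mul_one,
      mul_assoc, hPP, hPP', hQQ, hQQ', hCC, hCP, hCP', hCQ, hCQ', ← hPQC, hPQP1, hQPQC]
    module
  have hC0 : (C * ((1 - Q) * (1 - P))) * (((1 - P) * (1 - Q)) * C) =
      C - P * C - Q * C + P * (Q * C) := by
    simp only [sub_mul, mul_sub, smul_mul_assoc, mul_smul_comm, one_mul, mul_one,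
      mul_assoc, hPP, hPP', hQQ, hQQ', hCC, hCP, hCP', hCQ, hCQ', ← hPQC, hQPQC]
    module
  have hC1 : (C * (1 - P)) * ((1 - P) * C) = C - P * C := by
    simp only [sub_mul, mul_sub, smul_mul_assoc, mul_smul_comm, one_mul, mul_one,
      mul_assoc, hPP, hPP', hQQ, hQQ', hCC, hCP, hCP', hCQ, hCQ', ← hPQC]
    module
  have hC2 : (C * (1 - Q)) * ((1 - Q) * C) = C - Q * C := by
    simp only [sub_mul, mul_sub, smul_mul_assoc, mul_smul_comm, one_mul, mul_one,
      mul_assoc, hPP, hPP', hQQ, hQQ', hCC, hCP, hCP', hCQ, hCQ', ← hPQC]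
    module
  rw [hM2, hP2, hQ2, hC0, hC1, hC2]
  have h1e : 1 + e ≠ 0 := by positivity
  have he0 : e ≠ 0 := he.ne'
  simp only [sub_mul, mul_sub, one_mul, mul_one]
  match_scalars <;> field_simp <;> ring

end heis

/-- TARGET (all four parts) -/
theorem heis_identity {A : Type} [Ring A] [Algebra ℝ A] {p : ℕ} (hp : p.Prime) {x y z : A}
    (hx : x ^ p = 1) (hy : y ^ p = 1) (hz : z ^ p = 1) (zx : Commute z x) (zy : Commute z y)
    (xy : x * y = z * (y * x)) {e : ℝ} (he : 0 < e) (hep : e * e = (p : ℝ)⁻¹) :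
    let P := av p x
    let Q := av p y
    let C := av p z
    let M := (1 + e) • (1 : A) - P - Q
    (P * P = P) ∧ (x * P = P) ∧
    (1 - P) * (1 - Q) + (1 - Q) * (1 - P) + e • ((1 - P) + (1 - Q)) =
      (2 : ℝ) • ((C * ((1 - Q) * (1 - P))) * (((1 - P) * (1 - Q)) * C)) +
      e • ((C * (1 - P)) * ((1 - P) * C)) + e • ((C * (1 - Q)) * ((1 - Q) * C)) +
      (2 / (1 + e)) • (((1 - C) * M) * (M * (1 - C))) +
      ((1 - e) / (2 * e * (1 + e))) • ((((1 - C) * M) * P) * (P * (M * (1 - C)))) +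
      ((1 - e) / (2 * e * (1 + e))) • ((((1 - C) * M) * Q) * (Q * (M * (1 - C)))) := by
  intro P Q C M
  have hPP : P * P = P := av_mul_of hp.ne_zero fun s => pow_mul_av hx s
  have hQQ : Q * Q = Q := av_mul_of hp.ne_zero fun s => pow_mul_av hy s
  have hCC : C * C = C := av_mul_of hp.ne_zero fun s => pow_mul_av hz s
  have hCP : C * P = P * C := (av_commute (av_commute zx.symm).symm).eq
  have hCQ : C * Q = Q * C := (av_commute (av_commute zy.symm).symm).eq
  refine ⟨hPP, mul_av hx, abs_id hPP hQQ hCC hCP hCQ (PQC hz zx zy xy) he ?_ ?_ rfl⟩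
  · rw [hep]
    exact PQP hp hx hz zx zy xy
  · rw [hep]
    have hz' : (z ^ (p - 1)) ^ p = 1 := by rw [← pow_mul, mul_comm, pow_mul, hz, one_pow]
    have hzz : z ^ (p - 1) * z = 1 := by rw [← pow_succ, Nat.sub_add_cancel hp.one_le, hz]
    have h1 := PQP (x := y) (y := x) (z := z ^ (p - 1)) hp hy hz' (zy.pow_left _) (zx.pow_left _)
      (by rw [xy, ← mul_assoc, hzz, one_mul])
    have h2 : (p - 1).Coprime p := by
      rcases Nat.lt_or_ge 2 p with h | h
      · exact (Nat.coprime_of_lt_prime (by omega) (by omega) hp).symm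
      · have : p = 2 := le_antisymm h hp.two_le
        subst this
        decide
    rw [av_pow hp hz h2] at h1
    exact h1

end Pool.Agent.Helper784MS
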