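import Pool.Agent.Helper784MS.Spec
import Pool.Agent.Helper784MS.A1a

set_option autoImplicit false

open Filter Topology
open scoped InnerProductSpace

namespace Pool.Agent.Helper784MS

section
variable {F : Filter ℕ} {G : Type} [Group G] {E : ℕ → Type}
  [∀ n, NormedAddCommGroup (E n)] [∀ n, InnerProductSpace ℂ (E n)]

/-- sequences of operators which tend to zero -/
def specA1_Null (F : Filter ℕ) (Z : ∀ n, E n →L[ℂ] E n) : Prop :=
  Tendsto (fun n => ‖Z n‖) F (𝓝 0)

theorem specA1_null_le {Z : ∀ n, E n →L[ℂ] E n} {b : ℕ → ℝ} (hb : Tendsto b F (𝓝 0))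
    (h : ∀ n, ‖Z n‖ ≤ b n) : specA1_Null F Z :=
  squeeze_zero (fun _ => norm_nonneg _) h hb

theorem specA1_null_congr {Z W : ∀ n, E n →L[ℂ] E n} (hZ : specA1_Null F Z)
    (h : ∀ n, Z n = W n) : specA1_Null F W := by
  have e : Z = W := funext h
  rwa [← e]

theorem specA1_null_norm {Z : ∀ n, E n →L[ℂ] E n} {b : ℕ → ℝ} (hb : Tendsto b F (𝓝 0))
    (h : ∀ n, ‖Z n‖ = b n) : specA1_Null F Z := specA1_null_le hb (fun n => (h n).le)

theorem specA1_null_add {Z W : ∀ n, E n →L[ℂ] E n} (hZ : specA1_Null F Z)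
    (hW : specA1_Null F W) : specA1_Null F (fun n => Z n + W n) := by
  refine specA1_null_le (b := fun n => ‖Z n‖ + ‖W n‖) ?_ (fun n => norm_add_le _ _)
  have := Tendsto.add hZ hW
  rwa [add_zero] at this

theorem specA1_null_smul {Z : ∀ n, E n →L[ℂ] E n} (hZ : specA1_Null F Z) (c : ℂ) :
    specA1_Null F (fun n => c • Z n) := by
  refine specA1_null_le (b := fun n => ‖c‖ * ‖Z n‖) ?_ (fun n => (norm_smul _ _).le)
  have := Tendsto.const_mul ‖c‖ hZ
  rwa [mul_zero] at this

theorem specA1_null_neg {Z : ∀ n, E n →L[ℂ] E n} (hZ : specA1_Null F Z) :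
    specA1_Null F (fun n => -Z n) := by
  refine specA1_null_le (b := fun n => ‖Z n‖) hZ (fun n => (norm_neg _).le)

theorem specA1_null_sub {Z W : ∀ n, E n →L[ℂ] E n} (hZ : specA1_Null F Z)
    (hW : specA1_Null F W) : specA1_Null F (fun n => Z n - W n) := by
  have := specA1_null_add hZ (specA1_null_neg hW)
  simpa only [sub_eq_add_neg] using this

theorem specA1_null_mul_left {Z B : ∀ n, E n →L[ℂ] E n} (hZ : specA1_Null F Z) {C : ℝ}
    (hB : ∀ n, ‖B n‖ ≤ C) : specA1_Null F (fun n => B n * Z n) := by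
  refine specA1_null_le (b := fun n => C * ‖Z n‖) ?_ (fun n => ?_)
  · have := Tendsto.const_mul C hZ
    rwa [mul_zero] at this
  · exact (norm_mul_le _ _).trans (mul_le_mul_of_nonneg_right (hB n) (norm_nonneg _))

theorem specA1_null_mul_right {Z B : ∀ n, E n →L[ℂ] E n} (hZ : specA1_Null F Z) {C : ℝ}
    (hB : ∀ n, ‖B n‖ ≤ C) : specA1_Null F (fun n => Z n * B n) := by
  refine specA1_null_le (b := fun n => ‖Z n‖ * C) ?_ (fun n => ?_)
  · have := Tendsto.mul_const C hZ
    rwa [zero_mul] at this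
  · exact (norm_mul_le _ _).trans (mul_le_mul_of_nonneg_left (hB n) (norm_nonneg _))

theorem specA1_null_zero : specA1_Null F (fun n => (0 : E n →L[ℂ] E n)) := by
  refine specA1_null_le (b := fun _ => 0) tendsto_const_nhds (fun n => by rw [norm_zero])

theorem specA1_null_inner {Z : ∀ n, E n →L[ℂ] E n} (hZ : specA1_Null F Z) {ε : ℝ} (hε : 0 < ε) :
    ∀ᶠ n in F, ∀ ξ : E n, |(⟪Z n ξ, ξ⟫_ℂ).re| ≤ ε * ‖ξ‖ ^ 2 := by
  filter_upwards [hZ.eventually (gt_mem_nhds hε)] with n hn ξ
  calc |(⟪Z n ξ, ξ⟫_ℂ).re| ≤ ‖⟪Z n ξ, ξ⟫_ℂ‖ := Complex.abs_re_le_norm _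
    _ ≤ ‖Z n ξ‖ * ‖ξ‖ := norm_inner_le_norm _ _
    _ ≤ (‖Z n‖ * ‖ξ‖) * ‖ξ‖ := mul_le_mul_of_nonneg_right ((Z n).le_opNorm ξ) (norm_nonneg _)
    _ ≤ (ε * ‖ξ‖) * ‖ξ‖ := by
        apply mul_le_mul_of_nonneg_right _ (norm_nonneg _)
        exact mul_le_mul_of_nonneg_right hn.le (norm_nonneg _)
    _ = ε * ‖ξ‖ ^ 2 := by ring

theorem specA1_null_vec {Z : ∀ n, E n →L[ℂ] E n} (hZ : specA1_Null F Z) {ε : ℝ} (hε : 0 < ε) :
    ∀ᶠ n in F, ∀ ξ : E n, ‖Z n ξ‖ ≤ ε * ‖ξ‖ := by
  filter_upwards [hZ.eventually (gt_mem_nhds hε)] with n hn ξ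
  exact ((Z n).le_opNorm ξ).trans (mul_le_mul_of_nonneg_right hn.le (norm_nonneg _))

/-- evaluation of elements of the group algebra -/
noncomputable def specA1_ev (R : AsRep F G E) (n : ℕ) (a : MonoidAlgebra ℝ G) : E n →L[ℂ] E n :=
  a.coeff.sum fun g r => (r : ℂ) • R.T n g

variable (R : AsRep F G E)

theorem specA1_ev_zero (n : ℕ) : specA1_ev R n 0 = 0 := by
  simp [specA1_ev]

theorem specA1_ev_single (n : ℕ) (g : G) (r : ℝ) :
    specA1_ev R n (MonoidAlgebra.single g r) = (r : ℂ) • R.T n g := by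
  simp [specA1_ev]

theorem specA1_ev_add (n : ℕ) (a b : MonoidAlgebra ℝ G) :
    specA1_ev R n (a + b) = specA1_ev R n a + specA1_ev R n b := by
  unfold specA1_ev
  rw [MonoidAlgebra.coeff_add]
  apply Finsupp.sum_add_index'
  · intro g; simp
  · intro g r s; push_cast; rw [add_smul]

theorem specA1_ev_smul (n : ℕ) (c : ℝ) (a : MonoidAlgebra ℝ G) :
    specA1_ev R n (c • a) = (c : ℂ) • specA1_ev R n a := by
  induction a using MonoidAlgebra.induction_linear with
  | zero => rw [smul_zero, specA1_ev_zero, smul_zero]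
  | add x y hx hy => rw [smul_add, specA1_ev_add, specA1_ev_add, hx, hy, smul_add]
  | single g r =>
    rw [MonoidAlgebra.smul_single, specA1_ev_single, specA1_ev_single, smul_smul, smul_eq_mul]
    push_cast
    rfl

theorem specA1_ev_neg (n : ℕ) (a : MonoidAlgebra ℝ G) :
    specA1_ev R n (-a) = -specA1_ev R n a := by
  have := specA1_ev_smul R n (-1) a
  rw [neg_one_smul] at this
  rw [this]
  push_cast
  rw [neg_one_smul]

theorem specA1_ev_sub (n : ℕ) (a b : MonoidAlgebra ℝ G) :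
    specA1_ev R n (a - b) = specA1_ev R n a - specA1_ev R n b := by
  rw [sub_eq_add_neg, specA1_ev_add, specA1_ev_neg, sub_eq_add_neg]

theorem specA1_ev_sum {ι : Type} (s : Finset ι) (n : ℕ) (a : ι → MonoidAlgebra ℝ G) :
    specA1_ev R n (∑ i ∈ s, a i) = ∑ i ∈ s, specA1_ev R n (a i) := by
  classical
  induction s using Finset.induction_on with
  | empty => simp [specA1_ev_zero]
  | insert i s hi ih => rw [Finset.sum_insert hi, Finset.sum_insert hi, specA1_ev_add, ih]

theorem specA1_T_norm (n : ℕ) (g : G) : ‖R.T n g‖ ≤ 1 := by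
  apply ContinuousLinearMap.opNorm_le_bound _ zero_le_one
  intro ξ
  rw [R.iso, one_mul]

theorem specA1_ev_bdd (a : MonoidAlgebra ℝ G) : ∃ C : ℝ, ∀ n, ‖specA1_ev R n a‖ ≤ C := by
  induction a using MonoidAlgebra.induction_linear with
  | zero => exact ⟨0, fun n => by rw [specA1_ev_zero, norm_zero]⟩
  | add x y hx hy =>
    obtain ⟨C, hC⟩ := hx
    obtain ⟨C', hC'⟩ := hy
    refine ⟨C + C', fun n => ?_⟩
    rw [specA1_ev_add]
    exact (norm_add_le _ _).trans (add_le_add (hC n) (hC' n))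
  | single g r =>
    refine ⟨|r|, fun n => ?_⟩
    rw [specA1_ev_single, norm_smul, Complex.norm_real, Real.norm_eq_abs]
    exact mul_le_of_le_one_right (abs_nonneg r) (specA1_T_norm R n g)

theorem specA1_ev_mul (a b : MonoidAlgebra ℝ G) :
    specA1_Null F (fun n => specA1_ev R n (a * b) - specA1_ev R n a * specA1_ev R n b) := by
  induction a using MonoidAlgebra.induction_linear with
  | zero =>
    simp only [zero_mul, specA1_ev_zero, sub_zero]
    exact specA1_null_zero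
  | add x y hx hy =>
    refine specA1_null_congr (specA1_null_add hx hy) fun n => ?_
    rw [add_mul, specA1_ev_add, specA1_ev_add, add_mul]
    abel
  | single g r =>
    induction b using MonoidAlgebra.induction_linear with
    | zero =>
      simp only [mul_zero, specA1_ev_zero, sub_zero]
      exact specA1_null_zero
    | add x y hx hy =>
      refine specA1_null_congr (specA1_null_add hx hy) fun n => ?_
      rw [mul_add, specA1_ev_add, specA1_ev_add, mul_add]
      abel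
    | single h s =>
      refine specA1_null_congr (specA1_null_smul (R.mul g h) ((r : ℂ) * (s : ℂ))) fun n => ?_
      rw [MonoidAlgebra.single_mul_single, specA1_ev_single, specA1_ev_single, specA1_ev_single,
        smul_mul_smul_comm, smul_sub]
      push_cast
      rfl

theorem specA1_ev_one : specA1_Null F (fun n => specA1_ev R n 1 - 1) := by
  refine specA1_null_norm (R.mul 1 1) fun n => ?_
  rw [MonoidAlgebra.one_def, specA1_ev_single, mul_one]
  have e : ∀ ξ : E n, ‖(R.T n 1 - R.T n 1 * R.T n 1) ξ‖ =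
      ‖((((1 : ℝ) : ℂ) • R.T n 1 : E n →L[ℂ] E n) - 1) ξ‖ := by
    intro ξ
    have h1 : (R.T n 1 - R.T n 1 * R.T n 1) ξ = R.T n 1 (ξ - R.T n 1 ξ) := by
      simp
    have h2 : ((((1 : ℝ) : ℂ) • R.T n 1 : E n →L[ℂ] E n) - 1) ξ = -(ξ - R.T n 1 ξ) := by
      simp
    rw [h1, h2, R.iso, norm_neg]
  apply le_antisymm
  · apply ContinuousLinearMap.opNorm_le_bound _ (norm_nonneg _)
    intro ξ
    rw [← e]
    exact ContinuousLinearMap.le_opNorm _ _
  · apply ContinuousLinearMap.opNorm_le_bound _ (norm_nonneg _)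
    intro ξ
    rw [e]
    exact ContinuousLinearMap.le_opNorm _ _

end

section
variable {F : Filter ℕ} {G : Type} [Group G] {E : ℕ → Type}
  [∀ n, NormedAddCommGroup (E n)] [∀ n, InnerProductSpace ℂ (E n)] [∀ n, CompleteSpace (E n)]

theorem specA1_null_star {Z : ∀ n, E n →L[ℂ] E n} (hZ : specA1_Null F Z) :
    specA1_Null F (fun n => star (Z n)) :=
  specA1_null_norm hZ fun n => norm_star _

/-- formal adjoints -/
def specA1_Adj (R : AsRep F G E) (a b : MonoidAlgebra ℝ G) : Prop :=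
  specA1_Null F (fun n => star (specA1_ev R n a) - specA1_ev R n b)

variable {R : AsRep F G E}

theorem specA1_adj_zero : specA1_Adj R 0 0 :=
  specA1_null_congr specA1_null_zero fun n => by rw [specA1_ev_zero, star_zero, sub_zero]

theorem specA1_adj_add {a a' b b' : MonoidAlgebra ℝ G} (h : specA1_Adj R a a')
    (h' : specA1_Adj R b b') : specA1_Adj R (a + b) (a' + b') :=
  specA1_null_congr (specA1_null_add h h') fun n => by
    rw [specA1_ev_add, specA1_ev_add, star_add]; abel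

theorem specA1_adj_sub {a a' b b' : MonoidAlgebra ℝ G} (h : specA1_Adj R a a')
    (h' : specA1_Adj R b b') : specA1_Adj R (a - b) (a' - b') :=
  specA1_null_congr (specA1_null_sub h h') fun n => by
    rw [specA1_ev_sub, specA1_ev_sub, star_sub]; abel

theorem specA1_adj_smul {a a' : MonoidAlgebra ℝ G} (h : specA1_Adj R a a') (c : ℝ) :
    specA1_Adj R (c • a) (c • a') :=
  specA1_null_congr (specA1_null_smul h (c : ℂ)) fun n => by
    rw [specA1_ev_smul, specA1_ev_smul, star_smul, smul_sub]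
    congr 2
    rw [Complex.star_def, Complex.conj_ofReal]

theorem specA1_adj_sum {ι : Type} (s : Finset ι) {a a' : ι → MonoidAlgebra ℝ G}
    (h : ∀ i ∈ s, specA1_Adj R (a i) (a' i)) : specA1_Adj R (∑ i ∈ s, a i) (∑ i ∈ s, a' i) := by
  classical
  induction s using Finset.induction_on with
  | empty => simpa using specA1_adj_zero
  | insert i s hi ih =>
    rw [Finset.sum_insert hi, Finset.sum_insert hi]
    exact specA1_adj_add (h i (Finset.mem_insert_self i s))
      (ih fun j hj => h j (Finset.mem_insert_of_mem hj))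

theorem specA1_adj_one : specA1_Adj R 1 1 :=
  specA1_null_congr (specA1_null_sub (specA1_null_star (specA1_ev_one R)) (specA1_ev_one R))
    fun n => by rw [star_sub, star_one]; abel

theorem specA1_adj_mul {a a' b b' : MonoidAlgebra ℝ G} (h : specA1_Adj R a a')
    (h' : specA1_Adj R b b') : specA1_Adj R (a * b) (b' * a') := by
  obtain ⟨C, hC⟩ := specA1_ev_bdd R a
  obtain ⟨C', hC'⟩ := specA1_ev_bdd R b'
  have h1 := specA1_null_star (specA1_ev_mul R a b)
  have h2 := specA1_null_mul_right h' (B := fun n => star (specA1_ev R n a)) (C := C)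
    (fun n => by rw [norm_star]; exact hC n)
  have h3 := specA1_null_mul_left h (B := fun n => specA1_ev R n b') (C := C') hC'
  have h4 := specA1_ev_mul R b' a'
  refine specA1_null_congr (specA1_null_sub (specA1_null_add h1 (specA1_null_add h2 h3)) h4)
    fun n => ?_
  rw [star_sub, star_mul, sub_mul, mul_sub]
  abel

theorem specA1_adj_single (g : G) (r : ℝ) :
    specA1_Adj R (MonoidAlgebra.single g r) (MonoidAlgebra.single g⁻¹ r) := by
  have hiso : ∀ n, star (R.T n g) * R.T n g = 1 := by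
    intro n
    have := (ContinuousLinearMap.norm_map_iff_adjoint_comp_self (R.T n g)).1 (R.iso n g)
    rw [ContinuousLinearMap.star_eq_adjoint]
    exact this
  have h1 : specA1_Null F (fun n => 1 - R.T n g * R.T n g⁻¹) := by
    have h2 := R.mul g g⁻¹
    have h3 := specA1_null_sub (Z := fun n => R.T n (g * g⁻¹) - R.T n g * R.T n g⁻¹) h2
      (specA1_ev_one R)
    refine specA1_null_congr h3 fun n => ?_
    rw [MonoidAlgebra.one_def, specA1_ev_single, mul_inv_cancel]
    push_cast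
    rw [one_smul]
    abel
  have h2 := specA1_null_mul_left h1 (B := fun n => star (R.T n g)) (C := 1)
    (fun n => by rw [norm_star]; exact specA1_T_norm R n g)
  refine specA1_null_congr (specA1_null_smul h2 (r : ℂ)) fun n => ?_
  rw [specA1_ev_single, specA1_ev_single, star_smul, mul_sub, ← mul_assoc, hiso, mul_one, one_mul,
    smul_sub]
  congr 2
  rw [Complex.star_def, Complex.conj_ofReal]

theorem specA1_av_single (p : ℕ) (g : G) : av p (MonoidAlgebra.of ℝ G g) =
    (p : ℝ)⁻¹ • ∑ t ∈ Finset.range p, MonoidAlgebra.single (g ^ t) (1 : ℝ) := by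
  unfold av
  congr 1
  refine Finset.sum_congr rfl fun t _ => ?_
  rw [← map_pow]
  rfl

theorem specA1_adj_av {p : ℕ} {g : G} (hg : g ^ p = 1) :
    specA1_Adj R (av p (MonoidAlgebra.of ℝ G g)) (av p (MonoidAlgebra.of ℝ G g)) := by
  have h1 : specA1_Adj R (av p (MonoidAlgebra.of ℝ G g))
      ((p : ℝ)⁻¹ • ∑ t ∈ Finset.range p, MonoidAlgebra.single (g ^ t)⁻¹ (1 : ℝ)) := by
    rw [specA1_av_single]
    exact specA1_adj_smul (specA1_adj_sum _ fun t _ => specA1_adj_single _ _) _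
  have h2 : ∑ t ∈ Finset.range p, MonoidAlgebra.single (g ^ t)⁻¹ (1 : ℝ) =
      ∑ t ∈ Finset.range p, MonoidAlgebra.single (g ^ t) (1 : ℝ) := by
    have h3 : ∑ t ∈ Finset.range p, MonoidAlgebra.single (g ^ t)⁻¹ (1 : ℝ) =
        ∑ t ∈ Finset.range p, MonoidAlgebra.single (g ^ (p - 1 - t + 1)) (1 : ℝ) := by
      refine Finset.sum_congr rfl fun t ht => ?_
      rw [Finset.mem_range] at ht
      congr 1
      rw [inv_eq_iff_mul_eq_one, ← pow_add]
      have : t + (p - 1 - t + 1) = p := by omega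
      rw [this, hg]
    rw [h3, Finset.sum_range_reflect (fun t => MonoidAlgebra.single (g ^ (t + 1)) (1 : ℝ)) p]
    have h4 := Finset.sum_range_succ (fun t => MonoidAlgebra.single (g ^ t) (1 : ℝ)) p
    rw [Finset.sum_range_succ', hg, pow_zero] at h4
    exact add_right_cancel h4
  rw [h2, ← specA1_av_single] at h1
  exact h1

/-- asymptotically positive elements -/
def specA1_Pos (R : AsRep F G E) (a : MonoidAlgebra ℝ G) : Prop :=
  ∀ ε : ℝ, 0 < ε → ∀ᶠ n in F, ∀ ξ : E n, -(ε * ‖ξ‖ ^ 2) ≤ (⟪specA1_ev R n a ξ, ξ⟫_ℂ).re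

theorem specA1_pos_zero : specA1_Pos R 0 := by
  intro ε hε
  refine Eventually.of_forall fun n ξ => ?_
  rw [specA1_ev_zero]
  simp
  positivity

theorem specA1_pos_add {a b : MonoidAlgebra ℝ G} (ha : specA1_Pos R a) (hb : specA1_Pos R b) :
    specA1_Pos R (a + b) := by
  intro ε hε
  filter_upwards [ha (ε / 2) (by positivity), hb (ε / 2) (by positivity)] with n h1 h2 ξ
  rw [specA1_ev_add, ContinuousLinearMap.add_apply, inner_add_left, Complex.add_re]
  have := h1 ξ
  have := h2 ξ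
  linarith

theorem specA1_inner_smul (R : AsRep F G E) (n : ℕ) (c : ℝ) (a : MonoidAlgebra ℝ G) (ξ : E n) :
    (⟪specA1_ev R n (c • a) ξ, ξ⟫_ℂ).re = c * (⟪specA1_ev R n a ξ, ξ⟫_ℂ).re := by
  rw [specA1_ev_smul, ContinuousLinearMap.smul_apply, inner_smul_left, Complex.conj_ofReal,
    Complex.re_ofReal_mul]

theorem specA1_pos_smul {a : MonoidAlgebra ℝ G} (ha : specA1_Pos R a) {c : ℝ} (hc : 0 ≤ c) :
    specA1_Pos R (c • a) := by
  intro ε hε
  filter_upwards [ha (ε / (c + 1)) (by positivity)] with n h1 ξ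
  rw [specA1_inner_smul]
  have h2 := mul_le_mul_of_nonneg_left (h1 ξ) hc
  refine le_trans ?_ h2
  have h3 : c * -(ε / (c + 1) * ‖ξ‖ ^ 2) = -(c / (c + 1) * (ε * ‖ξ‖ ^ 2)) := by ring
  rw [h3, neg_le_neg_iff]
  have h4 : c / (c + 1) ≤ 1 := by rw [div_le_one (by positivity)]; linarith
  exact mul_le_of_le_one_left (by positivity) h4

theorem specA1_pos_sum {ι : Type} (s : Finset ι) {a : ι → MonoidAlgebra ℝ G}
    (h : ∀ i ∈ s, specA1_Pos R (a i)) : specA1_Pos R (∑ i ∈ s, a i) := by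
  classical
  induction s using Finset.induction_on with
  | empty => simpa using specA1_pos_zero
  | insert i s hi ih =>
    rw [Finset.sum_insert hi]
    exact specA1_pos_add (h i (Finset.mem_insert_self i s))
      (ih fun j hj => h j (Finset.mem_insert_of_mem hj))

theorem specA1_sq {b b' : MonoidAlgebra ℝ G} (h : specA1_Adj R b b') {ε : ℝ} (hε : 0 < ε) :
    ∀ᶠ n in F, ∀ ξ : E n,
      |(⟪specA1_ev R n (b' * b) ξ, ξ⟫_ℂ).re - ‖specA1_ev R n b ξ‖ ^ 2| ≤ ε * ‖ξ‖ ^ 2 := by
  obtain ⟨C, hC⟩ := specA1_ev_bdd R b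
  have h1 := specA1_null_sub (specA1_ev_mul R b' b) (specA1_null_mul_right h (C := C) hC)
  have h2 : specA1_Null F (fun n => specA1_ev R n (b' * b) -
      star (specA1_ev R n b) * specA1_ev R n b) :=
    specA1_null_congr h1 fun n => by rw [sub_mul]; abel
  filter_upwards [specA1_null_inner h2 hε] with n hn ξ
  have h3 := hn ξ
  have h4 : (⟪(star (specA1_ev R n b) * specA1_ev R n b) ξ, ξ⟫_ℂ).re =
      ‖specA1_ev R n b ξ‖ ^ 2 := by
    rw [ContinuousLinearMap.mul_apply, ContinuousLinearMap.star_eq_adjoint,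
      ContinuousLinearMap.adjoint_inner_left, inner_self_eq_norm_sq_to_K]
    norm_cast
  rw [ContinuousLinearMap.sub_apply, inner_sub_left, Complex.sub_re, h4] at h3
  exact h3

theorem specA1_pos_star {b b' : MonoidAlgebra ℝ G} (h : specA1_Adj R b b') :
    specA1_Pos R (b' * b) := by
  intro ε hε
  filter_upwards [specA1_sq h hε] with n hn ξ
  have h1 := (abs_le.1 (hn ξ)).1
  have h2 : 0 ≤ ‖specA1_ev R n b ξ‖ ^ 2 := by positivity
  linarith

end

theorem specA1_commpair {F : Filter ℕ} {G : Type} [Group G] {E : ℕ → Type}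
    [∀ n, NormedAddCommGroup (E n)] [∀ n, InnerProductSpace ℂ (E n)] [∀ n, CompleteSpace (E n)]
    {R : AsRep F G E} {A B : MonoidAlgebra ℝ G} (hA : A * A = A) (hB : B * B = B)
    (hAB : A * B = B * A) (aA : specA1_Adj R A A) (aB : specA1_Adj R B B) :
    specA1_Pos R (A * B + B * A) := by
  have h1 := specA1_pos_smul (specA1_pos_star (specA1_adj_mul aA aB)) (c := 2) (by norm_num)
  have h2 : (2 : ℝ) • (B * A * (A * B)) = A * B + B * A := by
    have h3 : B * A * (A * B) = A * B := by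
      calc B * A * (A * B) = B * (A * A) * B := by noncomm_ring
        _ = B * A * B := by rw [hA]
        _ = A * B * B := by rw [hAB]
        _ = A * (B * B) := by rw [mul_assoc]
        _ = A * B := by rw [hB]
    rw [h3, ← hAB, two_smul]
  rwa [h2] at h1

theorem specA1_heispair {F : Filter ℕ} {G : Type} [Group G] {E : ℕ → Type}
    [∀ n, NormedAddCommGroup (E n)] [∀ n, InnerProductSpace ℂ (E n)] [∀ n, CompleteSpace (E n)]
    {R : AsRep F G E} {p : ℕ} (hp : p.Prime) {x y : G} (hx : x ^ p = 1) (hy : y ^ p = 1)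
    (h1 : Commute (x * y * x⁻¹ * y⁻¹) x) (h2 : Commute (x * y * x⁻¹ * y⁻¹) y)
    {e : ℝ} (he : 0 < e) (hep : e * e = (p : ℝ)⁻¹) (he1 : e ≤ 1) :
    specA1_Pos R ((1 - av p (MonoidAlgebra.of ℝ G x)) * (1 - av p (MonoidAlgebra.of ℝ G y)) +
      (1 - av p (MonoidAlgebra.of ℝ G y)) * (1 - av p (MonoidAlgebra.of ℝ G x)) +
      e • ((1 - av p (MonoidAlgebra.of ℝ G x)) + (1 - av p (MonoidAlgebra.of ℝ G y)))) := by
  have hz : (x * y * x⁻¹ * y⁻¹) ^ p = 1 := by
    have h3 : x * y * x⁻¹ = (x * y * x⁻¹ * y⁻¹) * y := by group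
    have h4 : (x * y * x⁻¹) ^ p = 1 := by
      rw [conj_pow, hy]; group
    rw [h3, h2.mul_pow, hy, mul_one] at h4
    exact h4
  have hxy : x * y = (x * y * x⁻¹ * y⁻¹) * (y * x) := by group
  obtain ⟨-, -, h⟩ := heis_identity (A := MonoidAlgebra ℝ G) hp
    (x := MonoidAlgebra.of ℝ G x) (y := MonoidAlgebra.of ℝ G y)
    (z := MonoidAlgebra.of ℝ G (x * y * x⁻¹ * y⁻¹))
    (by rw [← map_pow, hx, map_one]) (by rw [← map_pow, hy, map_one])
    (by rw [← map_pow, hz, map_one])
    (by rw [Commute, SemiconjBy, ← map_mul, ← map_mul, h1.eq])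
    (by rw [Commute, SemiconjBy, ← map_mul, ← map_mul, h2.eq])
    (by rw [← map_mul, ← map_mul, ← map_mul, ← hxy]) he hep
  rw [h]
  have aP : specA1_Adj R (av p (MonoidAlgebra.of ℝ G x)) (av p (MonoidAlgebra.of ℝ G x)) :=
    specA1_adj_av hx
  have aQ : specA1_Adj R (av p (MonoidAlgebra.of ℝ G y)) (av p (MonoidAlgebra.of ℝ G y)) :=
    specA1_adj_av hy
  have aC : specA1_Adj R (av p (MonoidAlgebra.of ℝ G (x * y * x⁻¹ * y⁻¹)))
      (av p (MonoidAlgebra.of ℝ G (x * y * x⁻¹ * y⁻¹))) := specA1_adj_av hz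
  generalize av p (MonoidAlgebra.of ℝ G x) = P at *
  generalize av p (MonoidAlgebra.of ℝ G y) = Q at *
  generalize av p (MonoidAlgebra.of ℝ G (x * y * x⁻¹ * y⁻¹)) = C at *
  have a1P := specA1_adj_sub (specA1_adj_one (R := R)) aP
  have a1Q := specA1_adj_sub (specA1_adj_one (R := R)) aQ
  have a1C := specA1_adj_sub (specA1_adj_one (R := R)) aC
  have aM := specA1_adj_sub (specA1_adj_sub (specA1_adj_smul (specA1_adj_one (R := R)) (1 + e)) aP) aQ
  have hc : 0 ≤ (1 - e) / (2 * e * (1 + e)) := div_nonneg (by linarith) (by positivity)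
  refine specA1_pos_add (specA1_pos_add (specA1_pos_add (specA1_pos_add (specA1_pos_add ?_ ?_) ?_)
    ?_) ?_) ?_
  · exact specA1_pos_smul (specA1_pos_star (specA1_adj_mul (specA1_adj_mul a1P a1Q) aC))
      (by norm_num)
  · exact specA1_pos_smul (specA1_pos_star (specA1_adj_mul a1P aC)) he.le
  · exact specA1_pos_smul (specA1_pos_star (specA1_adj_mul a1Q aC)) he.le
  · exact specA1_pos_smul (specA1_pos_star (specA1_adj_mul aM a1C)) (by positivity)
  · exact specA1_pos_smul (specA1_pos_star (specA1_adj_mul aP (specA1_adj_mul aM a1C))) hc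
  · exact specA1_pos_smul (specA1_pos_star (specA1_adj_mul aQ (specA1_adj_mul aM a1C))) hc

theorem specA1_idem {G : Type} [Group G] {p : ℕ} (hp : p.Prime) {x : G} (hx : x ^ p = 1) :
    (1 - av p (MonoidAlgebra.of ℝ G x)) * (1 - av p (MonoidAlgebra.of ℝ G x)) =
      1 - av p (MonoidAlgebra.of ℝ G x) := by
  have hp0 : (0 : ℝ) < (p : ℝ) := by exact_mod_cast hp.pos
  obtain ⟨h, -, -⟩ := heis_identity (A := MonoidAlgebra ℝ G) hp
    (x := MonoidAlgebra.of ℝ G x) (y := MonoidAlgebra.of ℝ G x) (z := 1)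
    (by rw [← map_pow, hx, map_one]) (by rw [← map_pow, hx, map_one])
    (by rw [one_pow]) (Commute.one_left _) (Commute.one_left _)
    (by rw [one_mul]) (e := Real.sqrt ((p : ℝ)⁻¹)) (by positivity)
    (Real.mul_self_sqrt (by positivity))
  rw [mul_sub, mul_one, sub_mul, one_mul, h]
  abel

theorem specA1_avcomm {G : Type} [Group G] (p : ℕ) {x y : G} (h : Commute x y) :
    Commute (av p (MonoidAlgebra.of ℝ G x)) (av p (MonoidAlgebra.of ℝ G y)) := by
  unfold av
  refine Commute.smul_left (Commute.smul_right ?_ _) _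
  refine Commute.sum_left _ _ _ fun i _ => Commute.sum_right _ _ _ fun j _ => ?_
  rw [← map_pow, ← map_pow, Commute, SemiconjBy, ← map_mul, ← map_mul, (h.pow_pow i j).eq]

theorem specA1_alg {A I : Type} [Ring A] [Algebra ℝ A] [Fintype I] [DecidableEq I] (a : I → A)
    (c : I → I → ℝ) (hc : ∀ i j, c i j = c j i) :
    (1 / 2 : ℝ) • ∑ i, ∑ j, (a i * a j + a j * a i + c i j • (a i + a j) -
      (if i = j then (2 : ℝ) else 0) • a i) =
      (∑ i, a i) * (∑ i, a i) + ∑ i, (∑ j, c i j) • a i - ∑ i, a i := by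
  have h1 : ∑ i, ∑ j, a i * a j = (∑ i, a i) * ∑ i, a i := by rw [Finset.sum_mul_sum]
  have h2 : ∑ i, ∑ j, a j * a i = (∑ i, a i) * ∑ i, a i := by
    rw [Finset.sum_comm, Finset.sum_mul_sum]
  have h3 : ∑ i, ∑ j, c i j • a i = ∑ i, (∑ j, c i j) • a i :=
    Finset.sum_congr rfl fun i _ => (Finset.sum_smul).symm
  have h4 : ∑ i, ∑ j, c i j • a j = ∑ i, (∑ j, c i j) • a i := by
    rw [Finset.sum_comm, ← h3]
    exact Finset.sum_congr rfl fun i _ => Finset.sum_congr rfl fun j _ => by rw [hc]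
  have h5 : ∑ i, ∑ j, (if i = j then (2 : ℝ) else 0) • a i = (2 : ℝ) • ∑ i, a i := by
    rw [Finset.smul_sum]
    refine Finset.sum_congr rfl fun i _ => ?_
    rw [← Finset.sum_smul, Finset.sum_ite_eq, if_pos (Finset.mem_univ i)]
  have h6 : ∑ i, ∑ j, (a i * a j + a j * a i + c i j • (a i + a j) -
      (if i = j then (2 : ℝ) else 0) • a i) = (∑ i, ∑ j, a i * a j) + (∑ i, ∑ j, a j * a i) +
      ((∑ i, ∑ j, c i j • a i) + ∑ i, ∑ j, c i j • a j) -
      ∑ i, ∑ j, (if i = j then (2 : ℝ) else 0) • a i := by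
    simp only [Finset.sum_sub_distrib, Finset.sum_add_distrib, smul_add]
  rw [h6, h1, h2, h3, h4, h5, ← two_smul ℝ ((∑ i, a i) * ∑ i, a i),
    ← two_smul ℝ (∑ i, (∑ j, c i j) • a i), ← smul_add, ← smul_sub, smul_smul]
  norm_num

theorem specA1_alg2 {A I : Type} [Ring A] [Algebra ℝ A] [Fintype I] (a : I → A)
    (d : I → ℝ) (e D : ℝ) :
    (∑ i, a i) * (∑ i, a i) + ∑ i, (e * d i) • a i - ∑ i, a i + ∑ i, (e * (D - d i)) • a i =
      (∑ i, a i) * (∑ i, a i) - (1 - e * D) • ∑ i, a i := by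
  have h5 : ∑ i, (e * (D - d i)) • a i = (e * D) • ∑ i, a i - ∑ i, (e * d i) • a i := by
    rw [Finset.smul_sum, ← Finset.sum_sub_distrib]
    refine Finset.sum_congr rfl fun i _ => ?_
    rw [← sub_smul]
    congr 1
    ring
  rw [h5, sub_smul, one_smul]
  abel

theorem specA1_gap {F : Filter ℕ} {G I : Type} [Group G] [Fintype I] {E : ℕ → Type}
    [∀ n, NormedAddCommGroup (E n)] [∀ n, InnerProductSpace ℂ (E n)] [∀ n, CompleteSpace (E n)]
    {R : AsRep F G E} {x : I → G} {v w : G} {p D : ℕ} (h : Dat x v w p D)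
    {e : ℝ} (he : 0 < e) (hep : e * e = (p : ℝ)⁻¹) (he1 : e ≤ 1) :
    specA1_Pos R ((∑ i, (1 - av p (MonoidAlgebra.of ℝ G (x i)))) *
      (∑ i, (1 - av p (MonoidAlgebra.of ℝ G (x i)))) -
      (1 - e * D) • ∑ i, (1 - av p (MonoidAlgebra.of ℝ G (x i)))) := by
  classical
  set A : I → MonoidAlgebra ℝ G := fun i => 1 - av p (MonoidAlgebra.of ℝ G (x i)) with hA
  change specA1_Pos R ((∑ i, A i) * (∑ i, A i) - (1 - e * D) • ∑ i, A i)
  have aA : ∀ i, specA1_Adj R (A i) (A i) := fun i =>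
    specA1_adj_sub specA1_adj_one (specA1_adj_av (h.pow i))
  have idem : ∀ i, A i * A i = A i := fun i => specA1_idem h.prime (h.pow i)
  have posA : ∀ i, specA1_Pos R (A i) := fun i => by
    have := specA1_pos_star (aA i)
    rwa [idem] at this
  -- the pairs
  have pair : ∀ i j, specA1_Pos R (A i * A j + A j * A i +
      (if ¬ Commute (x i) (x j) then e else 0) • (A i + A j) -
      (if i = j then (2 : ℝ) else 0) • A i) := by
    intro i j
    by_cases hij : i = j
    · subst hij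
      have hc : ¬ ¬ Commute (x i) (x i) := not_not.2 (Commute.refl _)
      rw [if_neg hc, if_pos rfl, zero_smul, add_zero, idem, two_smul, sub_self]
      exact specA1_pos_zero
    · rw [if_neg hij, zero_smul, sub_zero]
      by_cases hc : Commute (x i) (x j)
      · rw [if_neg (not_not.2 hc), zero_smul, add_zero]
        refine specA1_commpair (idem i) (idem j) ?_ (aA i) (aA j)
        have h1 := specA1_avcomm p hc
        exact ((Commute.one_left _).sub_left ((Commute.one_right _).sub_right h1)).eq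
      · rw [if_pos hc]
        exact specA1_heispair h.prime (h.pow i) (h.pow j) (h.heis i j).1 (h.heis i j).2 he hep he1
  have hdD : ∀ i, ((Finset.univ.filter fun j => ¬ Commute (x i) (x j)).card : ℝ) ≤ D := by
    intro i
    obtain ⟨s, hs, hs'⟩ := h.deg i
    have h1 : (Finset.univ.filter fun j => ¬ Commute (x i) (x j)) ⊆ s := by
      intro j hj
      exact hs' j (Finset.mem_filter.1 hj).2
    have h2 := (Finset.card_le_card h1).trans hs
    exact_mod_cast h2
  have hsum : ∀ i, ∑ j, (if ¬ Commute (x i) (x j) then e else 0) =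
      e * ((Finset.univ.filter fun j => ¬ Commute (x i) (x j)).card : ℝ) := by
    intro i
    rw [← Finset.sum_filter, Finset.sum_const, nsmul_eq_mul, mul_comm]
  have hsymm : ∀ i j, (if ¬ Commute (x i) (x j) then e else 0) =
      (if ¬ Commute (x j) (x i) then e else 0) := by
    intro i j
    have : Commute (x j) (x i) ↔ Commute (x i) (x j) := ⟨fun h => h.symm, fun h => h.symm⟩
    simp only [this]
  have p1 := specA1_pos_smul (specA1_pos_sum Finset.univ fun i _ =>
    specA1_pos_sum Finset.univ fun j _ => pair i j) (c := 1 / 2) (by norm_num)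
  rw [specA1_alg A (fun i j => if ¬ Commute (x i) (x j) then e else 0) hsymm] at p1
  have p2 : specA1_Pos R (∑ i, (e * (D - ((Finset.univ.filter fun j =>
      ¬ Commute (x i) (x j)).card : ℝ))) • A i) :=
    specA1_pos_sum _ fun i _ => specA1_pos_smul (posA i)
      (mul_nonneg he.le (sub_nonneg.2 (hdD i)))
  have p3 := specA1_pos_add p1 p2
  simp only [hsum] at p3
  rw [specA1_alg2] at p3
  exact p3

theorem specA1_lap {F : Filter ℕ} {G I : Type} [Group G] [Fintype I] {E : ℕ → Type}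
    [∀ n, NormedAddCommGroup (E n)] [∀ n, InnerProductSpace ℂ (E n)]
    [∀ n, FiniteDimensional ℂ (E n)] [∀ n, CompleteSpace (E n)]
    (R : AsRep F G E) (x : I → G) (p : ℕ) :
    ∀ n, ∀ ξ : E n, Lap R x p n ξ = (∑ i, (1 - (1 / 2 : ℂ) • (specA1_ev R n
      (av p (MonoidAlgebra.of ℝ G (x i))) + star (specA1_ev R n
      (av p (MonoidAlgebra.of ℝ G (x i))))) : E n →L[ℂ] E n)) ξ := by
  intro n ξ
  have h1 : ∀ i, avg R p (x i) n =
      ((specA1_ev R n (av p (MonoidAlgebra.of ℝ G (x i))) : E n →L[ℂ] E n) : E n →ₗ[ℂ] E n) := by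
    intro i
    rw [specA1_av_single, specA1_ev_smul, specA1_ev_sum]
    unfold avg
    ext ζ
    simp [specA1_ev_single]
  unfold Lap
  rw [LinearMap.sum_apply, ContinuousLinearMap.sum_apply]
  refine Finset.sum_congr rfl fun i _ => ?_
  rw [h1 i]
  rfl

/-- TARGET -/
theorem specA1 : SpecA1 := by
  intro F G I _ _ E _ _ _ R x v w p D h
  have : ∀ n, CompleteSpace (E n) := fun n => FiniteDimensional.complete ℂ (E n)
  have hp1 : (1 : ℝ) ≤ (p : ℝ) := by exact_mod_cast h.prime.one_le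
  have hp0 : (0 : ℝ) < (p : ℝ) := by linarith
  set e : ℝ := Real.sqrt ((p : ℝ)⁻¹) with he
  have he0 : 0 < e := by rw [he]; positivity
  have hep : e * e = (p : ℝ)⁻¹ := Real.mul_self_sqrt (by positivity)
  have he1 : e ≤ 1 := by
    rw [he, Real.sqrt_le_one]
    exact inv_le_one_of_one_le₀ hp1
  have hD : e * D < 1 := by
    have h1 : (e * D) ^ 2 < 1 ^ 2 := by
      have h2 : (D : ℝ) ^ 2 < p := by exact_mod_cast h.lt
      have h3 : (e * D) ^ 2 = (p : ℝ)⁻¹ * (D : ℝ) ^ 2 := by rw [← hep]; ring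
      rw [h3, one_pow, inv_mul_lt_iff₀ hp0, mul_one]
      exact h2
    exact lt_of_pow_lt_pow_left₀ 2 zero_le_one h1
  set κ : ℝ := 1 - e * D with hκ
  have hκ0 : 0 < κ := by rw [hκ]; linarith
  refine ⟨κ, hκ0, fun ε hε => ?_⟩
  set Δ : MonoidAlgebra ℝ G := ∑ i, (1 - av p (MonoidAlgebra.of ℝ G (x i))) with hΔ
  have hgap : specA1_Pos R (Δ * Δ - κ • Δ) := specA1_gap h he0 hep he1
  have hadj : specA1_Adj R Δ Δ := specA1_adj_sum _ fun i _ =>
    specA1_adj_sub specA1_adj_one (specA1_adj_av (h.pow i))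
  obtain ⟨B, hB⟩ := specA1_ev_bdd R Δ
  -- the difference from the Laplacian
  have hnull : specA1_Null F (fun n => specA1_ev R n Δ - (∑ i, (1 - (1 / 2 : ℂ) • (specA1_ev R n
      (av p (MonoidAlgebra.of ℝ G (x i))) + star (specA1_ev R n
      (av p (MonoidAlgebra.of ℝ G (x i))))) : E n →L[ℂ] E n))) := by
    have h1 : ∀ s : Finset I, specA1_Null F (fun n => ∑ i ∈ s, ((specA1_ev R n 1 - 1) +
        (1 / 2 : ℂ) • (star (specA1_ev R n (av p (MonoidAlgebra.of ℝ G (x i)))) -
          specA1_ev R n (av p (MonoidAlgebra.of ℝ G (x i)))))) := by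
      classical
      intro s
      induction s using Finset.induction_on with
      | empty =>
        simp only [Finset.sum_empty]
        exact specA1_null_zero
      | insert i s hi ih =>
        simp only [Finset.sum_insert hi]
        exact specA1_null_add (specA1_null_add (specA1_ev_one R)
          (specA1_null_smul (specA1_adj_av (h.pow i)) (1 / 2 : ℂ))) ih
    refine specA1_null_congr (h1 Finset.univ) fun n => ?_
    rw [hΔ, specA1_ev_sum, ← Finset.sum_sub_distrib]
    refine Finset.sum_congr rfl fun i _ => ?_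
    rw [specA1_ev_sub]
    generalize specA1_ev R n (av p (MonoidAlgebra.of ℝ G (x i))) = P
    module
  set B' : ℝ := |B| with hB'
  have hB0 : 0 ≤ B' := abs_nonneg B
  set ε₁ : ℝ := ε / (2 * (2 + κ)) with hε₁
  have hε₁0 : 0 < ε₁ := by rw [hε₁]; positivity
  set δ : ℝ := min 1 (ε / (2 * (2 * B' + 1))) with hδ
  have hδ0 : 0 < δ := by rw [hδ]; positivity
  have hδ1 : δ ≤ 1 := min_le_left _ _
  have hδ2 : δ * (2 * B' + δ) ≤ ε / 2 := by
    calc δ * (2 * B' + δ) ≤ (ε / (2 * (2 * B' + 1))) * (2 * B' + 1) := by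
          apply mul_le_mul (min_le_right _ _) (by linarith) (by positivity) (by positivity)
      _ = ε / 2 := by field_simp
  filter_upwards [hgap ε₁ hε₁0, specA1_sq hadj hε₁0, specA1_null_inner hnull hε₁0,
    specA1_null_vec hnull hδ0] with n h1 h2 h3 h4 ξ
  have g1 := h1 ξ
  have g2 := h2 ξ
  have g3 := h3 ξ
  have g4 := h4 ξ
  have hlap := specA1_lap R x p n ξ
  rw [specA1_ev_sub, ContinuousLinearMap.sub_apply, inner_sub_left, Complex.sub_re,
    specA1_inner_smul] at g1
  rw [ContinuousLinearMap.sub_apply, ← hlap] at g3 g4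
  rw [inner_sub_left, Complex.sub_re] at g3
  set L : E n := Lap R x p n ξ with hL
  set V : E n := specA1_ev R n Δ ξ with hV
  have g5 := (abs_le.1 g2).2
  have g6 := (abs_le.1 g3).1
  have hVn : ‖V‖ ≤ B' * ‖ξ‖ := by
    refine ((specA1_ev R n Δ).le_opNorm ξ).trans ?_
    exact mul_le_mul_of_nonneg_right ((hB n).trans (le_abs_self B)) (norm_nonneg _)
  have hVL : ‖V‖ ^ 2 - ‖L‖ ^ 2 ≤ ε / 2 * ‖ξ‖ ^ 2 := by
    have k1 : ‖V‖ - ‖L‖ ≤ ‖V - L‖ := norm_sub_norm_le _ _
    have k2 : ‖L‖ ≤ ‖V‖ + ‖V - L‖ := by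
      have := norm_sub_norm_le L V
      rw [norm_sub_rev] at this
      linarith
    have k3 : ‖V‖ + ‖L‖ ≤ (2 * B' + δ) * ‖ξ‖ := by nlinarith
    calc ‖V‖ ^ 2 - ‖L‖ ^ 2 = (‖V‖ - ‖L‖) * (‖V‖ + ‖L‖) := by ring
      _ ≤ (δ * ‖ξ‖) * ((2 * B' + δ) * ‖ξ‖) := by
          apply mul_le_mul (k1.trans g4) k3 (by positivity) (by positivity)
      _ = (δ * (2 * B' + δ)) * ‖ξ‖ ^ 2 := by ring
      _ ≤ ε / 2 * ‖ξ‖ ^ 2 := mul_le_mul_of_nonneg_right hδ2 (by positivity)
  have hε2 : (2 + κ) * ε₁ = ε / 2 := by rw [hε₁]; field_simp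
  have g7 : κ * (⟪L, ξ⟫_ℂ).re ≤ κ * ((⟪V, ξ⟫_ℂ).re + ε₁ * ‖ξ‖ ^ 2) := by
    apply mul_le_mul_of_nonneg_left _ hκ0.le
    linarith
  have g8 : κ * (⟪L, ξ⟫_ℂ).re ≤ ‖V‖ ^ 2 + ((2 + κ) * ε₁) * ‖ξ‖ ^ 2 := by
    nlinarith
  rw [hε2] at g8
  linarith

end Pool.Agent.Helper784MS
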