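import Pool.Agent.Helper784MS.Spec

set_option autoImplicit false

open Filter Topology
open scoped InnerProductSpace

namespace Pool.Agent.Helper784MS

section A2
variable {V : Type} [NormedAddCommGroup V] [InnerProductSpace ℂ V] [FiniteDimensional ℂ V]

theorem A2_diag (T : V →ₗ[ℂ] V) (hT : T.IsSymmetric) (ξ : V) :
    (⟪T ξ, ξ⟫_ℂ).re = ∑ j, hT.eigenvalues rfl j * ‖⟪hT.eigenvectorBasis rfl j, ξ⟫_ℂ‖ ^ 2 := by
  rw [← (hT.eigenvectorBasis rfl).sum_inner_mul_inner (T ξ) ξ, Complex.re_sum]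
  refine Finset.sum_congr rfl fun j _ => ?_
  rw [hT ξ, hT.apply_eigenvectorBasis, inner_smul_right, mul_assoc,
    ← inner_conj_symm ξ (hT.eigenvectorBasis rfl j), Complex.conj_mul']
  rw [← Complex.ofReal_pow]
  exact (Complex.re_ofReal_mul _ _).trans (by rw [Complex.ofReal_re]; rfl)

theorem A2_split (T : V →ₗ[ℂ] V) (hT : T.IsSymmetric) (κ : ℝ) (hκ : 0 < κ) :
    ∃ A : Submodule ℂ V, (∀ ε : ℝ, (∀ ξ, 0 ≤ (⟪T ξ, ξ⟫_ℂ).re) →
      (∀ ξ, κ * (⟪T ξ, ξ⟫_ℂ).re ≤ ‖T ξ‖ ^ 2 + ε * ‖ξ‖ ^ 2) →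
      ∀ a ∈ A, (⟪T a, a⟫_ℂ).re ≤ 2 * ε / κ * ‖a‖ ^ 2) ∧
      ∀ b ∈ Aᗮ, κ / 2 * ‖b‖ ^ 2 ≤ (⟪T b, b⟫_ℂ).re := by
  set b := hT.eigenvectorBasis rfl with hb
  set μ := hT.eigenvalues rfl with hμ
  refine ⟨Submodule.span ℂ (b '' {j | μ j ≤ κ / 2}), ?_, ?_⟩
  · intro ε hpos hgap a ha
    have hzero : ∀ j, κ / 2 < μ j → ⟪b j, a⟫_ℂ = 0 := by
      intro j hj
      refine Submodule.span_induction (p := fun v _ => ⟪b j, v⟫_ℂ = 0) ?_ ?_ ?_ ?_ ha
      · rintro _ ⟨i, hi, rfl⟩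
        refine b.orthonormal.2 ?_
        rintro rfl
        exact absurd hj (not_lt.2 hi)
      · exact inner_zero_right _
      · intro u v _ _ hu hv
        rw [inner_add_right, hu, hv, add_zero]
      · intro c v _ hv
        rw [inner_smul_right, hv, mul_zero]
    rw [A2_diag T hT a, ← b.sum_sq_norm_inner_right a, Finset.mul_sum]
    refine Finset.sum_le_sum fun j _ => ?_
    by_cases hj : μ j ≤ κ / 2
    · refine mul_le_mul_of_nonneg_right ?_ (sq_nonneg _)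
      have hTb : T (b j) = (μ j : ℂ) • b j := hT.apply_eigenvectorBasis rfl j
      have hbn : ‖b j‖ = 1 := b.orthonormal.1 j
      have h1 := hpos (b j)
      have h2 := hgap (b j)
      rw [hTb, inner_smul_left, inner_self_eq_norm_sq_to_K, hbn] at h1
      rw [hTb, inner_smul_left, inner_self_eq_norm_sq_to_K, hbn, norm_smul, hbn] at h2
      have h3 : ((starRingEnd ℂ) (μ j : ℂ) * ((1 : ℝ) : ℂ) ^ 2).re = μ j := by
        rw [Complex.conj_ofReal]
        norm_cast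
        ring
      have h4 : ‖(μ j : ℂ)‖ ^ 2 = μ j ^ 2 := by
        rw [Complex.norm_real, Real.norm_eq_abs, sq_abs]
      have h1' : 0 ≤ μ j := by
        rw [← h3]; exact h1
      have h2' : κ * μ j ≤ μ j ^ 2 + ε := by
        have : κ * ((starRingEnd ℂ) (μ j : ℂ) * ((1 : ℝ) : ℂ) ^ 2).re ≤
          (‖(μ j : ℂ)‖ * 1) ^ 2 + ε * 1 ^ 2 := h2
        rw [h3, mul_one, h4] at this
        linarith
      show μ j ≤ 2 * ε / κ
      rw [le_div_iff₀ hκ]
      nlinarith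
    · have h0 : ⟪hT.eigenvectorBasis rfl j, a⟫_ℂ = 0 := hzero j (not_le.1 hj)
      rw [h0, norm_zero]
      simp
  · intro v hv
    rw [A2_diag T hT v, ← b.sum_sq_norm_inner_right v, Finset.mul_sum]
    refine Finset.sum_le_sum fun j _ => ?_
    by_cases hj : μ j ≤ κ / 2
    · have h0 : ⟪b j, v⟫_ℂ = 0 :=
        (Submodule.mem_orthogonal _ _).1 hv _ (Submodule.subset_span ⟨j, hj, rfl⟩)
      rw [h0, norm_zero]
      simp
    · exact mul_le_mul_of_nonneg_right (not_le.1 hj).le (sq_nonneg _)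

end A2

section A2b
variable {F : Filter ℕ} {G I : Type} [Group G] [Fintype I] {E : ℕ → Type}
  [∀ n, NormedAddCommGroup (E n)] [∀ n, InnerProductSpace ℂ (E n)]
  [∀ n, FiniteDimensional ℂ (E n)]

omit [∀ n, FiniteDimensional ℂ (E n)] in
theorem A2_avg_apply (R : AsRep F G E) (p : ℕ) (g : G) (n : ℕ) (ξ : E n) :
    avg R p g n ξ = (p : ℂ)⁻¹ • ∑ t ∈ Finset.range p, R.T n (g ^ t) ξ := by
  simp [avg]

omit [∀ n, FiniteDimensional ℂ (E n)] in
theorem A2_norm_avg_le (R : AsRep F G E) {p : ℕ} (hp : 0 < p) (g : G) (n : ℕ) (ξ : E n) :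
    ‖avg R p g n ξ‖ ≤ ‖ξ‖ := by
  have hp' : (0 : ℝ) < p := by exact_mod_cast hp
  rw [A2_avg_apply, norm_smul, norm_inv, Complex.norm_natCast, inv_mul_le_iff₀ hp']
  refine (norm_sum_le _ _).trans ?_
  simp [R.iso]

theorem A2_Lap_symm (R : AsRep F G E) (x : I → G) (p n : ℕ) : (Lap R x p n).IsSymmetric := by
  intro ξ η
  simp only [Lap, LinearMap.sum_apply, sum_inner, inner_sum]
  refine Finset.sum_congr rfl fun i _ => ?_
  simp only [LinearMap.sub_apply, Module.End.one_apply, LinearMap.smul_apply, LinearMap.add_apply,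
    inner_sub_left, inner_sub_right, inner_smul_left, inner_smul_right, inner_add_left,
    inner_add_right, LinearMap.adjoint_inner_left, LinearMap.adjoint_inner_right]
  have : (starRingEnd ℂ) (1 / 2 : ℂ) = 1 / 2 := by
    rw [map_div₀, map_one, Complex.conj_ofNat]
  rw [this]
  ring

theorem A2_Lap_re (R : AsRep F G E) (x : I → G) (p n : ℕ) (ξ : E n) :
    (⟪Lap R x p n ξ, ξ⟫_ℂ).re = ∑ i, (‖ξ‖ ^ 2 - (⟪avg R p (x i) n ξ, ξ⟫_ℂ).re) := by
  simp only [Lap, LinearMap.sum_apply, sum_inner, Complex.re_sum]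
  refine Finset.sum_congr rfl fun i _ => ?_
  simp only [LinearMap.sub_apply, Module.End.one_apply, LinearMap.smul_apply, LinearMap.add_apply,
    inner_sub_left, inner_smul_left, inner_add_left, LinearMap.adjoint_inner_left]
  have h1 : (starRingEnd ℂ) (1 / 2 : ℂ) = ((1 / 2 : ℝ) : ℂ) := by
    rw [map_div₀, map_one, Complex.conj_ofNat]
    push_cast
    ring
  have h2 : (⟪ξ, avg R p (x i) n ξ⟫_ℂ).re = (⟪avg R p (x i) n ξ, ξ⟫_ℂ).re := by
    rw [← inner_conj_symm, Complex.conj_re]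
  have h3 : (⟪ξ, ξ⟫_ℂ).re = ‖ξ‖ ^ 2 := by
    rw [inner_self_eq_norm_sq_to_K]
    norm_cast
  rw [h1, Complex.sub_re, Complex.re_ofReal_mul, Complex.add_re, h2, h3]
  ring

omit [∀ n, FiniteDimensional ℂ (E n)] in
theorem A2_term_nonneg (R : AsRep F G E) {p : ℕ} (hp : 0 < p) (g : G) (n : ℕ) (ξ : E n) :
    0 ≤ ‖ξ‖ ^ 2 - (⟪avg R p g n ξ, ξ⟫_ℂ).re := by
  have h1 : (⟪avg R p g n ξ, ξ⟫_ℂ).re ≤ ‖avg R p g n ξ‖ * ‖ξ‖ := re_inner_le_norm (𝕜 := ℂ) _ _
  have h2 := A2_norm_avg_le R hp g n ξ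
  nlinarith [norm_nonneg ξ]

omit [∀ n, FiniteDimensional ℂ (E n)] in
/-- `T (x i)` almost fixes the image of the average -/
theorem A2_T_avg (R : AsRep F G E) {p : ℕ} (hp : 0 < p) (g : G) (hg : g ^ p = 1) (η : ℝ)
    (hη : 0 < η) : ∀ᶠ n in F, ∀ ξ : E n,
    ‖R.T n g (avg R p g n ξ) - avg R p g n ξ‖ ≤ η * ‖ξ‖ := by
  have hp' : (0 : ℝ) < p := by exact_mod_cast hp
  have hev : ∀ᶠ n in F, ∀ t ∈ Finset.range p, ‖R.T n (g * g ^ t) - R.T n g * R.T n (g ^ t)‖ < η := by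
    rw [Filter.eventually_all_finset]
    intro t _
    exact (R.mul g (g ^ t)).eventually_lt_const hη
  filter_upwards [hev] with n hn ξ
  have h1 : ∑ t ∈ Finset.range p, R.T n (g ^ t) ξ = ∑ t ∈ Finset.range p, R.T n (g * g ^ t) ξ := by
    have h2 := Finset.sum_range_succ (fun t => R.T n (g ^ t) ξ) p
    have h3 := Finset.sum_range_succ' (fun t => R.T n (g ^ t) ξ) p
    rw [h2, hg, pow_zero] at h3
    simpa [pow_succ'] using add_right_cancel h3
  have h4 : R.T n g (avg R p g n ξ) - avg R p g n ξ =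
      (p : ℂ)⁻¹ • ∑ t ∈ Finset.range p, (R.T n g * R.T n (g ^ t) - R.T n (g * g ^ t)) ξ := by
    rw [A2_avg_apply, map_smul, ← smul_sub, map_sum, h1, ← Finset.sum_sub_distrib]
    rfl
  rw [h4, norm_smul, norm_inv, Complex.norm_natCast, inv_mul_le_iff₀ hp']
  refine (norm_sum_le _ _).trans ?_
  have h5 : ∀ t ∈ Finset.range p, ‖(R.T n g * R.T n (g ^ t) - R.T n (g * g ^ t)) ξ‖ ≤ η * ‖ξ‖ := by
    intro t ht
    refine (ContinuousLinearMap.le_opNorm _ _).trans ?_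
    refine mul_le_mul_of_nonneg_right ?_ (norm_nonneg _)
    rw [norm_sub_rev]
    exact (hn t ht).le
  refine (Finset.sum_le_sum h5).trans ?_
  simp

omit [∀ n, FiniteDimensional ℂ (E n)] in
/-- powers move a vector at most `t` times as much -/
theorem A2_T_pow (R : AsRep F G E) (g : G) (t : ℕ) : ∀ η : ℝ, 0 < η → ∀ᶠ n in F, ∀ ξ : E n,
    ‖R.T n (g ^ t) ξ - ξ‖ ≤ t * ‖R.T n g ξ - ξ‖ + η * ‖ξ‖ := by
  induction t with
  | zero =>
    intro η hη
    filter_upwards [(R.mul 1 1).eventually_lt_const hη] with n hn ξ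
    rw [mul_one] at hn
    have h1 : ‖R.T n 1 ξ - ξ‖ = ‖(R.T n 1 * R.T n 1 - R.T n 1) ξ‖ := by
      rw [← R.iso n 1 (R.T n 1 ξ - ξ), map_sub]
      rfl
    rw [pow_zero, h1]
    have h2 : ‖(R.T n 1 * R.T n 1 - R.T n 1) ξ‖ ≤ η * ‖ξ‖ := by
      refine (ContinuousLinearMap.le_opNorm _ _).trans ?_
      refine mul_le_mul_of_nonneg_right ?_ (norm_nonneg _)
      rw [norm_sub_rev]
      exact hn.le
    simpa using h2
  | succ t ih =>
    intro η hη
    filter_upwards [ih (η / 2) (half_pos hη),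
      (R.mul g (g ^ t)).eventually_lt_const (half_pos hη)] with n h1 h2 ξ
    have h3 : R.T n (g ^ (t + 1)) ξ - ξ = (R.T n (g * g ^ t) - R.T n g * R.T n (g ^ t)) ξ +
        R.T n g (R.T n (g ^ t) ξ - ξ) + (R.T n g ξ - ξ) := by
      rw [pow_succ', map_sub]
      show _ = R.T n (g * g ^ t) ξ - R.T n g (R.T n (g ^ t) ξ) + _ + _
      abel
    have h4 : ‖(R.T n (g * g ^ t) - R.T n g * R.T n (g ^ t)) ξ‖ ≤ η / 2 * ‖ξ‖ := by
      refine (ContinuousLinearMap.le_opNorm _ _).trans ?_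
      exact mul_le_mul_of_nonneg_right h2.le (norm_nonneg _)
    rw [h3]
    refine (norm_add₃_le).trans ?_
    rw [R.iso]
    have h5 := h1 ξ
    rw [Nat.cast_succ]
    linarith

end A2b

/-- TARGET -/
theorem specA_of (h : SpecA1) : SpecA := by
  intro F G I _ _ E _ _ _ R x v w p D hd
  obtain ⟨κ, hκ, hS⟩ := h R hd
  have hp : 0 < p := hd.prime.pos
  have hp' : (0 : ℝ) < p := by exact_mod_cast hp
  choose A hA1 hA2 using fun n => A2_split (Lap R x p n) (A2_Lap_symm R x p n) κ hκ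
  have hnn : ∀ (n : ℕ) (ξ : E n), 0 ≤ (⟪Lap R x p n ξ, ξ⟫_ℂ).re := by
    intro n ξ
    rw [A2_Lap_re]
    exact Finset.sum_nonneg fun i _ => A2_term_nonneg R hp _ _ _
  have hfix : ∀ i, ∀ ε : ℝ, 0 < ε → ∀ᶠ n in F, ∀ a ∈ A n, ‖R.T n (x i) a - a‖ ≤ ε * ‖a‖ := by
    intro i ε hε
    have hδ : 0 < ε ^ 2 / 32 * κ / 2 := by positivity
    filter_upwards [hS _ hδ, A2_T_avg R hp (x i) (hd.pow i) (ε / 2) (half_pos hε)] with n h1 h2 a ha
    have h3 := hA1 n _ (hnn n) h1 a ha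
    have h4 : 2 * (ε ^ 2 / 32 * κ / 2) / κ = ε ^ 2 / 32 := by
      field_simp
    rw [h4, A2_Lap_re] at h3
    have h5 : ‖a‖ ^ 2 - (⟪avg R p (x i) n a, a⟫_ℂ).re ≤ ε ^ 2 / 32 * ‖a‖ ^ 2 :=
      (Finset.single_le_sum (f := fun i => ‖a‖ ^ 2 - (⟪avg R p (x i) n a, a⟫_ℂ).re)
        (fun i _ => A2_term_nonneg R hp _ _ _) (Finset.mem_univ i)).trans h3
    have h6 : ‖avg R p (x i) n a - a‖ ^ 2 ≤ (ε / 4 * ‖a‖) ^ 2 := by
      have h7 : ‖avg R p (x i) n a - a‖ ^ 2 = ‖avg R p (x i) n a‖ ^ 2 -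
          2 * (⟪avg R p (x i) n a, a⟫_ℂ).re + ‖a‖ ^ 2 := norm_sub_sq (𝕜 := ℂ) _ _
      have h8 := A2_norm_avg_le R hp (x i) n a
      nlinarith [norm_nonneg a, norm_nonneg (avg R p (x i) n a)]
    have h9 : ‖avg R p (x i) n a - a‖ ≤ ε / 4 * ‖a‖ :=
      abs_le_of_sq_le_sq' h6 (by positivity) |>.2
    have h10 : R.T n (x i) a - a = - R.T n (x i) (avg R p (x i) n a - a) +
        (R.T n (x i) (avg R p (x i) n a) - avg R p (x i) n a) + (avg R p (x i) n a - a) := by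
      rw [map_sub]
      abel
    rw [h10]
    refine (norm_add₃_le).trans ?_
    rw [norm_neg, R.iso]
    have h11 := h2 a
    linarith
  refine ⟨A, hfix, κ / (2 * p), by positivity, ?_⟩
  intro ε hε
  set m : ℝ := (Fintype.card I : ℝ) + 1 with hm
  have hm0 : 0 < m := by positivity
  have hη : 0 < ε / (2 * m) := by positivity
  have hev1 : ∀ᶠ n in F, ∀ i ∈ (Finset.univ : Finset I), ∀ a ∈ A n,
      ‖R.T n (x i) a - a‖ ≤ ε / (2 * m) * ‖a‖ := by
    rw [Filter.eventually_all_finset]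
    intro i _
    exact hfix i _ hη
  have hev2 : ∀ᶠ n in F, ∀ i ∈ (Finset.univ : Finset I), ∀ t ∈ Finset.range p, ∀ ξ : E n,
      ‖R.T n (x i ^ t) ξ - ξ‖ ≤ t * ‖R.T n (x i) ξ - ξ‖ + ε / (2 * m) * ‖ξ‖ := by
    rw [Filter.eventually_all_finset]
    intro i _
    rw [Filter.eventually_all_finset]
    intro t _
    exact A2_T_pow R (x i) t _ hη
  filter_upwards [hev1, hev2] with n h1 h2 ξ
  set a := (A n).starProjection ξ with ha
  set b := ξ - a with hb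
  have haA : a ∈ A n := Submodule.starProjection_apply_mem _ _
  have hbA : b ∈ (A n)ᗮ := Submodule.sub_starProjection_mem_orthogonal _
  have han : ‖a‖ ≤ ‖ξ‖ := Submodule.norm_starProjection_apply_le _ _
  have hbn : ‖b‖ ≤ ‖ξ‖ := by
    have h3 : ‖ξ‖ * ‖ξ‖ = ‖a‖ * ‖a‖ + ‖b‖ * ‖b‖ := by
      have h4 : ξ = a + b := by rw [hb]; abel
      have h5 : ⟪a, b⟫_ℂ = 0 := (Submodule.mem_orthogonal _ _).1 hbA _ haA
      have := norm_add_sq_eq_norm_sq_add_norm_sq_of_inner_eq_zero (𝕜 := ℂ) a b h5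
      rw [← h4] at this
      exact this
    nlinarith [norm_nonneg ξ, norm_nonneg a, norm_nonneg b]
  -- the bound for each `i`
  have hi : ∀ i, ‖b - avg R p (x i) n b‖ ≤ p * ‖R.T n (x i) ξ - ξ‖ + (p * (ε / (2 * m)) +
      ε / (2 * m)) * ‖ξ‖ := by
    intro i
    have h3 : ‖R.T n (x i) b - b‖ ≤ ‖R.T n (x i) ξ - ξ‖ + ε / (2 * m) * ‖ξ‖ := by
      have h4 : R.T n (x i) b - b = (R.T n (x i) ξ - ξ) - (R.T n (x i) a - a) := by
        rw [hb, map_sub]
        abel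
      rw [h4]
      refine (norm_sub_le _ _).trans ?_
      have h5 := h1 i (Finset.mem_univ i) a haA
      have h6 : ε / (2 * m) * ‖a‖ ≤ ε / (2 * m) * ‖ξ‖ := mul_le_mul_of_nonneg_left han hη.le
      linarith
    have h7 : b - avg R p (x i) n b = (p : ℂ)⁻¹ • ∑ t ∈ Finset.range p, (b - R.T n (x i ^ t) b) := by
      rw [A2_avg_apply, Finset.sum_sub_distrib, smul_sub]
      congr 1
      rw [Finset.sum_const, Finset.card_range, ← Nat.cast_smul_eq_nsmul ℂ, smul_smul,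
        inv_mul_cancel₀ (by exact_mod_cast hp.ne'), one_smul]
    rw [h7, norm_smul, norm_inv, Complex.norm_natCast, inv_mul_le_iff₀ hp']
    refine (norm_sum_le _ _).trans ?_
    have h8 : ∀ t ∈ Finset.range p, ‖b - R.T n (x i ^ t) b‖ ≤
        p * ‖R.T n (x i) ξ - ξ‖ + (p * (ε / (2 * m)) + ε / (2 * m)) * ‖ξ‖ := by
      intro t ht
      rw [norm_sub_rev]
      refine (h2 i (Finset.mem_univ i) t ht b).trans ?_
      have ht' : (t : ℝ) ≤ p := by exact_mod_cast (Finset.mem_range.1 ht).le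
      have h9 : (t : ℝ) * ‖R.T n (x i) b - b‖ ≤ p * (‖R.T n (x i) ξ - ξ‖ + ε / (2 * m) * ‖ξ‖) :=
        mul_le_mul ht' h3 (norm_nonneg _) hp'.le
      have h10 : ε / (2 * m) * ‖b‖ ≤ ε / (2 * m) * ‖ξ‖ := mul_le_mul_of_nonneg_left hbn hη.le
      linarith
    refine (Finset.sum_le_sum h8).trans ?_
    rw [Finset.sum_const, Finset.card_range, nsmul_eq_mul]
  -- the spectral bound
  have hsp : κ / 2 * ‖b‖ ≤ ∑ i, ‖b - avg R p (x i) n b‖ := by
    rcases eq_or_lt_of_le (norm_nonneg b) with h0 | h0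
    · rw [← h0, mul_zero]
      exact Finset.sum_nonneg fun _ _ => norm_nonneg _
    · have h3 := hA2 n b hbA
      rw [A2_Lap_re] at h3
      have h4 : ∀ i ∈ (Finset.univ : Finset I), ‖b‖ ^ 2 - (⟪avg R p (x i) n b, b⟫_ℂ).re ≤
          ‖b - avg R p (x i) n b‖ * ‖b‖ := by
        intro i _
        have h5 : (⟪b - avg R p (x i) n b, b⟫_ℂ).re ≤ ‖b - avg R p (x i) n b‖ * ‖b‖ :=
          re_inner_le_norm (𝕜 := ℂ) _ _
        have h6 : (⟪b, b⟫_ℂ).re = ‖b‖ ^ 2 := by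
          rw [inner_self_eq_norm_sq_to_K]
          norm_cast
        rw [inner_sub_left, Complex.sub_re, h6] at h5
        exact h5
      have h7 := h3.trans (Finset.sum_le_sum h4)
      rw [← Finset.sum_mul] at h7
      have h8 : (κ / 2 * ‖b‖) * ‖b‖ ≤ (∑ i, ‖b - avg R p (x i) n b‖) * ‖b‖ := by
        linarith [h7]
      exact le_of_mul_le_mul_right h8 h0
  have hsum := hsp.trans (Finset.sum_le_sum fun i _ => hi i)
  rw [Finset.sum_add_distrib, ← Finset.mul_sum, Finset.sum_const, nsmul_eq_mul,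
    Finset.card_univ] at hsum
  have hfin : (Fintype.card I : ℝ) * ((p * (ε / (2 * m)) + ε / (2 * m)) * ‖ξ‖) ≤
      p * (ε * ‖ξ‖) := by
    have h3 : (Fintype.card I : ℝ) * (ε / (2 * m)) ≤ ε / 2 := by
      have : (Fintype.card I : ℝ) ≤ m := by rw [hm]; linarith
      calc (Fintype.card I : ℝ) * (ε / (2 * m)) ≤ m * (ε / (2 * m)) :=
            mul_le_mul_of_nonneg_right this hη.le
        _ = ε / 2 := by field_simp
    have h4 : (1 : ℝ) ≤ p := by exact_mod_cast hp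
    have h5 : (Fintype.card I : ℝ) * ((p * (ε / (2 * m)) + ε / (2 * m)) * ‖ξ‖) =
        (Fintype.card I : ℝ) * (ε / (2 * m)) * ((p + 1) * ‖ξ‖) := by ring
    rw [h5]
    calc (Fintype.card I : ℝ) * (ε / (2 * m)) * ((p + 1) * ‖ξ‖) ≤ ε / 2 * ((p + 1) * ‖ξ‖) :=
          mul_le_mul_of_nonneg_right h3 (by positivity)
      _ ≤ p * (ε * ‖ξ‖) := by
        have : 0 ≤ ε * ‖ξ‖ := by positivity
        nlinarith
  have hlast : p * (κ / (2 * p) * ‖b‖) ≤ p * ((∑ i, ‖R.T n (x i) ξ - ξ‖) + ε * ‖ξ‖) := by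
    have h3 : (p : ℝ) * (κ / (2 * p) * ‖b‖) = κ / 2 * ‖b‖ := by
      field_simp
    rw [h3, mul_add]
    linarith
  exact le_of_mul_le_mul_left hlast hp'

end Pool.Agent.Helper784MS
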