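import Pool.Agent.Helper784MS.Spec

/-!
# The group and its Hilbert-Schmidt approximations
-/

set_option autoImplicit false

open Filter Topology

namespace Pool.Agent.Helper784MS

/-! ## permutation matrices -/

section perm
variable {n : Type} [Fintype n] [DecidableEq n]

/-- the permutation matrix -/
def pm (σ : Equiv.Perm n) : Matrix n n ℂ := fun i j => if i = σ j then 1 else 0

omit [Fintype n] in
theorem pm_one : pm (1 : Equiv.Perm n) = 1 := by
  ext i j
  by_cases h : i = j
  · subst h; simp [pm]
  · rw [Matrix.one_apply_ne h]; simp [pm, h]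

theorem pm_mul (σ τ : Equiv.Perm n) : pm (σ * τ) = pm σ * pm τ := by
  ext i j
  rw [Matrix.mul_apply, Finset.sum_eq_single (τ j)]
  · by_cases h : i = σ (τ j) <;> simp [pm, h]
  · intro b _ hb; simp [pm, hb]
  · intro h; exact absurd (Finset.mem_univ _) h

omit [Fintype n] in
theorem pm_star (σ : Equiv.Perm n) : (pm σ).conjTranspose = pm σ⁻¹ := by
  ext i j
  simp only [pm, Matrix.conjTranspose_apply]
  have : (j = σ i) ↔ (i = σ⁻¹ j) := by
    rw [Equiv.Perm.eq_inv_iff_eq, eq_comm]
  by_cases h : j = σ i
  · rw [if_pos h, if_pos (this.1 h), star_one]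
  · rw [if_neg h, if_neg fun h2 => h (this.2 h2), star_zero]

theorem pm_mem (σ : Equiv.Perm n) : pm σ ∈ Matrix.unitaryGroup n ℂ := by
  rw [Matrix.mem_unitaryGroup_iff, Matrix.star_eq_conjTranspose, pm_star, ← pm_mul, mul_inv_cancel,
    pm_one]

/-- number of points where two permutations differ -/
def df (σ τ : Equiv.Perm n) : ℕ := (Finset.univ.filter fun a => σ a ≠ τ a).card

theorem trace_pm (σ τ : Equiv.Perm n) :
    (Matrix.trace ((pm σ - pm τ).conjTranspose * (pm σ - pm τ))).re = 2 * df σ τ := by
  have h : ∀ j, ((pm σ - pm τ).conjTranspose * (pm σ - pm τ)) j j =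
      if σ j ≠ τ j then (2 : ℂ) else 0 := by
    intro j
    rw [Matrix.mul_apply]
    by_cases h2 : σ j = τ j
    · rw [if_neg (not_not.2 h2)]
      apply Finset.sum_eq_zero
      intro i _
      simp [pm, h2]
    · rw [if_pos h2]
      have h1 : ∀ i, (pm σ - pm τ).conjTranspose j i * (pm σ - pm τ) i j =
          (if i = σ j then (1 : ℂ) else 0) + (if i = τ j then 1 else 0) := by
        intro i
        simp only [Matrix.conjTranspose_apply, Matrix.sub_apply, pm]
        by_cases h1 : i = σ j
        · have h3 : ¬ i = τ j := fun h3 => h2 (h1.symm.trans h3)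
          rw [if_pos h1, if_neg h3]; simp
        · by_cases h3 : i = τ j
          · rw [if_neg h1, if_pos h3]; simp
          · rw [if_neg h1, if_neg h3]; simp
      rw [Finset.sum_congr rfl fun i _ => h1 i, Finset.sum_add_distrib]
      simp; norm_num
  rw [Matrix.trace]
  simp only [Matrix.diag_apply]
  rw [Finset.sum_congr rfl fun j _ => h j, ← Finset.sum_filter]
  simp [df]; ring

/-- proportion of the points where two permutations differ -/
noncomputable def hm (σ τ : Equiv.Perm n) : ℝ := (df σ τ : ℝ) / Fintype.card n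

theorem hm_nonneg (σ τ : Equiv.Perm n) : 0 ≤ hm σ τ := by unfold hm; positivity

theorem df_comm (σ τ : Equiv.Perm n) : df σ τ = df τ σ := by
  unfold df; congr 1; ext a; simp [ne_comm]

theorem hm_comm (σ τ : Equiv.Perm n) : hm σ τ = hm τ σ := by
  unfold hm; rw [df_comm]

theorem df_tri (σ τ ρ : Equiv.Perm n) : df σ ρ ≤ df σ τ + df τ ρ := by
  unfold df
  refine le_trans (Finset.card_le_card ?_) (Finset.card_union_le _ _)
  intro a
  simp only [Finset.mem_filter, Finset.mem_univ, true_and, Finset.mem_union]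
  intro h
  by_contra hc
  push Not at hc
  exact h (hc.1.trans hc.2)

theorem hm_tri (σ τ ρ : Equiv.Perm n) : hm σ ρ ≤ hm σ τ + hm τ ρ := by
  unfold hm
  rw [← add_div]
  apply div_le_div_of_nonneg_right _ (Nat.cast_nonneg _)
  exact_mod_cast df_tri σ τ ρ

theorem df_mul_left (g a b : Equiv.Perm n) : df (g * a) (g * b) = df a b := by
  unfold df; simp

theorem df_mul_right (g a b : Equiv.Perm n) : df (a * g) (b * g) = df a b := by
  unfold df
  apply Finset.card_equiv g
  intro i
  rw [Finset.mem_filter, Finset.mem_filter]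
  simp

theorem hm_mul_left (g a b : Equiv.Perm n) : hm (g * a) (g * b) = hm a b := by
  unfold hm; rw [df_mul_left]

theorem hm_mul_right (g a b : Equiv.Perm n) : hm (a * g) (b * g) = hm a b := by
  unfold hm; rw [df_mul_right]

theorem hm_self (σ : Equiv.Perm n) : hm σ σ = 0 := by simp [hm, df]

theorem df_conj {m : Type} [Fintype m] [DecidableEq m] (e : n ≃ m) (σ τ : Equiv.Perm n) :
    df (e.permCongr σ) (e.permCongr τ) = df σ τ := by
  unfold df
  symm
  apply Finset.card_equiv e
  intro i
  simp [Equiv.permCongr_apply]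

end perm

/-! ## the models -/

/-- the finite set of level `N` -/
abbrev Om (N : ℕ) : Type := Fin (N + 1) × Matrix (Fin 3) (Fin 3) (Rg N)

noncomputable instance (N : ℕ) : DecidableEq (Rg N) := Classical.decEq _

/-- the element of level `j` seen in level `N` -/
def Act : ∀ N : ℕ, ℕ → (Ps →* Gp N)
  | 0, _ => Pi.evalMonoidHom (fun n => Gp n) 0
  | (N + 1), j => if j = N + 1 then Pi.evalMonoidHom (fun n => Gp n) (N + 1)
      else (io N).comp (Act N j)

theorem act_succ {κ y : Ps} (h : ∀ n, y (n + 1) = io n (κ n)) : ∀ N j : ℕ, j + 1 ≤ N →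
    Act N (j + 1) y = Act N j κ := by
  intro N
  induction N with
  | zero => intro j hj; omega
  | succ N ih =>
    intro j hj
    by_cases h1 : j = N
    · subst h1
      simp only [Act, if_true]
      rw [if_neg (by omega)]
      simp only [Pi.evalMonoidHom_apply, MonoidHom.comp_apply]
      rw [h]
      congr 1
      cases j with
      | zero => rfl
      | succ j => simp [Act]
    · simp only [Act]
      rw [if_neg (by omega), if_neg (by omega)]
      simp only [MonoidHom.comp_apply]
      rw [ih j (by omega)]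

/-- the action of the sequence group on the model -/
def PS (N : ℕ) : Ps →* Equiv.Perm (Om N) where
  toFun x :=
    { toFun := fun a => (a.1, (Act N a.1 x).val * a.2)
      invFun := fun a => (a.1, (Act N a.1 x)⁻¹.val * a.2)
      left_inv := fun a => by simp [← mul_assoc]
      right_inv := fun a => by simp [← mul_assoc] }
  map_one' := by
    ext a : 1
    simp
  map_mul' x y := by
    ext a : 1
    simp [mul_assoc]

/-- the shift -/
def vv (N : ℕ) : Equiv.Perm (Om N) := (Equiv.addRight (1 : Fin (N + 1))).prodCongr (Equiv.refl _)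

theorem PS_apply (N : ℕ) (x : Ps) (a : Om N) : PS N x a = (a.1, (Act N a.1 x).val * a.2) := rfl

theorem vv_apply (N : ℕ) (a : Om N) : vv N a = (a.1 + 1, a.2) := rfl

theorem vv_conj {κ y : Ps} (h : ∀ n, y (n + 1) = io n (κ n)) (N : ℕ) :
    hm (vv N * PS N κ * (vv N)⁻¹) (PS N y) ≤ 1 / (N + 1) := by
  rw [← hm_mul_right (vv N), inv_mul_cancel_right]
  have h1 : ∀ a : Om N, (a.1 : ℕ) + 1 ≤ N → (vv N * PS N κ) a = (PS N y * vv N) a := by
    intro a ha
    simp only [Equiv.Perm.mul_apply, PS_apply, vv_apply]
    have h2 : ((a.1 + 1 : Fin (N + 1)) : ℕ) = (a.1 : ℕ) + 1 := by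
      rw [Fin.val_add_one_of_lt]
      rw [Fin.lt_def]; simp; omega
    rw [h2, act_succ h N a.1 ha]
  have h3 : df (vv N * PS N κ) (PS N y * vv N) ≤ Fintype.card (Matrix (Fin 3) (Fin 3) (Rg N)) := by
    unfold df
    refine le_trans (Finset.card_le_card (t := (Finset.univ : Finset (Matrix (Fin 3) (Fin 3) (Rg N))).map
      ⟨fun b => ((Fin.last N, b) : Om N), fun b b' h => (Prod.mk.inj h).2⟩) ?_) ?_
    · intro a ha
      simp only [Finset.mem_filter, Finset.mem_univ, true_and] at ha
      simp only [Finset.mem_map, Finset.mem_univ, true_and]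
      refine ⟨a.2, ?_⟩
      have : ¬ (a.1 : ℕ) + 1 ≤ N := fun hh => ha (h1 a hh)
      have h4 : a.1 = Fin.last N := by
        apply Fin.ext; simp; omega
      show ((Fin.last N, a.2) : Om N) = a
      rw [← h4]
    · rw [Finset.card_map, Finset.card_univ]
  unfold hm
  have h5 : (Fintype.card (Om N) : ℝ) = (N + 1) * Fintype.card (Matrix (Fin 3) (Fin 3) (Rg N)) := by
    rw [Fintype.card_prod, Fintype.card_fin]; push_cast; ring
  have h6 : (0 : ℝ) < Fintype.card (Matrix (Fin 3) (Fin 3) (Rg N)) := by
    have : 0 < Fintype.card (Matrix (Fin 3) (Fin 3) (Rg N)) := Fintype.card_pos_iff.2 ⟨0⟩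
    exact_mod_cast this
  rw [h5, div_le_div_iff₀ (by positivity) (by positivity), one_mul, mul_comm]
  gcongr

end Pool.Agent.Helper784MS
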