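import Pool.Agent.Helper784MS.G

/-!
# The group: quotient, data, models
-/

set_option autoImplicit false

open Filter Topology

namespace Pool.Agent.Helper784MS

/-! ## Restricting the data to a subgroup -/

theorem Dat.sub {G H I : Type} [Group G] [Group H] [Fintype I] (j : H →* G)
    (hj : Function.Injective j) {x : I → H} {v w : H} {p D : ℕ}
    (h : Dat (fun i => j (x i)) (j v) (j w) p D) : Dat x v w p D := by
  have hcl : (Subgroup.closure (Set.range x)).map j =
      Subgroup.closure (Set.range fun i => j (x i)) := by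
    rw [MonoidHom.map_closure, ← Set.range_comp]; rfl
  have hmem : ∀ g : H, j g ∈ Subgroup.closure (Set.range fun i => j (x i)) →
      g ∈ Subgroup.closure (Set.range x) := by
    intro g hg
    rw [← hcl] at hg
    obtain ⟨g', h1, h2⟩ := hg
    rwa [← hj h2]
  have hmem' : ∀ g ∈ Subgroup.closure (Set.range x),
      j g ∈ Subgroup.closure (Set.range fun i => j (x i)) := by
    intro g hg
    rw [← hcl]
    exact ⟨g, hg, rfl⟩
  have hcom : ∀ a b : H, Commute (j a) (j b) → Commute a b := by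
    intro a b hab
    apply hj
    rw [map_mul, map_mul]; exact hab
  refine ⟨h.prime, h.lt, fun i => hj ?_, fun i i' => ⟨hcom _ _ ?_, hcom _ _ ?_⟩, fun i => ?_,
    fun i => hmem _ ?_, hmem _ h.wmem, fun k hk k' hk' => hcom _ _ ?_, ?_⟩
  · rw [map_pow, map_one]; exact h.pow i
  · simpa only [map_mul, map_inv] using (h.heis i i').1
  · simpa only [map_mul, map_inv] using (h.heis i i').2
  · obtain ⟨s, h1, h2⟩ := h.deg i
    refine ⟨s, h1, fun k hk => h2 k fun hh => hk (hcom _ _ hh)⟩
  · simpa only [map_mul, map_inv] using h.conj i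
  · simpa only [map_mul, map_inv] using h.comm _ (hmem' k hk) _ (hmem' k' hk')
  · have h3 : (Subgroup.closure (Set.range x)).map j ≤
        (⁅Subgroup.closure (Set.range x), Subgroup.closure (Set.range x)⁆ : Subgroup H).map j := by
      rw [Subgroup.map_commutator, hcl]
      exact h.perfect
    exact (Subgroup.map_le_map_iff_of_injective hj).1 h3

/-! ## The quotient -/

/-- the big group -/
abbrev GG : Type := (∀ N, Equiv.Perm (Om N)) × Multiplicative ℤ

/-- the null elements -/
def Null : Subgroup GG where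
  carrier := {g | g.2 = 1 ∧ Tendsto (fun N => hm (g.1 N) 1) atTop (𝓝 0)}
  one_mem' := by
    refine ⟨rfl, ?_⟩
    have : (fun N => hm ((1 : GG).1 N) 1) = fun _ => 0 := by
      funext N
      exact hm_self _
    rw [this]
    exact tendsto_const_nhds
  mul_mem' := by
    rintro a b ⟨h1, h2⟩ ⟨h3, h4⟩
    refine ⟨by rw [Prod.snd_mul, h1, h3, one_mul], ?_⟩
    refine squeeze_zero (fun N => hm_nonneg _ _) (fun N => ?_) (by simpa using h2.add h4)
    calc hm ((a * b).1 N) 1 = hm (a.1 N * b.1 N) 1 := rfl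
      _ ≤ hm (a.1 N * b.1 N) (a.1 N) + hm (a.1 N) 1 := hm_tri _ _ _
      _ = hm (a.1 N * b.1 N) (a.1 N * 1) + hm (a.1 N) 1 := by rw [mul_one]
      _ = hm (a.1 N) 1 + hm (b.1 N) 1 := by rw [hm_mul_left, add_comm]
  inv_mem' := by
    rintro a ⟨h1, h2⟩
    refine ⟨by rw [Prod.snd_inv, h1, inv_one], ?_⟩
    have : (fun N => hm ((a⁻¹).1 N) 1) = fun N => hm (a.1 N) 1 := by
      funext N
      rw [← hm_mul_left (a.1 N) ((a⁻¹).1 N) 1, mul_one, hm_comm]
      congr 1
      show a.1 N * (a.1 N)⁻¹ = 1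
      rw [mul_inv_cancel]
    rw [this]; exact h2

theorem mem_Null (g : GG) :
    g ∈ Null ↔ g.2 = 1 ∧ Tendsto (fun N => hm (g.1 N) 1) atTop (𝓝 0) := Iff.rfl

instance Null_normal : Null.Normal := by
  constructor
  rintro a ⟨h1, h2⟩ b
  refine ⟨?_, ?_⟩
  · show b.2 * a.2 * b.2⁻¹ = 1
    rw [h1, mul_one, mul_inv_cancel]
  · have : (fun N => hm ((b * a * b⁻¹).1 N) 1) = fun N => hm (a.1 N) 1 := by
      funext N
      show hm (b.1 N * a.1 N * (b.1 N)⁻¹) 1 = _
      rw [← hm_mul_right (b.1 N), inv_mul_cancel_right, one_mul]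
      conv_lhs => rw [← mul_one (b.1 N)]
      rw [mul_assoc, one_mul, hm_mul_left]
    rw [this]; exact h2

/-- the quotient -/
abbrev QQ : Type := GG ⧸ Null

theorem mk_eq {a b : GG} (h : a.2 = b.2)
    (h2 : Tendsto (fun N => hm (a.1 N) (b.1 N)) atTop (𝓝 0)) :
    (QuotientGroup.mk a : QQ) = QuotientGroup.mk b := by
  rw [QuotientGroup.eq]
  refine ⟨?_, ?_⟩
  · show a.2⁻¹ * b.2 = 1
    rw [h, inv_mul_cancel]
  · have : (fun N => hm ((a⁻¹ * b).1 N) 1) = fun N => hm (a.1 N) (b.1 N) := by
      funext N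
      show hm ((a.1 N)⁻¹ * b.1 N) 1 = _
      rw [← hm_mul_left (a.1 N), mul_inv_cancel_left, mul_one, hm_comm]
    rw [this]; exact h2

theorem of_mk_eq {a b : GG} (h : (QuotientGroup.mk a : QQ) = QuotientGroup.mk b) :
    Tendsto (fun N => hm (a.1 N) (b.1 N)) atTop (𝓝 0) := by
  rw [QuotientGroup.eq] at h
  have h2 := ((mem_Null _).1 h).2
  have : (fun N => hm ((a⁻¹ * b).1 N) 1) = fun N => hm (a.1 N) (b.1 N) := by
    funext N
    show hm ((a.1 N)⁻¹ * b.1 N) 1 = _
    rw [← hm_mul_left (a.1 N), mul_inv_cancel_left, mul_one, hm_comm]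
  rwa [this] at h2

/-- the sequences in the quotient -/
def q0 : Ps →* QQ :=
  (QuotientGroup.mk' Null).comp
    { toFun := fun x => ((fun N => PS N x : ∀ N, Equiv.Perm (Om N)), (1 : Multiplicative ℤ))
      map_one' := by
        ext : 1
        · funext N; exact map_one _
        · rfl
      map_mul' := fun x y => by
        ext : 1
        · funext N; exact map_mul _ _ _
        · rfl }

theorem q0_apply (x : Ps) : q0 x =
    QuotientGroup.mk (((fun N => PS N x : ∀ N, Equiv.Perm (Om N)), (1 : Multiplicative ℤ)) : GG) :=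
  rfl

/-- the shift in the quotient -/
def v0 : QQ := QuotientGroup.mk
  (((fun N => vv N : ∀ N, Equiv.Perm (Om N)), Multiplicative.ofAdd (1 : ℤ)) : GG)

theorem v0_conj {κ y : Ps} (h : ∀ n, y (n + 1) = io n (κ n)) : v0 * q0 κ * v0⁻¹ = q0 y := by
  rw [q0_apply, q0_apply, v0]
  show (QuotientGroup.mk (_ * _ * _⁻¹) : QQ) = _
  apply mk_eq
  · show Multiplicative.ofAdd (1 : ℤ) * 1 * (Multiplicative.ofAdd (1 : ℤ))⁻¹ = 1
    rw [mul_one, mul_inv_cancel]
  · refine squeeze_zero (fun N => hm_nonneg _ _) (fun N => vv_conj h N) ?_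
    exact tendsto_one_div_add_atTop_nhds_zero_nat

theorem dat0 (hK : SpecK) : ∃ w : Ps, w ∈ Subgroup.closure (Set.range xs) ∧
    Dat (fun i => q0 (xs i)) v0 (q0 w) 101 8 := by
  obtain ⟨w, hw, hcomm⟩ := hK.comm
  have hcl : (Subgroup.closure (Set.range xs)).map q0 =
      Subgroup.closure (Set.range fun i => q0 (xs i)) := by
    rw [MonoidHom.map_closure, ← Set.range_comp]; rfl
  refine ⟨w, hw, by norm_num, by norm_num, ?_, ?_, ?_, ?_, ?_, ?_, ?_⟩
  · intro i
    rw [← map_pow, hK.pow, map_one]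
  · intro i j
    have h := hK.heis i j
    constructor
    · have := h.1.map q0
      simpa only [map_mul, map_inv] using this
    · have := h.2.map q0
      simpa only [map_mul, map_inv] using this
  · intro i
    obtain ⟨s, h1, h2⟩ := hK.deg i
    exact ⟨s, h1, fun j hj => h2 j fun hh => hj (hh.map q0)⟩
  · intro i
    obtain ⟨y, hy, hy2⟩ := hK.shift i
    rw [v0_conj hy2, ← hcl]
    exact ⟨y, hy, rfl⟩
  · rw [← hcl]; exact ⟨w, hw, rfl⟩
  · intro k hk k' hk'
    rw [← hcl] at hk hk'
    obtain ⟨κ, -, rfl⟩ := hk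
    obtain ⟨κ', -, rfl⟩ := hk'
    let sh : Ps → Ps := fun κ n => match n with
      | 0 => 1
      | (n + 1) => io n (κ n)
    have hsh : ∀ κ n, sh κ (n + 1) = io n (κ n) := fun κ n => rfl
    rw [v0_conj (hsh κ), v0_conj (hsh κ')]
    have h1 : Commute (w * sh κ * w⁻¹) (sh κ') := by
      funext n
      cases n with
      | zero =>
        show w 0 * 1 * (w 0)⁻¹ * 1 = 1 * (w 0 * 1 * (w 0)⁻¹)
        simp
      | succ n => exact hcomm n (κ n) (κ' n)
    have := h1.map q0
    simpa only [map_mul, map_inv] using this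
  · rw [← hcl, ← Subgroup.map_commutator]
    exact Subgroup.map_mono hK.perfect

/-- the group -/
abbrev TheG : Type := ↥(Subgroup.closure (insert v0 (Set.range fun i => q0 (xs i))))

/-- its generators -/
def xG (i : Fin 3 × Fin 4) : TheG :=
  ⟨q0 (xs i), Subgroup.subset_closure (Set.mem_insert_of_mem _ ⟨i, rfl⟩)⟩

/-- the stable letter -/
def vG : TheG := ⟨v0, Subgroup.subset_closure (Set.mem_insert _ _)⟩

theorem gen_top : Subgroup.closure (insert vG (Set.range xG)) = ⊤ := by
  rw [← Subgroup.closure_closure_coe_preimage]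
  congr 1
  ext g
  constructor
  · rintro (h | ⟨i, h⟩)
    · rw [h]; exact Set.mem_insert _ _
    · rw [← h]; exact Set.mem_insert_of_mem _ ⟨i, rfl⟩
  · rintro (h | ⟨i, h⟩)
    · exact Set.mem_insert_iff.2 (Or.inl (Subtype.ext h))
    · exact Set.mem_insert_of_mem _ ⟨i, Subtype.ext h⟩

theorem datG (hK : SpecK) : ∃ w : TheG, Dat xG vG w 101 8 := by
  obtain ⟨w, hw, h⟩ := dat0 hK
  have hw2 : q0 w ∈ Subgroup.closure (insert v0 (Set.range fun i => q0 (xs i))) :=
    Subgroup.closure_mono (Set.subset_insert _ _) h.wmem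
  exact ⟨⟨q0 w, hw2⟩, Dat.sub (Subgroup.subtype _) Subtype.val_injective h⟩

/-- the projection to `ℤ` -/
def psiG : TheG →* Multiplicative ℤ :=
  (QuotientGroup.lift Null (MonoidHom.snd _ _) (fun _ hg => ((mem_Null _).1 hg).1)).comp
    (Subgroup.subtype _)

theorem psi_x (i : Fin 3 × Fin 4) : psiG (xG i) = 1 := rfl

theorem psi_v : psiG vG = Multiplicative.ofAdd 1 := rfl

instance countG : Countable TheG := by
  have : Subgroup.closure (insert v0 (Set.range fun i => q0 (xs i))) =
      (FreeGroup.lift (fun o : Option (Fin 3 × Fin 4) => o.elim v0 fun i => q0 (xs i))).range := by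
    rw [FreeGroup.range_lift_eq_closure]
    congr 1
    ext g
    constructor
    · rintro (h | ⟨i, h⟩)
      · exact ⟨none, h.symm⟩
      · exact ⟨some i, h⟩
    · rintro ⟨o, h⟩
      cases o with
      | none => exact Or.inl h.symm
      | some i => exact Or.inr ⟨i, h⟩
  show Countable ↥(Subgroup.closure (insert v0 (Set.range fun i => q0 (xs i))))
  rw [this]
  have h2 : Countable (FreeGroup (Option (Fin 3 × Fin 4))) :=
    inferInstanceAs (Countable (Quot _))
  exact (Set.countable_range _).to_subtype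

/-! ## The models -/

/-- a lift to the big group -/
noncomputable def lf (g : TheG) : GG := Quotient.out g.1

theorem mk_lf (g : TheG) : (QuotientGroup.mk (lf g) : QQ) = g.1 := Quotient.out_eq _

/-- the size of the models -/
abbrev kk (N : ℕ) : ℕ := Fintype.card (Om N)

/-- the models -/
noncomputable def ph (N : ℕ) (g : TheG) : Matrix.unitaryGroup (Fin (kk N)) ℂ :=
  ⟨pm ((Fintype.equivFin (Om N)).permCongr ((lf g).1 N)), pm_mem _⟩

theorem hm_conj {m n : Type} [Fintype m] [DecidableEq m] [Fintype n] [DecidableEq n] (e : n ≃ m)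
    (σ τ : Equiv.Perm n) : hm (e.permCongr σ) (e.permCongr τ) = hm σ τ := by
  unfold hm
  rw [df_conj, Fintype.card_congr e]

theorem tr_hm {n : ℕ} (σ τ : Equiv.Perm (Fin n)) :
    (Matrix.trace ((pm σ - pm τ).conjTranspose * (pm σ - pm τ))).re / (n : ℝ) = 2 * hm σ τ := by
  rw [trace_pm]
  unfold hm
  rw [Fintype.card_fin]
  ring

theorem ph_mul (g h : TheG) : Tendsto (fun n : ℕ =>
    (Matrix.trace (Matrix.conjTranspose
        ((ph n (g * h)).val - (ph n g).val * (ph n h).val) *
      ((ph n (g * h)).val - (ph n g).val * (ph n h).val))).re / (kk n : ℝ))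
    atTop (𝓝 0) := by
  have h1 : ∀ n : ℕ, (Matrix.trace (Matrix.conjTranspose
        ((ph n (g * h)).val - (ph n g).val * (ph n h).val) *
      ((ph n (g * h)).val - (ph n g).val * (ph n h).val))).re / (kk n : ℝ) =
      2 * hm ((lf (g * h)).1 n) ((lf g * lf h).1 n) := by
    intro n
    have h2 : (ph n g).val * (ph n h).val =
        pm ((Fintype.equivFin (Om n)).permCongr ((lf g * lf h).1 n)) := by
      show pm _ * pm _ = _
      rw [← pm_mul]
      congr 1
      ext a
      simp [Equiv.permCongr_apply]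
    rw [h2]
    have h4 := tr_hm ((Fintype.equivFin (Om n)).permCongr ((lf (g * h)).1 n))
      ((Fintype.equivFin (Om n)).permCongr ((lf g * lf h).1 n))
    rw [hm_conj] at h4
    exact h4
  rw [funext h1]
  have h3 : (QuotientGroup.mk (lf (g * h)) : QQ) = QuotientGroup.mk (lf g * lf h) := by
    rw [QuotientGroup.mk_mul, mk_lf, mk_lf, mk_lf]; rfl
  simpa using (of_mk_eq h3).const_mul 2

/-! ## Nontriviality -/

theorem Rg_nontriv (n : ℕ) : Nontrivial (Rg n) := by
  induction n with
  | zero =>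
    have : Fact (Nat.Prime 101) := ⟨by norm_num⟩
    exact inferInstanceAs (Nontrivial (ZMod 101))
  | succ n ih =>
    have := ih
    exact inferInstanceAs (Nontrivial (Matrix (Fin 3) (Fin 3) (Rg n)))

theorem dg_inj (A : Type) [Ring A] : Function.Injective (dg A) := by
  intro g h hgh
  have h1 : (dg A g).val 0 0 = (dg A h).val 0 0 := by rw [hgh]
  apply Units.ext
  simpa [dg] using h1

theorem xs_ne (n : ℕ) : xs (0, 0) n ≠ 1 := by
  intro h
  have h1 : (xs (0, 0) n).val 0 1 = (1 : Gp n).val 0 1 := by rw [h]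
  have := Rg_nontriv n
  simp [xs, el, sR] at h1

theorem Act_ne : ∀ N j : ℕ, Act N j (xs (0, 0)) ≠ 1 := by
  intro N
  induction N with
  | zero => intro j; exact xs_ne 0
  | succ N ih =>
    intro j
    by_cases h : j = N + 1
    · simp only [Act, if_pos h]
      exact xs_ne (N + 1)
    · simp only [Act, if_neg h]
      intro h1
      exact ih j (dg_inj _ (h1.trans (map_one _).symm))

theorem PS_far (N : ℕ) : 1 / 2 ≤ hm (PS N (xs (0, 0))) 1 := by
  have h1 : Fintype.card (Om N) ≤ 2 * df (PS N (xs (0, 0))) 1 := by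
    have h2 := Finset.card_filter_add_card_filter_not (s := (Finset.univ : Finset (Om N)))
      (fun a => PS N (xs (0, 0)) a ≠ (1 : Equiv.Perm (Om N)) a)
    rw [Finset.card_univ] at h2
    have h3 : (Finset.univ.filter fun a : Om N =>
        ¬ (PS N (xs (0, 0)) a ≠ (1 : Equiv.Perm (Om N)) a)).card ≤
        (Finset.univ.filter fun a : Om N =>
          PS N (xs (0, 0)) a ≠ (1 : Equiv.Perm (Om N)) a).card := by
      apply Finset.card_le_card_of_injOn fun a => (a.1, a.2 + 1)
      · intro a ha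
        have ha := not_not.1 (Finset.mem_filter.1 (Finset.mem_coe.1 ha)).2
        apply Finset.mem_coe.2
        rw [Finset.mem_filter]
        refine ⟨Finset.mem_univ _, ?_⟩
        rw [PS_apply] at ha ⊢
        intro hb
        have e1 : (Act N a.1 (xs (0, 0))).val * a.2 = a.2 := (Prod.ext_iff.1 ha).2
        have e2 : (Act N a.1 (xs (0, 0))).val * (a.2 + 1) = a.2 + 1 := (Prod.ext_iff.1 hb).2
        rw [mul_add, e1, mul_one] at e2
        exact Act_ne N a.1 (Units.ext (add_left_cancel e2))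
      · intro a _ b _ hab
        have := Prod.ext_iff.1 hab
        exact Prod.ext this.1 (add_right_cancel this.2)
    unfold df
    omega
  unfold hm
  have h4 : (0 : ℝ) < Fintype.card (Om N) := by
    exact_mod_cast Fintype.card_pos_iff.2 ⟨((0, 0) : Om N)⟩
  rw [div_le_div_iff₀ (by norm_num) h4]
  have h5 : (Fintype.card (Om N) : ℝ) ≤ 2 * df (PS N (xs (0, 0))) 1 := by exact_mod_cast h1
  linarith

theorem lf_far : ¬ Tendsto (fun N => hm ((lf (xG (0, 0))).1 N) 1) atTop (𝓝 0) := by
  intro h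
  have h1 : Tendsto (fun N => hm (PS N (xs (0, 0))) ((lf (xG (0, 0))).1 N)) atTop (𝓝 0) :=
    of_mk_eq (a := (((fun N => PS N (xs (0, 0)) : ∀ N, Equiv.Perm (Om N)),
      (1 : Multiplicative ℤ)) : GG)) (by rw [mk_lf]; rfl)
  have h2 := h1.add h
  rw [add_zero] at h2
  have h3 : (1 / 2 : ℝ) ≤ 0 := ge_of_tendsto' h2 fun N =>
    (PS_far N).trans (hm_tri _ _ _)
  norm_num at h3

end Pool.Agent.Helper784MS
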