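import Pool.Agent.Helper784MS.G2

/-!
# The group is matricially stable and not Hilbert-Schmidt stable
-/

set_option autoImplicit false

open Filter Topology

namespace Pool.Agent.Helper784MS

/-- homomorphisms to unitary matrices are trivial on the `x i` -/
theorem rep_triv (hK : SpecK) (hH : SpecH) {m : ℕ} (ρ : TheG →* Matrix.unitaryGroup (Fin m) ℂ)
    (i : Fin 3 × Fin 4) : ρ (xG i) = 1 := by
  obtain ⟨w, hw⟩ := datG hK
  have h1 := hH (F := atTop) hw gen_top (fun _ => m) (fun _ => ρ) (fun g h => by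
    have : (ρ (g * h)).val - (ρ g).val * (ρ h).val = 0 := by
      rw [map_mul]; exact sub_self _
    simp only [this, map_zero, norm_zero]
    exact tendsto_const_nhds) i
  have h2 : ‖Matrix.toEuclideanCLM (n := Fin m) (𝕜 := ℂ) ((ρ (xG i)).val - 1)‖ = 0 :=
    tendsto_nhds_unique tendsto_const_nhds h1
  rw [norm_eq_zero] at h2
  have h3 : (ρ (xG i)).val - 1 = 0 :=
    (Matrix.toEuclideanCLM (n := Fin m) (𝕜 := ℂ)).injective (h2.trans (map_zero _).symm)
  exact Subtype.ext (sub_eq_zero.1 h3)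

theorem not_hs (hK : SpecK) (hH : SpecH) :
    ¬ ∃ ρ : ∀ n : ℕ, TheG →* Matrix.unitaryGroup (Fin (kk n)) ℂ,
      ∀ g : TheG, Tendsto (fun n : ℕ =>
        (Matrix.trace (Matrix.conjTranspose ((ph n g).val - (ρ n g).val) *
          ((ph n g).val - (ρ n g).val))).re / (kk n : ℝ)) atTop (𝓝 0) := by
  rintro ⟨ρ, hρ⟩
  have h1 := hρ (xG (0, 0))
  have h2 : ∀ n : ℕ, (Matrix.trace (Matrix.conjTranspose
      ((ph n (xG (0, 0))).val - (ρ n (xG (0, 0))).val) *
        ((ph n (xG (0, 0))).val - (ρ n (xG (0, 0))).val))).re / (kk n : ℝ) =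
      2 * hm ((lf (xG (0, 0))).1 n) 1 := by
    intro n
    have h3 : (ρ n (xG (0, 0))).val = pm (1 : Equiv.Perm (Fin (kk n))) := by
      rw [rep_triv hK hH, pm_one]; rfl
    have h4 : (1 : Equiv.Perm (Fin (kk n))) =
        (Fintype.equivFin (Om n)).permCongr (1 : Equiv.Perm (Om n)) := by
      ext a; simp [Equiv.permCongr_apply]
    have h5 := tr_hm ((Fintype.equivFin (Om n)).permCongr ((lf (xG (0, 0))).1 n))
      ((Fintype.equivFin (Om n)).permCongr (1 : Equiv.Perm (Om n)))
    rw [hm_conj, ← h4, ← h3] at h5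
    exact h5
  rw [funext h2] at h1
  apply lf_far
  have h3 := h1.const_mul (1 / 2 : ℝ)
  rw [mul_zero] at h3
  refine h3.congr fun n => ?_
  ring

end Pool.Agent.Helper784MS
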