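import Pool.Agent.Helper784MS.Spec

/-!
JOB MS-H1 (owner helper784, MP_a51306_an, frozen S05682). The two asymptotic representations attached to an operator norm
asymptotic homomorphism, and the Hilbert-Schmidt inequalities.
-/

set_option autoImplicit false

open Filter Topology

namespace Pool.Agent.Helper784MS

/-- a matrix as a vector, with the (unnormalised) Hilbert-Schmidt norm -/
noncomputable def hs {k : ℕ} (X : Matrix (Fin k) (Fin k) ℂ) : EuclideanSpace ℂ (Fin k × Fin k) :=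
  WithLp.toLp 2 (fun ij => X ij.1 ij.2)

/-- the columns -/
noncomputable def col {k : ℕ} (X : Matrix (Fin k) (Fin k) ℂ) (j : Fin k) : EuclideanSpace ℂ (Fin k) :=
  WithLp.toLp 2 (fun i => X i j)

/-- TARGET 1 -/
theorem hs_sq {k : ℕ} (X : Matrix (Fin k) (Fin k) ℂ) : ‖hs X‖ ^ 2 = ∑ j, ‖col X j‖ ^ 2 := by
  simp only [EuclideanSpace.norm_sq_eq, hs, col]
  rw [Fintype.sum_prod_type, Finset.sum_comm]

/-- TARGET 2 -/
theorem col_mul {k : ℕ} (A X : Matrix (Fin k) (Fin k) ℂ) (j : Fin k) :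
    col (A * X) j = Matrix.toEuclideanCLM (𝕜 := ℂ) A (col X j) := by
  rw [col, col, Matrix.toEuclideanCLM_toLp]
  rfl

/-- TARGET 3 -/
theorem hs_left {k : ℕ} (A X : Matrix (Fin k) (Fin k) ℂ) :
    ‖hs (A * X)‖ ≤ ‖Matrix.toEuclideanCLM (𝕜 := ℂ) A‖ * ‖hs X‖ := by
  rw [← pow_le_pow_iff_left₀ (norm_nonneg _) (by positivity) two_ne_zero, mul_pow, hs_sq, hs_sq, Finset.mul_sum]
  refine Finset.sum_le_sum fun j _ => ?_
  rw [col_mul, ← mul_pow]
  exact pow_le_pow_left₀ (norm_nonneg _) (ContinuousLinearMap.le_opNorm _ _) 2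

theorem hs_star {k : ℕ} (X : Matrix (Fin k) (Fin k) ℂ) : ‖hs X.conjTranspose‖ = ‖hs X‖ := by
  have h : ‖hs X.conjTranspose‖ ^ 2 = ‖hs X‖ ^ 2 := by
    simp only [EuclideanSpace.norm_sq_eq, hs, Matrix.conjTranspose_apply, norm_star]
    rw [Fintype.sum_prod_type, Finset.sum_comm, Fintype.sum_prod_type]
  exact (pow_left_inj₀ (norm_nonneg _) (norm_nonneg _) two_ne_zero).1 h

theorem norm_clm_star {k : ℕ} (A : Matrix (Fin k) (Fin k) ℂ) :
    ‖Matrix.toEuclideanCLM (𝕜 := ℂ) A.conjTranspose‖ = ‖Matrix.toEuclideanCLM (𝕜 := ℂ) A‖ := by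
  rw [← Matrix.star_eq_conjTranspose, map_star, ContinuousLinearMap.star_eq_adjoint]
  exact LinearIsometryEquiv.norm_map _ _

/-- TARGET 4 -/
theorem hs_right {k : ℕ} (X A : Matrix (Fin k) (Fin k) ℂ) :
    ‖hs (X * A)‖ ≤ ‖Matrix.toEuclideanCLM (𝕜 := ℂ) A‖ * ‖hs X‖ := by
  rw [← hs_star (X * A), Matrix.conjTranspose_mul, ← norm_clm_star A, ← hs_star X]
  exact hs_left _ _

theorem clm_unitary {k : ℕ} (U : Matrix.unitaryGroup (Fin k) ℂ) :
    Matrix.toEuclideanCLM (𝕜 := ℂ) U.val ∈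
      unitary (EuclideanSpace ℂ (Fin k) →L[ℂ] EuclideanSpace ℂ (Fin k)) :=
  Unitary.map_mem _ U.2

theorem clm_unitary_norm_le {k : ℕ} (U : Matrix.unitaryGroup (Fin k) ℂ) :
    ‖Matrix.toEuclideanCLM (𝕜 := ℂ) U.val‖ ≤ 1 := by
  refine ContinuousLinearMap.opNorm_le_bound _ zero_le_one fun x => ?_
  rw [one_mul]
  exact (ContinuousLinearMap.norm_map_of_mem_unitary (clm_unitary U) x).le

/-- TARGET 5 -/
theorem exists_std {F : Filter ℕ} {G : Type} [Group G] (k : ℕ → ℕ)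
    (φ : ∀ n : ℕ, G → Matrix.unitaryGroup (Fin (k n)) ℂ) (h : OpAsym F k φ) :
    ∃ R : AsRep F G (fun n => EuclideanSpace ℂ (Fin (k n))),
      ∀ n g, R.T n g = Matrix.toEuclideanCLM (𝕜 := ℂ) (φ n g).val := by
  refine ⟨⟨fun n g => Matrix.toEuclideanCLM (𝕜 := ℂ) (φ n g).val, ?_, ?_⟩, fun n g => rfl⟩
  · intro n g ξ
    exact ContinuousLinearMap.norm_map_of_mem_unitary (clm_unitary (φ n g)) ξ
  · intro g g'
    have := h g g'
    simpa only [map_sub, map_mul] using this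

/-- the inverse of `hs` -/
def uhs {k : ℕ} (v : EuclideanSpace ℂ (Fin k × Fin k)) : Matrix (Fin k) (Fin k) ℂ :=
  Matrix.of fun i j => v (i, j)

theorem uhs_hs {k : ℕ} (X : Matrix (Fin k) (Fin k) ℂ) : uhs (hs X) = X := rfl

theorem hs_uhs {k : ℕ} (v : EuclideanSpace ℂ (Fin k × Fin k)) : hs (uhs v) = v := rfl

theorem hs_add {k : ℕ} (X Y : Matrix (Fin k) (Fin k) ℂ) : hs (X + Y) = hs X + hs Y := rfl

theorem hs_sub {k : ℕ} (X Y : Matrix (Fin k) (Fin k) ℂ) : hs (X - Y) = hs X - hs Y := rfl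

theorem hs_smul {k : ℕ} (c : ℂ) (X : Matrix (Fin k) (Fin k) ℂ) : hs (c • X) = c • hs X := rfl

/-- conjugation by `U` on Hilbert-Schmidt matrices -/
noncomputable def adL {k : ℕ} (U : Matrix (Fin k) (Fin k) ℂ) :
    EuclideanSpace ℂ (Fin k × Fin k) →L[ℂ] EuclideanSpace ℂ (Fin k × Fin k) :=
  LinearMap.toContinuousLinearMap
    { toFun := fun v => hs (U * uhs v * U.conjTranspose)
      map_add' := fun v w => by
        have : uhs (v + w) = uhs v + uhs w := rfl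
        rw [this, mul_add, add_mul, hs_add]
      map_smul' := fun c v => by
        have : uhs (c • v) = c • uhs v := rfl
        rw [this, Matrix.mul_smul, Matrix.smul_mul, hs_smul]; rfl }

theorem adL_hs {k : ℕ} (U X : Matrix (Fin k) (Fin k) ℂ) : adL U (hs X) = hs (U * X * U.conjTranspose) := rfl

theorem hs_conj_le {k : ℕ} (U : Matrix.unitaryGroup (Fin k) ℂ) (X : Matrix (Fin k) (Fin k) ℂ) :
    ‖hs (U.val * X * U.val.conjTranspose)‖ ≤ ‖hs X‖ := by
  have h1 := hs_right (U.val * X) U.val.conjTranspose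
  rw [norm_clm_star] at h1
  have h2 := hs_left U.val X
  have h3 := clm_unitary_norm_le U
  have h4 := norm_nonneg (Matrix.toEuclideanCLM (𝕜 := ℂ) U.val)
  calc _ ≤ _ := h1
    _ ≤ 1 * ‖hs (U.val * X)‖ := mul_le_mul_of_nonneg_right h3 (norm_nonneg _)
    _ = ‖hs (U.val * X)‖ := one_mul _
    _ ≤ _ := h2
    _ ≤ 1 * ‖hs X‖ := mul_le_mul_of_nonneg_right h3 (norm_nonneg _)
    _ = _ := one_mul _

theorem adL_mul_sub_le {k : ℕ} (W U V : Matrix.unitaryGroup (Fin k) ℂ) :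
    ‖adL W.val - adL U.val * adL V.val‖ ≤ 2 * ‖Matrix.toEuclideanCLM (𝕜 := ℂ) (W.val - U.val * V.val)‖ := by
  refine ContinuousLinearMap.opNorm_le_bound _ (by positivity) fun v => ?_
  obtain ⟨X, rfl⟩ : ∃ X, v = hs X := ⟨uhs v, (hs_uhs v).symm⟩
  have e1 : (adL W.val - adL U.val * adL V.val) (hs X) =
      hs ((W.val - U.val * V.val) * X * W.val.conjTranspose) +
      hs ((U.val * V.val) * X * (W.val - U.val * V.val).conjTranspose) := by
    have e2 : (adL W.val - adL U.val * adL V.val) (hs X) = adL W.val (hs X) - adL U.val (adL V.val (hs X)) := rfl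
    rw [e2, adL_hs, adL_hs, adL_hs, ← hs_sub, ← hs_add]
    congr 1
    simp only [Matrix.conjTranspose_sub, Matrix.conjTranspose_mul]
    noncomm_ring
  set Z : Matrix.unitaryGroup (Fin k) ℂ := U * V with hZ
  have hZv : U.val * V.val = Z.val := rfl
  rw [e1, hZv]
  set D := W.val - Z.val with hD
  have f1 : ‖hs (D * X * W.val.conjTranspose)‖ ≤ ‖Matrix.toEuclideanCLM (𝕜 := ℂ) D‖ * ‖hs X‖ := by
    have h1 := hs_right (D * X) W.val.conjTranspose
    rw [norm_clm_star] at h1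
    calc _ ≤ _ := h1
      _ ≤ 1 * ‖hs (D * X)‖ := mul_le_mul_of_nonneg_right (clm_unitary_norm_le W) (norm_nonneg _)
      _ = ‖hs (D * X)‖ := one_mul _
      _ ≤ _ := hs_left _ _
  have f2 : ‖hs (Z.val * X * D.conjTranspose)‖ ≤ ‖Matrix.toEuclideanCLM (𝕜 := ℂ) D‖ * ‖hs X‖ := by
    have h1 := hs_right (Z.val * X) D.conjTranspose
    rw [norm_clm_star] at h1
    have h2 : ‖hs (Z.val * X)‖ ≤ ‖hs X‖ := by
      calc _ ≤ _ := hs_left _ _
        _ ≤ 1 * ‖hs X‖ := mul_le_mul_of_nonneg_right (clm_unitary_norm_le Z) (norm_nonneg _)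
        _ = _ := one_mul _
    exact h1.trans (mul_le_mul_of_nonneg_left h2 (norm_nonneg _))
  calc _ ≤ ‖hs (D * X * W.val.conjTranspose)‖ + ‖hs (Z.val * X * D.conjTranspose)‖ := norm_add_le _ _
    _ ≤ ‖Matrix.toEuclideanCLM (𝕜 := ℂ) D‖ * ‖hs X‖ + ‖Matrix.toEuclideanCLM (𝕜 := ℂ) D‖ * ‖hs X‖ := add_le_add f1 f2
    _ = _ := by ring

/-- TARGET 6 -/
theorem exists_ad {F : Filter ℕ} {G : Type} [Group G] (k : ℕ → ℕ)
    (φ : ∀ n : ℕ, G → Matrix.unitaryGroup (Fin (k n)) ℂ) (h : OpAsym F k φ) :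
    ∃ R : AsRep F G (fun n => EuclideanSpace ℂ (Fin (k n) × Fin (k n))),
      ∀ n g X, R.T n g (hs X) = hs ((φ n g).val * X * ((φ n g).val).conjTranspose) := by
  refine ⟨⟨fun n g => adL (φ n g).val, ?_, ?_⟩, fun n g X => rfl⟩
  · intro n g ξ
    obtain ⟨X, rfl⟩ : ∃ X, ξ = hs X := ⟨uhs ξ, (hs_uhs ξ).symm⟩
    rw [adL_hs]
    refine le_antisymm (hs_conj_le (φ n g) X) ?_
    have h1 := hs_conj_le (φ n g)⁻¹ ((φ n g).val * X * ((φ n g).val).conjTranspose)
    have e : ((φ n g)⁻¹).val = ((φ n g).val).conjTranspose := rfl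
    have u1 : ((φ n g).val).conjTranspose * (φ n g).val = 1 := by
      rw [← e]; exact congrArg Subtype.val (inv_mul_cancel (φ n g))
    rw [e, Matrix.conjTranspose_conjTranspose] at h1
    have e2 : ((φ n g).val).conjTranspose * ((φ n g).val * X * ((φ n g).val).conjTranspose) * (φ n g).val = X := by
      calc _ = (((φ n g).val).conjTranspose * (φ n g).val) * X * (((φ n g).val).conjTranspose * (φ n g).val) := by
            noncomm_ring
        _ = X := by rw [u1, one_mul, mul_one]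
    rw [e2] at h1
    exact h1
  · intro g g'
    have h1 := (h g g').const_mul 2
    rw [mul_zero] at h1
    exact squeeze_zero (fun n => norm_nonneg _) (fun n => adL_mul_sub_le _ _ _) h1

end Pool.Agent.Helper784MS
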