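import Pool.Agent.Helper784MS.Spec
import Pool.Agent.Helper784MS.H1

set_option autoImplicit false

open Filter Topology

namespace Pool.Agent.Helper784MS

/-! ## Auxiliary relations -/

theorem col_sub {k : ℕ} (X Y : Matrix (Fin k) (Fin k) ℂ) (j : Fin k) :
    col (X - Y) j = col X j - col Y j := rfl

/-- the operator norm -/
noncomputable def opn {k : ℕ} (X : Matrix (Fin k) (Fin k) ℂ) : ℝ :=
  ‖Matrix.toEuclideanCLM (𝕜 := ℂ) X‖

theorem opn_nonneg {k : ℕ} (X : Matrix (Fin k) (Fin k) ℂ) : 0 ≤ opn X := norm_nonneg _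

theorem opn_mul {k : ℕ} (X Y : Matrix (Fin k) (Fin k) ℂ) : opn (X * Y) ≤ opn X * opn Y := by
  unfold opn
  rw [map_mul]
  exact norm_mul_le _ _

theorem opn_add {k : ℕ} (X Y : Matrix (Fin k) (Fin k) ℂ) : opn (X + Y) ≤ opn X + opn Y := by
  unfold opn
  rw [map_add]
  exact norm_add_le _ _

theorem opn_neg {k : ℕ} (X : Matrix (Fin k) (Fin k) ℂ) : opn (-X) = opn X := by
  unfold opn
  rw [map_neg]
  exact norm_neg _

theorem opn_star {k : ℕ} (X : Matrix (Fin k) (Fin k) ℂ) : opn (star X) = opn X := by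
  unfold opn
  rw [map_star, ContinuousLinearMap.star_eq_adjoint]
  exact LinearIsometryEquiv.norm_map _ _

theorem opn_one {k : ℕ} : opn (1 : Matrix (Fin k) (Fin k) ℂ) ≤ 1 := by
  unfold opn
  rw [map_one]
  exact ContinuousLinearMap.norm_id_le

theorem opn_unitary {k : ℕ} {U : Matrix (Fin k) (Fin k) ℂ} (h : star U * U = 1) : opn U ≤ 1 := by
  have h1 : opn U * opn U ≤ 1 := by
    have h2 : opn (star U * U) = opn U * opn U := by
      unfold opn
      rw [map_mul, map_star, ContinuousLinearMap.star_eq_adjoint]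
      exact ContinuousLinearMap.norm_adjoint_comp_self _
    rw [← h2, h]
    exact opn_one
  nlinarith [opn_nonneg U]

/-- sequences of matrices -/
abbrev MM (k : ℕ → ℕ) : Type := ∀ n, Matrix (Fin (k n)) (Fin (k n)) ℂ

section rel
variable {F : Filter ℕ} {k : ℕ → ℕ}

/-- approximately equal in Hilbert-Schmidt norm, relative to `q` -/
def Ap (F : Filter ℕ) (q X Y : MM k) : Prop :=
  ∀ ε : ℝ, 0 < ε → ∀ᶠ n in F, ‖hs (X n - Y n)‖ ≤ ε * ‖hs (q n)‖

/-- approximately equal in operator norm -/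
def Oa (F : Filter ℕ) (X Y : MM k) : Prop :=
  ∀ ε : ℝ, 0 < ε → ∀ᶠ n in F, opn (X n - Y n) ≤ ε

/-- contractions -/
def Bd (X : MM k) : Prop := ∀ n, opn (X n) ≤ 1

/-- Hilbert-Schmidt norm at most that of `q` -/
def Hb (q X : MM k) : Prop := ∀ n, ‖hs (X n)‖ ≤ ‖hs (q n)‖

theorem Bd.mul {X Y : MM k} (hX : Bd X) (hY : Bd Y) : Bd (X * Y) := by
  intro n
  refine (opn_mul (X n) (Y n)).trans ?_
  have h1 := hX n
  have h2 := hY n
  nlinarith [opn_nonneg (X n), opn_nonneg (Y n)]

theorem Bd.star {X : MM k} (hX : Bd X) : Bd (star X) := by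
  intro n
  have : (Star.star X) n = Star.star (X n) := rfl
  rw [this, opn_star]
  exact hX n

theorem Hb.mulL {q A X : MM k} (hA : Bd A) (hX : Hb q X) : Hb q (A * X) := by
  intro n
  refine (hs_left (A n) (X n)).trans ?_
  have h1 : opn (A n) ≤ 1 := hA n
  unfold opn at h1
  have h2 := hX n
  nlinarith [norm_nonneg (hs (X n)), norm_nonneg (hs (q n))]

theorem Hb.mulR {q A X : MM k} (hA : Bd A) (hX : Hb q X) : Hb q (X * A) := by
  intro n
  refine (hs_right (X n) (A n)).trans ?_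
  have h1 : opn (A n) ≤ 1 := hA n
  unfold opn at h1
  have h2 := hX n
  nlinarith [norm_nonneg (hs (X n)), norm_nonneg (hs (q n))]

theorem Hb.refl (q : MM k) : Hb q q := fun _ => le_rfl

theorem Ap.refl {q X : MM k} : Ap F q X X := by
  intro ε hε
  refine Eventually.of_forall fun n => ?_
  rw [hs_sub, sub_self, norm_zero]
  positivity

theorem Ap.symm {q X Y : MM k} (h : Ap F q X Y) : Ap F q Y X := by
  intro ε hε
  filter_upwards [h ε hε] with n hn
  rw [hs_sub, norm_sub_rev, ← hs_sub]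
  exact hn

theorem Ap.trans {q X Y Z : MM k} (h : Ap F q X Y) (h' : Ap F q Y Z) : Ap F q X Z := by
  intro ε hε
  filter_upwards [h (ε / 2) (half_pos hε), h' (ε / 2) (half_pos hε)] with n hn hn'
  have h1 : hs (X n - Z n) = hs (X n - Y n) + hs (Y n - Z n) := by
    simp only [hs_sub]; abel
  rw [h1]
  refine (norm_add_le _ _).trans ?_
  linarith

theorem Oa.refl {X : MM k} : Oa F X X := by
  intro ε hε
  refine Eventually.of_forall fun n => ?_
  unfold opn
  rw [sub_self, map_zero, norm_zero]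
  exact hε.le

theorem Oa.symm {X Y : MM k} (h : Oa F X Y) : Oa F Y X := by
  intro ε hε
  filter_upwards [h ε hε] with n hn
  rw [← neg_sub, opn_neg]
  exact hn

theorem Oa.trans {X Y Z : MM k} (h : Oa F X Y) (h' : Oa F Y Z) : Oa F X Z := by
  intro ε hε
  filter_upwards [h (ε / 2) (half_pos hε), h' (ε / 2) (half_pos hε)] with n hn hn'
  have h1 : X n - Z n = (X n - Y n) + (Y n - Z n) := by abel
  rw [h1]
  refine (opn_add _ _).trans ?_
  linarith

instance {q : MM k} : Trans (Ap F q) (Ap F q) (Ap F q) := ⟨Ap.trans⟩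
instance : Trans (Oa (k := k) F) (Oa (k := k) F) (Oa (k := k) F) := ⟨Oa.trans⟩

theorem Ap.mulL {q X Y : MM k} (A : MM k) (hA : Bd A) (h : Ap F q X Y) : Ap F q (A * X) (A * Y) := by
  intro ε hε
  filter_upwards [h ε hε] with n hn
  have h1 : (A * X) n - (A * Y) n = A n * (X n - Y n) := (mul_sub _ _ _).symm
  rw [h1]
  refine (hs_left _ _).trans ?_
  have h2 : opn (A n) ≤ 1 := hA n
  unfold opn at h2
  nlinarith [norm_nonneg (hs (X n - Y n))]

theorem Ap.mulR {q X Y : MM k} (A : MM k) (hA : Bd A) (h : Ap F q X Y) : Ap F q (X * A) (Y * A) := by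
  intro ε hε
  filter_upwards [h ε hε] with n hn
  have h1 : (X * A) n - (Y * A) n = (X n - Y n) * A n := (sub_mul _ _ _).symm
  rw [h1]
  refine (hs_right _ _).trans ?_
  have h2 : opn (A n) ≤ 1 := hA n
  unfold opn at h2
  nlinarith [norm_nonneg (hs (X n - Y n))]

theorem Oa.mulL {X Y : MM k} (A : MM k) (hA : Bd A) (h : Oa F X Y) : Oa F (A * X) (A * Y) := by
  intro ε hε
  filter_upwards [h ε hε] with n hn
  have h1 : (A * X) n - (A * Y) n = A n * (X n - Y n) := (mul_sub _ _ _).symm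
  rw [h1]
  refine (opn_mul _ _).trans ?_
  have h2 : opn (A n) ≤ 1 := hA n
  nlinarith [opn_nonneg (X n - Y n)]

theorem Oa.mulR {X Y : MM k} (A : MM k) (hA : Bd A) (h : Oa F X Y) : Oa F (X * A) (Y * A) := by
  intro ε hε
  filter_upwards [h ε hε] with n hn
  have h1 : (X * A) n - (Y * A) n = (X n - Y n) * A n := (sub_mul _ _ _).symm
  rw [h1]
  refine (opn_mul _ _).trans ?_
  have h2 : opn (A n) ≤ 1 := hA n
  nlinarith [opn_nonneg (X n - Y n)]

theorem Oa.star {X Y : MM k} (h : Oa F X Y) : Oa F (star X) (star Y) := by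
  intro ε hε
  filter_upwards [h ε hε] with n hn
  have h1 : (Star.star X) n - (Star.star Y) n = Star.star (X n - Y n) := (star_sub _ _).symm
  rw [h1, opn_star]
  exact hn

theorem Oa.apL {q A B : MM k} (X : MM k) (hX : Hb q X) (h : Oa F A B) : Ap F q (A * X) (B * X) := by
  intro ε hε
  filter_upwards [h ε hε] with n hn
  have h1 : (A * X) n - (B * X) n = (A n - B n) * X n := (sub_mul _ _ _).symm
  rw [h1]
  refine (hs_left _ _).trans ?_
  have h2 := hX n
  unfold opn at hn
  exact mul_le_mul hn h2 (norm_nonneg _) hε.le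

theorem Oa.apR {q A B : MM k} (X : MM k) (hX : Hb q X) (h : Oa F A B) : Ap F q (X * A) (X * B) := by
  intro ε hε
  filter_upwards [h ε hε] with n hn
  have h1 : (X * A) n - (X * B) n = X n * (A n - B n) := (mul_sub _ _ _).symm
  rw [h1]
  refine (hs_right _ _).trans ?_
  have h2 := hX n
  unfold opn at hn
  exact mul_le_mul hn h2 (norm_nonneg _) hε.le

end rel

section main
variable {F : Filter ℕ} {G : Type} [Group G] {k : ℕ → ℕ}
  {φ : ∀ n : ℕ, G → Matrix.unitaryGroup (Fin (k n)) ℂ}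

/-- the matrices of `φ g` -/
def um (φ : ∀ n : ℕ, G → Matrix.unitaryGroup (Fin (k n)) ℂ) (g : G) : MM k :=
  fun n => (φ n g).val

omit [Group G] in
theorem um_star_mul (g : G) : star (um φ g) * um φ g = 1 := by
  funext n
  exact Unitary.star_mul_self_of_mem (φ n g).2

omit [Group G] in
theorem um_mul_star (g : G) : um φ g * star (um φ g) = 1 := by
  funext n
  exact Unitary.mul_star_self_of_mem (φ n g).2

omit [Group G] in
theorem um_bd (g : G) : Bd (um φ g) :=
  fun n => opn_unitary (Unitary.star_mul_self_of_mem (φ n g).2)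

theorem um_mul (h : OpAsym F k φ) (g g' : G) : Oa F (um φ (g * g')) (um φ g * um φ g') := by
  intro ε hε
  filter_upwards [(h g g').eventually (gt_mem_nhds hε)] with n hn
  exact hn.le

theorem um_one (h : OpAsym F k φ) : Oa F (um φ (1 : G)) 1 := by
  have h1 := um_mul h 1 1
  rw [mul_one] at h1
  have h2 := h1.mulL (star (um φ 1)) (um_bd 1).star
  rw [um_star_mul, ← mul_assoc, um_star_mul, one_mul] at h2
  exact h2.symm

theorem um_inv' (h : OpAsym F k φ) (g : G) : Oa F (um φ g * um φ g⁻¹) 1 := by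
  refine (um_mul h g g⁻¹).symm.trans ?_
  rw [mul_inv_cancel]
  exact um_one h

theorem um_inv (h : OpAsym F k φ) (g : G) : Oa F (um φ g⁻¹) (star (um φ g)) := by
  have h2 := (um_inv' h g).mulL (star (um φ g)) (um_bd g).star
  rw [← mul_assoc, um_star_mul, one_mul, mul_one] at h2
  exact h2

theorem Ap.of_sub {q X Y : MM k} (h : Ap F q (X - Y) 0) : Ap F q X Y := by
  intro ε hε
  filter_upwards [h ε hε] with n hn
  have h1 : (X - Y) n - (0 : MM k) n = X n - Y n := sub_zero _
  rwa [h1] at hn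

theorem q_comm (h : OpAsym F k φ) {q : MM k} (hq : q * q = q) (hs : star q = q) (hqb : Bd q)
    (hrb : Bd (1 - q)) (inv : ∀ g, Oa F (q * um φ g * (1 - q)) 0) (g : G) :
    Ap F q (um φ g * q) (q * um φ g) := by
  have e1 : Ap F q (q * um φ g) (q * um φ g * q) := by
    apply Ap.of_sub
    have h1 := (inv g).apR q (Hb.refl q)
    have h2 : q * (q * um φ g * (1 - q)) = q * um φ g - q * um φ g * q := by
      rw [mul_sub, mul_sub, mul_one, ← mul_assoc, ← mul_assoc, ← mul_assoc, hq]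
    rwa [h2, mul_zero] at h1
  have e2 : Oa F ((1 - q) * um φ g * q) 0 := by
    have h1 := (inv g⁻¹).star
    have h2 : star (q * um φ g⁻¹ * (1 - q)) = (1 - q) * (star (um φ g⁻¹) * q) := by
      rw [star_mul, star_mul, star_sub, star_one, hs]
    rw [h2, star_zero] at h1
    have h3 := (um_inv h g⁻¹).symm
    rw [inv_inv] at h3
    have h4 := ((h3.mulR q hqb).mulL (1 - q) hrb).symm.trans h1
    rwa [← mul_assoc] at h4
  have e3 : Ap F q (um φ g * q) (q * um φ g * q) := by
    apply Ap.of_sub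
    have h1 := e2.apL q (Hb.refl q)
    have h2 : (1 - q) * um φ g * q * q = um φ g * q - q * um φ g * q := by
      rw [mul_assoc, hq, sub_mul, one_mul, sub_mul]
    rwa [h2, zero_mul] at h1
  exact e3.trans e1.symm

omit [Group G] in
theorem q_comm_star {q : MM k} (hc : ∀ g, Ap F q (um φ g * q) (q * um φ g)) (g : G) :
    Ap F q (star (um φ g) * q) (q * star (um φ g)) := by
  have h1 := ((hc g).mulL (star (um φ g)) (um_bd g).star).mulR (star (um φ g)) (um_bd g).star
  have h2 : star (um φ g) * (um φ g * q) * star (um φ g) = q * star (um φ g) := by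
    rw [← mul_assoc, um_star_mul, one_mul]
  have h3 : star (um φ g) * (q * um φ g) * star (um φ g) = star (um φ g) * q := by
    rw [mul_assoc, mul_assoc, um_mul_star, mul_one]
  rw [h2, h3] at h1
  exact h1.symm

/-- the subgroup of elements asymptotically trivial on `q` -/
def N0 (h : OpAsym F k φ) (q : MM k) : Subgroup G where
  carrier := {g | Ap F q (um φ g * q) q}
  one_mem' := by
    have h1 := (um_one h).apL q (Hb.refl q)
    rwa [one_mul] at h1
  mul_mem' := by
    intro a b ha hb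
    have h1 := (um_mul h a b).apL q (Hb.refl q)
    have h2 := Ap.mulL (um φ a) (um_bd a) hb
    rw [← mul_assoc] at h2
    exact (h1.trans h2).trans ha
  inv_mem' := by
    intro a ha
    have h1 := (um_inv h a).apL q (Hb.refl q)
    have h2 := Ap.mulL (star (um φ a)) (um_bd a).star ha
    rw [← mul_assoc, um_star_mul, one_mul] at h2
    exact h1.trans h2.symm

theorem mem_N0 (h : OpAsym F k φ) (q : MM k) (g : G) : g ∈ N0 h q ↔ Ap F q (um φ g * q) q := Iff.rfl

theorem N0_normal (h : OpAsym F k φ) {q : MM k} (hc : ∀ g, Ap F q (um φ g * q) (q * um φ g)) :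
    (N0 h q).Normal := by
  constructor
  intro a ha g
  rw [mem_N0] at ha ⊢
  have h1 : Oa F (um φ (g * a * g⁻¹)) (um φ g * um φ a * star (um φ g)) := by
    refine (um_mul h (g * a) g⁻¹).trans ?_
    refine ((um_mul h g a).mulR _ (um_bd g⁻¹)).trans ?_
    exact (um_inv h g).mulL _ ((um_bd g).mul (um_bd a))
  refine (h1.apL q (Hb.refl q)).trans ?_
  have h2 := (q_comm_star hc g).mulL (um φ g * um φ a) ((um_bd g).mul (um_bd a))
  rw [← mul_assoc] at h2
  refine h2.trans ?_
  have h3 := (ha.mulL (um φ g) (um_bd g)).mulR (star (um φ g)) (um_bd g).star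
  have h4 : um φ g * (um φ a * q) * star (um φ g) = um φ g * um φ a * (q * star (um φ g)) := by
    simp only [mul_assoc]
  rw [h4] at h3
  refine h3.trans ?_
  have h5 := (hc g).mulR (star (um φ g)) (um_bd g).star
  rwa [mul_assoc q, um_mul_star, mul_one] at h5

theorem conj_congr {q A B X : MM k} (h : Oa F A B) (hA : Bd A) (hB : Bd B) (hX : Hb q X) :
    Ap F q (A * X * star A) (B * X * star B) := by
  have h1 := h.apL (X * star A) (hX.mulR hA.star)
  have h2 := h.star.apR (B * X) (hX.mulL hB)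
  rw [← mul_assoc, ← mul_assoc] at h1
  exact h1.trans h2

theorem step4 {I : Type} [Fintype I] {x : I → G} {v w : G} {p D : ℕ} (hD : Dat x v w p D)
    (N : Subgroup G) [N.Normal]
    (h : ∀ l, (∀ i, Commute l (v * x i * v⁻¹)) → ∀ k' ∈ Subgroup.closure (Set.range x),
      l⁻¹ * k' * l * k'⁻¹ ∈ N) : Subgroup.closure (Set.range x) ≤ N := by
  refine hD.perfect.trans (Subgroup.commutator_le.2 ?_)
  intro a ha b hb
  have hl : ∀ k' ∈ Subgroup.closure (Set.range x),
      Commute (w * (v * a * v⁻¹) * w⁻¹) (v * k' * v⁻¹) := hD.comm a ha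
  have h1 := h _ (fun i => hl _ (Subgroup.subset_closure (Set.mem_range_self i))) w⁻¹
    (inv_mem hD.wmem)
  have h2 : (w * (v * a * v⁻¹) * w⁻¹)⁻¹ * (v * a * v⁻¹) ∈ N := by
    convert h1 using 1
    group
  have h3 : ((w * (v * a * v⁻¹) * w⁻¹ : G) : G ⧸ N) = ((v * a * v⁻¹ : G) : G ⧸ N) :=
    QuotientGroup.eq.2 h2
  have h4 : Commute ((v * a * v⁻¹ : G) : G ⧸ N) ((v * b * v⁻¹ : G) : G ⧸ N) := by
    rw [← h3]
    exact (hl b hb).map (QuotientGroup.mk' N)
  have h5 : v * (a * b * a⁻¹ * b⁻¹) * v⁻¹ ∈ N := by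
    rw [← QuotientGroup.eq_one_iff]
    have h6 : v * (a * b * a⁻¹ * b⁻¹) * v⁻¹ =
        (v * a * v⁻¹) * (v * b * v⁻¹) * (v * a * v⁻¹)⁻¹ * (v * b * v⁻¹)⁻¹ := by
      group
    rw [h6, QuotientGroup.mk_mul, QuotientGroup.mk_mul, QuotientGroup.mk_mul, h4.eq,
      QuotientGroup.mk_inv, QuotientGroup.mk_inv, mul_inv_cancel_right, mul_inv_cancel]
  have h7 := Subgroup.Normal.conj_mem inferInstance _ h5 v⁻¹
  have h8 : v⁻¹ * (v * (a * b * a⁻¹ * b⁻¹) * v⁻¹) * v⁻¹⁻¹ = a * b * a⁻¹ * b⁻¹ := by group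
  rw [h8] at h7
  exact h7


theorem step3a {I : Type} [Fintype I] {x : I → G} {v : G} (h : OpAsym F k φ) {q : MM k}
    (hc : ∀ g, Ap F q (um φ g * q) (q * um φ g))
    {l : G} (hl : ∀ i, Commute l (v * x i * v⁻¹)) (i : I) :
    Ap F q (um φ (v * x i * v⁻¹) * (um φ l * q) * star (um φ (v * x i * v⁻¹))) (um φ l * q) := by
  set y := v * x i * v⁻¹ with hy
  have hcy : l * y = y * l := (hl i).eq
  have e1 : Oa F (um φ y * um φ l) (um φ l * um φ y) := by
    refine (um_mul h y l).symm.trans ?_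
    rw [← hcy]
    exact um_mul h l y
  have e2 := e1.apL (q * star (um φ y)) ((Hb.refl q).mulR (um_bd y).star)
  have e3 := ((hc y).mulR (star (um φ y)) (um_bd y).star).mulL (um φ l) (um_bd l)
  have e4 : um φ y * um φ l * (q * star (um φ y)) = um φ y * (um φ l * q) * star (um φ y) := by
    simp only [mul_assoc]
  have e5 : um φ l * um φ y * (q * star (um φ y)) = um φ l * (um φ y * q * star (um φ y)) := by
    simp only [mul_assoc]
  have e6 : um φ l * (q * um φ y * star (um φ y)) = um φ l * q := by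
    rw [mul_assoc q, um_mul_star, mul_one]
  rw [e4, e5] at e2
  rw [e6] at e3
  exact e2.trans e3

theorem step3b {I : Type} [Fintype I] {x : I → G} {v : G} (h : OpAsym F k φ) {q : MM k}
    (hc : ∀ g, Ap F q (um φ g * q) (q * um φ g))
    {l : G} (hl : ∀ i, Commute l (v * x i * v⁻¹)) (i : I) :
    Ap F q (um φ (x i) * (um φ v⁻¹ * (um φ l * q) * star (um φ v⁻¹)) * star (um φ (x i)))
      (um φ v⁻¹ * (um φ l * q) * star (um φ v⁻¹)) := by
  have hb : Hb q (um φ l * q) := (Hb.refl q).mulL (um_bd l)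
  have e1 : Oa F (um φ (x i) * um φ v⁻¹) (um φ v⁻¹ * um φ (v * x i * v⁻¹)) := by
    refine (um_mul h (x i) v⁻¹).symm.trans ?_
    have : x i * v⁻¹ = v⁻¹ * (v * x i * v⁻¹) := by group
    rw [this]
    exact um_mul h v⁻¹ _
  have e2 := conj_congr e1 ((um_bd _).mul (um_bd _)) ((um_bd _).mul (um_bd _)) hb
  have e3 := ((step3a h hc hl i).mulL (um φ v⁻¹) (um_bd _)).mulR (star (um φ v⁻¹)) (um_bd _).star
  have e4 : um φ (x i) * um φ v⁻¹ * (um φ l * q) * star (um φ (x i) * um φ v⁻¹) =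
      um φ (x i) * (um φ v⁻¹ * (um φ l * q) * star (um φ v⁻¹)) * star (um φ (x i)) := by
    rw [star_mul]
    simp only [mul_assoc]
  have e5 : um φ v⁻¹ * um φ (v * x i * v⁻¹) * (um φ l * q) *
      star (um φ v⁻¹ * um φ (v * x i * v⁻¹)) = um φ v⁻¹ * (um φ (v * x i * v⁻¹) * (um φ l * q) *
        star (um φ (v * x i * v⁻¹))) * star (um φ v⁻¹) := by
    rw [star_mul]
    simp only [mul_assoc]
  rw [e4, e5] at e2
  exact e2.trans e3

theorem step3c {v : G} (h : OpAsym F k φ) {q b : MM k} (hb : Hb q b) :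
    Ap F q (um φ v * (um φ v⁻¹ * b * star (um φ v⁻¹)) * star (um φ v)) b := by
  have e2 := conj_congr (um_inv' h v) ((um_bd _).mul (um_bd _)) (fun n => opn_one) hb
  have e4 : um φ v * um φ v⁻¹ * b * star (um φ v * um φ v⁻¹) =
      um φ v * (um φ v⁻¹ * b * star (um φ v⁻¹)) * star (um φ v) := by
    rw [star_mul]
    simp only [mul_assoc]
  rw [e4, one_mul, star_one, mul_one] at e2
  exact e2

theorem step3d {I : Type} [Fintype I] {x : I → G} {v w : G} {p D : ℕ} (hD : Dat x v w p D)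
    (hV : SpecV) (h : OpAsym F k φ) {q : MM k}
    (hc : ∀ g, Ap F q (um φ g * q) (q * um φ g))
    (R : AsRep F G (fun n => EuclideanSpace ℂ (Fin (k n) × Fin (k n))))
    (hR : ∀ n g X, R.T n g (hs X) = hs ((φ n g).val * X * ((φ n g).val).conjTranspose))
    {A : ∀ n, Submodule ℂ (EuclideanSpace ℂ (Fin (k n) × Fin (k n)))} (hA : Near R x A)
    {l : G} (hl : ∀ i, Commute l (v * x i * v⁻¹))
    {k' : G} (hk' : k' ∈ Subgroup.closure (Set.range x)) :
    Ap F q (um φ k' * (um φ l * q) * star (um φ k')) (um φ l * q) := by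
  have hR' : ∀ n g (X : MM k), R.T n g (hs (X n)) = hs ((um φ g * X * star (um φ g)) n) :=
    fun n g X => hR n g (X n)
  obtain ⟨hV1, hV2⟩ := hV R hD A hA
  have hb : Hb q (um φ l * q) := (Hb.refl q).mulL (um_bd l)
  have h3 := fun i => step3b (x := x) (v := v) h hc hl i
  have h4 := step3c (v := v) h hb
  set b : MM k := um φ l * q with hbdef
  have hcb : Hb q (um φ v⁻¹ * b * star (um φ v⁻¹)) := (hb.mulL (um_bd _)).mulR (um_bd _).star
  set c : MM k := um φ v⁻¹ * b * star (um φ v⁻¹) with hcdef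
  obtain ⟨c0, hc0, hgap⟩ := hA.gap
  -- `hs c` is close to `A`
  have h5 : ∀ ε : ℝ, 0 < ε → ∀ᶠ n in F,
      ‖hs (c n) - (A n).starProjection (hs (c n))‖ ≤ ε * ‖hs (q n)‖ := by
    intro ε hε
    have hδ : 0 < c0 * ε / (Fintype.card I + 1) := by positivity
    filter_upwards [hgap _ hδ, eventually_all.2 fun i => h3 i _ hδ] with n hn hn'
    have e1 := hn (hs (c n))
    have e2 : ∀ i, ‖R.T n (x i) (hs (c n)) - hs (c n)‖ ≤
        c0 * ε / (Fintype.card I + 1) * ‖hs (q n)‖ := by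
      intro i
      rw [hR', ← hs_sub]
      exact hn' i
    have e3 : ∑ i, ‖R.T n (x i) (hs (c n)) - hs (c n)‖ ≤
        Fintype.card I * (c0 * ε / (Fintype.card I + 1) * ‖hs (q n)‖) := by
      refine (Finset.sum_le_card_nsmul _ _ _ fun i _ => e2 i).trans_eq ?_
      rw [nsmul_eq_mul, Finset.card_univ]
    have e4 : c0 * ε / (Fintype.card I + 1) * ‖hs (c n)‖ ≤
        c0 * ε / (Fintype.card I + 1) * ‖hs (q n)‖ := mul_le_mul_of_nonneg_left (hcb n) hδ.le
    have e5 : Fintype.card I * (c0 * ε / (Fintype.card I + 1) * ‖hs (q n)‖) +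
        c0 * ε / (Fintype.card I + 1) * ‖hs (q n)‖ = c0 * (ε * ‖hs (q n)‖) := by
      field_simp
    have e6 : c0 * ‖hs (c n) - (A n).starProjection (hs (c n))‖ ≤ c0 * (ε * ‖hs (q n)‖) := by
      linarith
    exact le_of_mul_le_mul_left e6 hc0
  intro ε hε
  have hε8 : 0 < ε / 8 := by positivity
  have hvm : v ∈ Subgroup.closure (insert v (Set.range x)) :=
    Subgroup.subset_closure (Set.mem_insert _ _)
  filter_upwards [h5 _ hε8, h4 _ hε8, hV2 v hvm _ hε8, hV1 k' hk' _ hε8] with n n1 n2 n3 n4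
  set a1 := (A n).starProjection (hs (c n)) with ha1
  have ha1m : a1 ∈ A n := Submodule.starProjection_apply_mem _ _
  set a2 := (A n).starProjection (R.T n v a1) with ha2
  have ha2m : a2 ∈ A n := Submodule.starProjection_apply_mem _ _
  have hq0 : 0 ≤ ‖hs (q n)‖ := norm_nonneg _
  have na1 : ‖a1‖ ≤ ‖hs (q n)‖ :=
    (Submodule.norm_starProjection_apply_le _ _).trans (hcb n)
  have na2 : ‖a2‖ ≤ ‖hs (q n)‖ := by
    refine (Submodule.norm_starProjection_apply_le _ _).trans ?_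
    rw [R.iso]
    exact na1
  have m1 : ‖R.T n v a1 - a2‖ ≤ ε / 8 * ‖hs (q n)‖ :=
    (n3 a1 ha1m).trans (mul_le_mul_of_nonneg_left na1 hε8.le)
  have m2 : ‖R.T n v (hs (c n)) - R.T n v a1‖ ≤ ε / 8 * ‖hs (q n)‖ := by
    rw [← map_sub, R.iso]
    exact n1
  have m3 : ‖R.T n v (hs (c n)) - hs (b n)‖ ≤ ε / 8 * ‖hs (q n)‖ := by
    rw [hR', ← hs_sub]
    exact n2
  have m4 : ‖hs (b n) - a2‖ ≤ 3 * (ε / 8 * ‖hs (q n)‖) := by
    have : hs (b n) - a2 = -(R.T n v (hs (c n)) - hs (b n)) +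
        (R.T n v (hs (c n)) - R.T n v a1) + (R.T n v a1 - a2) := by abel
    rw [this]
    refine (norm_add₃_le).trans ?_
    rw [norm_neg]
    linarith
  have m5 : ‖R.T n k' a2 - a2‖ ≤ ε / 8 * ‖hs (q n)‖ :=
    (n4 a2 ha2m).trans (mul_le_mul_of_nonneg_left na2 hε8.le)
  rw [hs_sub, ← hR']
  have m6 : R.T n k' (hs (b n)) - hs (b n) =
      R.T n k' (hs (b n) - a2) + (R.T n k' a2 - a2) + -(hs (b n) - a2) := by
    rw [map_sub]; abel
  rw [m6]
  refine (norm_add₃_le).trans ?_
  rw [norm_neg, R.iso]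
  have m7 : 0 ≤ ε * ‖hs (q n)‖ := by positivity
  linarith

theorem step3 {I : Type} [Fintype I] {x : I → G} {v w : G} {p D : ℕ} (hD : Dat x v w p D)
    (hV : SpecV) (h : OpAsym F k φ) {q : MM k}
    (hc : ∀ g, Ap F q (um φ g * q) (q * um φ g))
    (R : AsRep F G (fun n => EuclideanSpace ℂ (Fin (k n) × Fin (k n))))
    (hR : ∀ n g X, R.T n g (hs X) = hs ((φ n g).val * X * ((φ n g).val).conjTranspose))
    {A : ∀ n, Submodule ℂ (EuclideanSpace ℂ (Fin (k n) × Fin (k n)))} (hA : Near R x A)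
    {l : G} (hl : ∀ i, Commute l (v * x i * v⁻¹))
    {k' : G} (hk' : k' ∈ Subgroup.closure (Set.range x)) :
    l⁻¹ * k' * l * k'⁻¹ ∈ N0 h q := by
  rw [mem_N0]
  have e1 : Oa F (um φ (l⁻¹ * k' * l * k'⁻¹)) (star (um φ l) * um φ k' * um φ l * star (um φ k')) := by
    refine (um_mul h (l⁻¹ * k' * l) k'⁻¹).trans ?_
    refine ((um_mul h (l⁻¹ * k') l).mulR _ (um_bd _)).trans ?_
    refine (((um_mul h l⁻¹ k').mulR _ (um_bd _)).mulR _ (um_bd _)).trans ?_
    refine ((((um_inv h l).mulR _ (um_bd _)).mulR _ (um_bd _)).mulR _ (um_bd _)).trans ?_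
    exact (um_inv h k').mulL _ (((um_bd _).star.mul (um_bd _)).mul (um_bd _))
  refine (e1.apL q (Hb.refl q)).trans ?_
  have e2 := (q_comm_star hc k').mulL (star (um φ l) * um φ k' * um φ l)
    (((um_bd _).star.mul (um_bd _)).mul (um_bd _))
  rw [← mul_assoc] at e2
  refine e2.trans ?_
  have e3 := (step3d hD hV h hc R hR hA hl hk').mulL (star (um φ l)) (um_bd l).star
  have e4 : star (um φ l) * (um φ k' * (um φ l * q) * star (um φ k')) =
      star (um φ l) * um φ k' * um φ l * (q * star (um φ k')) := by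
    simp only [mul_assoc]
  have e5 : star (um φ l) * (um φ l * q) = q := by
    rw [← mul_assoc, um_star_mul, one_mul]
  rw [e4, e5] at e3
  exact e3

end main

theorem proj_facts {m : ℕ} (K : Submodule ℂ (EuclideanSpace ℂ (Fin m))) :
    ∃ q : Matrix (Fin m) (Fin m) ℂ, Matrix.toEuclideanCLM (𝕜 := ℂ) q = Kᗮ.starProjection ∧
      Matrix.toEuclideanCLM (𝕜 := ℂ) (1 - q) = K.starProjection ∧ q * q = q ∧ star q = q ∧
      opn q ≤ 1 ∧ opn (1 - q) ≤ 1 := by
  have hinj : ∀ (X Y : Matrix (Fin m) (Fin m) ℂ), Matrix.toEuclideanCLM (𝕜 := ℂ) X =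
      Matrix.toEuclideanCLM (𝕜 := ℂ) Y → X = Y := by
    intro X Y hXY
    exact EquivLike.injective _ hXY
  obtain ⟨q, hq⟩ : ∃ q : Matrix (Fin m) (Fin m) ℂ,
      Matrix.toEuclideanCLM (𝕜 := ℂ) q = Kᗮ.starProjection :=
    ⟨(Matrix.toEuclideanCLM (𝕜 := ℂ)).symm (Kᗮ.starProjection), StarAlgEquiv.apply_symm_apply _ _⟩
  have hr : Matrix.toEuclideanCLM (𝕜 := ℂ) (1 - q) = K.starProjection := by
    rw [map_sub, map_one, hq, Submodule.starProjection_orthogonal]
    ext1 ξ
    simp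
  refine ⟨q, hq, hr, ?_, ?_, ?_, ?_⟩
  · apply hinj
    rw [map_mul, hq]
    exact Kᗮ.isIdempotentElem_starProjection
  · apply hinj
    rw [map_star, hq]
    exact isSelfAdjoint_starProjection Kᗮ
  · unfold opn
    rw [hq]
    exact Kᗮ.starProjection_norm_le
  · unfold opn
    rw [hr]
    exact K.starProjection_norm_le

theorem inv_fact {m : ℕ} (K : Submodule ℂ (EuclideanSpace ℂ (Fin m)))
    (q U : Matrix (Fin m) (Fin m) ℂ) (hq : Matrix.toEuclideanCLM (𝕜 := ℂ) q = Kᗮ.starProjection)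
    (hr : Matrix.toEuclideanCLM (𝕜 := ℂ) (1 - q) = K.starProjection) {ε : ℝ} (hε : 0 ≤ ε)
    (h : ∀ a ∈ K, ‖Matrix.toEuclideanCLM (𝕜 := ℂ) U a -
      K.starProjection (Matrix.toEuclideanCLM (𝕜 := ℂ) U a)‖ ≤ ε * ‖a‖) :
    opn (q * U * (1 - q)) ≤ ε := by
  unfold opn
  refine ContinuousLinearMap.opNorm_le_bound _ hε fun ξ => ?_
  rw [map_mul, map_mul, hq, hr]
  have h1 := h _ (Submodule.starProjection_apply_mem K ξ)
  have h2 : (Kᗮ.starProjection * Matrix.toEuclideanCLM (𝕜 := ℂ) U * K.starProjection) ξ =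
      Matrix.toEuclideanCLM (𝕜 := ℂ) U (K.starProjection ξ) -
        K.starProjection (Matrix.toEuclideanCLM (𝕜 := ℂ) U (K.starProjection ξ)) := by
    rw [Submodule.starProjection_orthogonal]
    rfl
  rw [h2]
  exact h1.trans (mul_le_mul_of_nonneg_left (Submodule.norm_starProjection_apply_le _ _) hε)

/-- TARGET -/
theorem specH_of (hA : SpecA) (hV : SpecV) : SpecH := by
  intro F G I _ _ x v w p D hD hgen k φ h
  obtain ⟨R₀, hR₀⟩ := exists_std k φ h
  obtain ⟨R, hR⟩ := exists_ad k φ h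
  obtain ⟨A₀, hA₀⟩ : ∃ A₀ : ∀ n, Submodule ℂ (EuclideanSpace ℂ (Fin (k n))), Near R₀ x A₀ :=
    hA R₀ hD
  obtain ⟨A, hAA⟩ := hA R hD
  obtain ⟨hV1, hV2⟩ := hV R₀ hD A₀ hA₀
  -- the projections
  choose q hqE hrE hqq' hqs' hqb hrb' using fun n => proj_facts (A₀ n)
  have hqq : q * q = q := funext hqq'
  have hqs : star q = q := funext hqs'
  have hrb : Bd (1 - q) := hrb'
  have hinv : ∀ g, Oa F (q * um φ g * (1 - q)) 0 := by
    intro g ε hε
    have hg : g ∈ Subgroup.closure (insert v (Set.range x)) := by rw [hgen]; trivial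
    refine (hV2 g hg ε hε).mono fun n hn => ?_
    have h1 : (q * um φ g * (1 - q)) n - (0 : MM k) n = q n * (φ n g).val * (1 - q n) := sub_zero _
    rw [h1]
    refine inv_fact (A₀ n) (q n) _ (hqE n) (hrE n) hε.le fun a ha => ?_
    rw [← hR₀]
    exact hn a ha
  have hc : ∀ g, Ap F q (um φ g * q) (q * um φ g) := q_comm h hqq hqs hqb hrb hinv
  have hN : (N0 h q).Normal := N0_normal h hc
  have hK : Subgroup.closure (Set.range x) ≤ N0 h q :=
    step4 hD (N0 h q) fun l hl k' hk' => step3 hD hV h hc R hR hAA hl hk'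
  have hx : ∀ i, Ap F q (um φ (x i) * q) q := fun i =>
    hK (Subgroup.subset_closure (Set.mem_range_self i))
  -- eventually `A₀ n = ⊤`
  have htop : ∀ᶠ n in F, A₀ n = ⊤ := by
    obtain ⟨c, hc0, hgap⟩ := hA₀.gap
    have hε : 0 < c / 2 / (Fintype.card I + 1) := by positivity
    filter_upwards [hgap (c / 2) (by positivity), eventually_all.2 fun i => hx i _ hε] with n h1 h2
    set ε := c / 2 / (Fintype.card I + 1) with hεdef
    -- columns
    have hcol : ∀ j, (A₀ n).starProjection (col (q n) j) = 0 := by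
      intro j
      rw [← hrE, ← col_mul]
      have : (1 - q n) * q n = 0 := by
        have h3 : q n * q n = q n := congrFun hqq n
        rw [sub_mul, one_mul, h3, sub_self]
      rw [this]
      rfl
    have h4 : ∀ j, c / 2 * ‖col (q n) j‖ ≤ ∑ i, ‖col ((φ n (x i)).val * q n - q n) j‖ := by
      intro j
      have h5 := h1 (col (q n) j)
      rw [hcol, sub_zero] at h5
      have h6 : ∀ i, R₀.T n (x i) (col (q n) j) - col (q n) j =
          col ((φ n (x i)).val * q n - q n) j := by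
        intro i
        rw [col_sub, col_mul, hR₀]
      simp only [h6] at h5
      linarith
    have h7 : (c / 2) ^ 2 * ‖hs (q n)‖ ^ 2 ≤
        Fintype.card I * ∑ i, ‖hs ((φ n (x i)).val * q n - q n)‖ ^ 2 := by
      simp only [hs_sq]
      rw [Finset.mul_sum, Finset.sum_comm, Finset.mul_sum]
      refine Finset.sum_le_sum fun j _ => ?_
      rw [← mul_pow]
      refine (pow_le_pow_left₀ (by positivity) (h4 j) 2).trans ?_
      have := sq_sum_le_card_mul_sum_sq (s := (Finset.univ : Finset I))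
        (f := fun i => ‖col ((φ n (x i)).val * q n - q n) j‖)
      rwa [Finset.card_univ] at this
    have h8 : ∑ i, ‖hs ((φ n (x i)).val * q n - q n)‖ ^ 2 ≤
        Fintype.card I * (ε ^ 2 * ‖hs (q n)‖ ^ 2) := by
      have : ∀ i ∈ (Finset.univ : Finset I), ‖hs ((φ n (x i)).val * q n - q n)‖ ^ 2 ≤
          ε ^ 2 * ‖hs (q n)‖ ^ 2 := by
        intro i _
        rw [← mul_pow]
        exact pow_le_pow_left₀ (norm_nonneg _) (h2 i) 2
      refine (Finset.sum_le_card_nsmul _ _ _ this).trans_eq ?_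
      rw [nsmul_eq_mul, Finset.card_univ]
    have h9 : (c / 2) ^ 2 * ‖hs (q n)‖ ^ 2 ≤
        (Fintype.card I * ε) ^ 2 * ‖hs (q n)‖ ^ 2 := by
      refine h7.trans ((mul_le_mul_of_nonneg_left h8 (by positivity)).trans_eq ?_)
      ring
    have h10 : (Fintype.card I * ε) < c / 2 := by
      rw [hεdef]
      have hI : (0 : ℝ) ≤ Fintype.card I := by positivity
      rw [mul_div_assoc', div_lt_iff₀ (by positivity)]
      nlinarith
    have h11 : ‖hs (q n)‖ = 0 := by
      by_contra hne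
      have h12 : 0 < ‖hs (q n)‖ ^ 2 := by positivity
      have h13 := le_of_mul_le_mul_right h9 h12
      have h14 : (Fintype.card I * ε) ^ 2 < (c / 2) ^ 2 :=
        pow_lt_pow_left₀ h10 (by positivity) two_ne_zero
      linarith
    have h15 : q n = 0 := by
      have h16 : hs (q n) = 0 := norm_eq_zero.1 h11
      ext i j
      have h17 := congrArg (fun f => f.ofLp (i, j)) h16
      exact h17
    have h18 : (A₀ n)ᗮ.starProjection = 0 := by rw [← hqE, h15, map_zero]
    rw [← Submodule.orthogonal_eq_bot_iff, Submodule.eq_bot_iff]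
    intro y hy
    have h19 := Submodule.starProjection_eq_self_iff.2 hy
    rw [h18] at h19
    exact h19.symm
  intro i
  rw [Metric.tendsto_nhds]
  intro ε hε
  filter_upwards [htop, hA₀.fix i (ε / 2) (half_pos hε)] with n hn hn'
  rw [Real.dist_eq, sub_zero, abs_of_nonneg (norm_nonneg _)]
  refine lt_of_le_of_lt ?_ (half_lt_self hε)
  refine ContinuousLinearMap.opNorm_le_bound _ (half_pos hε).le fun ξ => ?_
  have h1 := hn' ξ (by rw [hn]; trivial)
  rw [hR₀] at h1
  rw [map_sub, map_one]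
  exact h1

end Pool.Agent.Helper784MS
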