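import Pool.Agent.Helper784MS.Spec

/-!
JOB MS-K (owner helper784, MP_a51306_an, frozen S05682). Algebra in `Ps = ∏ n, GL_3(R n)`. `Spec.lean` is on origin/main in
Pool/Agent/Helper784MS/ (definitions Rg, el, dg, io, cR, eR, zR, sR, xs).

PROOF. Let 𝓜 = ∀ n, Rg n (a ring). For a ≠ b in Fin 3 and r : 𝓜 let E(a,b,r) : Ps be n ↦ 1 + r n E_ab (a unit with inverse 1 - r n E_ab).
xs (a,t) = E(a, a+1, s_t), s_0 = 1, s_1 = c, s_2 = e, s_3 = z. Identities (levelwise, all rings noncommutative):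
E(a,b,r)E(a,b,s) = E(a,b,r+s); for a,b,c distinct [E(a,b,r), E(b,c,s)] = E(a,c,rs) (commutator g h g⁻¹ h⁻¹), and E(a,b,r) commutes with
E(a,c,s) and with E(c,b,s).
 pow: E(a,b,r)^101 = E(a,b,101 r) = 1 since 101 = 0 in Rg n (induction on n).
 heis, deg: for i = (a,t), j = (a',t'): if a' = a they commute; if a' = a+1 the commutator is E(a,a+2,..), which commutes with both
   E(a,a+1,..) and E(a+1,a+2,..); if a' = a+2 = a-1 the commutator is the inverse of E(a-1,a+1, s_{t'} s_t), same. deg: s = {j | j.1 ≠ i.1}, 8 elements.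
 Let K = closure (range xs) and Tt = {r : 𝓜 | ∀ a b, a ≠ b → E(a,b,r) ∈ K}. Tt contains 1,c,e,z: E(a,a+1,s) ∈ K by definition and
   E(a,a+2,s) = [E(a,a+1,s), E(a+1,a+2,1)] ∈ K. Tt is closed under addition, negation, and multiplication
   (E(a,b,rs) = [E(a,d,r), E(d,b,s)], d the third index). So Tt contains the subring generated by c, e, z.
 shift: for m : Matrix (Fin 3) (Fin 3) 𝓜 let α(m) : 𝓜 be α(m) 0 = 0, α(m) (n+1) = (fun i j => m i j n : Matrix (Fin 3) (Fin 3) (Rg n)). α is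
   additive and multiplicative; c = α(C), e = α(E_00), z = α(E_00 z + E_01 c + E_02 e) with C the cyclic permutation matrix
   C i j = [j = i+1]. Tt contains α(E_ab) for all a,b: α(E_0b) = e c^b, α(E_a0) = c^(3-a) e (a ≠ 0), α(E_ab) = α(E_a0) α(E_0b).
   Tt contains α(E_ab z) = α(E_a0) z α(E_0b), α(E_ab c) = α(E_a0) z α(E_1b), α(E_ab e) = α(E_a0) z α(E_2b). So for every t and a:
   Y = α(E_{a,a+1} s_t) ∈ Tt and X = α(E_aa) ∈ Tt, X Y = Y, Y X = 0. Then y := [E(0,1,X), E(1,0,Y)] ∈ K satisfies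
   y (n+1) = diag(1 + X Y, 1, 1) at level n+1 = io n (xs (a,t) n), because for Y X = 0
   [1 + X E_01, 1 + Y E_10] = (1 + X E_01)(1 + Y E_10)(1 - X E_01)(1 - Y E_10) = 1 + X Y E_00 (multiply out 2x2 matrices).
 comm: w = E(0,1,1) E(1,0,-1) E(0,1,1) ∈ K; levelwise w = E_01 - E_10 + E_22, w diag(g,1,1) w⁻¹ = diag(1,g,1), which commutes with diag(h,1,1).
 perfect: E(a,a+1,s) = [E(a,a+2,s), E(a+2,a+1,1)] with both in K (`Subgroup.commutator_mem_commutator`).
-/

set_option autoImplicit false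
set_option linter.unusedSimpArgs false

namespace Pool.Agent.Helper784MS

section KRing

variable {A : Type} [Ring A]

theorem K_comm_id {x y : A} (hx : x * x = 0) (hy : y * y = 0) (hyx : y * x = 0) :
    (1 + x) * (1 + y) * (1 - x) * (1 - y) = 1 + x * y := by
  have h1 : (1 + y) * (1 - x) = 1 + y - x := by
    rw [add_mul, one_mul, mul_sub, hyx, mul_one]; abel
  have h2 : (1 + x) * (1 + y - x) = 1 + y + x * y := by
    rw [add_mul, one_mul, mul_sub, mul_add, hx, mul_one]; abel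
  have h3 : (1 + y + x * y) * y = y := by
    rw [add_mul, add_mul, mul_assoc x, hy, one_mul, mul_zero, add_zero, add_zero]
  rw [mul_assoc (1 + x), h1, h2, mul_sub, mul_one, h3]
  abel

/-- the elementary matrix `1 + r E_ab` -/
def KE (a b : Fin 3) (h : b ≠ a) (r : A) : (Matrix (Fin 3) (Fin 3) A)ˣ where
  val := 1 + Matrix.single a b r
  inv := 1 - Matrix.single a b r
  val_inv := by
    rw [add_mul, mul_sub, mul_sub, one_mul, one_mul, mul_one,
      Matrix.single_mul_single_of_ne (h := h)]; abel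
  inv_val := by
    rw [sub_mul, mul_add, mul_add, one_mul, one_mul, mul_one,
      Matrix.single_mul_single_of_ne (h := h)]; abel

theorem KE_val (a b : Fin 3) (h : b ≠ a) (r : A) :
    (KE a b h r : Matrix (Fin 3) (Fin 3) A) = 1 + Matrix.single a b r := rfl

theorem KE_inv_val (a b : Fin 3) (h : b ≠ a) (r : A) :
    (((KE a b h r)⁻¹ : (Matrix (Fin 3) (Fin 3) A)ˣ) : Matrix (Fin 3) (Fin 3) A) =
      1 - Matrix.single a b r := rfl

theorem el_eq_KE (a : Fin 3) (h : a + 1 ≠ a) (r : A) : el a r = KE a (a + 1) h r := by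
  ext1; rfl

theorem KE_add (a b : Fin 3) (h : b ≠ a) (r s : A) :
    KE a b h (r + s) = KE a b h r * KE a b h s := by
  ext1
  rw [Units.val_mul, KE_val, KE_val, KE_val, add_mul, mul_add, mul_add, one_mul, one_mul, mul_one,
    Matrix.single_mul_single_of_ne (h := h), Matrix.single_add]
  abel

theorem KE_zero (a b : Fin 3) (h : b ≠ a) : KE a b h (0 : A) = 1 := by
  ext1
  rw [KE_val, Matrix.single_zero, add_zero, Units.val_one]

theorem KE_neg (a b : Fin 3) (h : b ≠ a) (r : A) : KE a b h (-r) = (KE a b h r)⁻¹ := by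
  rw [eq_inv_iff_mul_eq_one, ← KE_add, neg_add_cancel, KE_zero]

theorem KE_nsmul (a b : Fin 3) (h : b ≠ a) (r : A) (k : ℕ) :
    KE a b h (k • r) = KE a b h r ^ k := by
  induction k with
  | zero => rw [zero_smul, pow_zero, KE_zero]
  | succ k ih => rw [succ_nsmul, KE_add, ih, pow_succ]

/-- general commutator formula -/
theorem KE_comm_val (a b c d : Fin 3) (h : b ≠ a) (h' : d ≠ c) (r s : A)
    (h0 : Matrix.single c d s * Matrix.single a b r = 0) :
    ((KE a b h r * KE c d h' s * (KE a b h r)⁻¹ * (KE c d h' s)⁻¹ :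
      (Matrix (Fin 3) (Fin 3) A)ˣ) : Matrix (Fin 3) (Fin 3) A) =
      1 + Matrix.single a b r * Matrix.single c d s := by
  rw [Units.val_mul, Units.val_mul, Units.val_mul, KE_val, KE_val, KE_inv_val, KE_inv_val]
  exact K_comm_id (Matrix.single_mul_single_of_ne (h := h) ..)
    (Matrix.single_mul_single_of_ne (h := h') ..) h0

theorem KE_comm (a b c : Fin 3) (h : b ≠ a) (h' : c ≠ b) (h'' : c ≠ a) (r s : A) :
    KE a b h r * KE b c h' s * (KE a b h r)⁻¹ * (KE b c h' s)⁻¹ = KE a c h'' (r * s) := by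
  ext1
  rw [KE_comm_val _ _ _ _ _ _ _ _ (Matrix.single_mul_single_of_ne (h := h'') ..),
    Matrix.single_mul_single_same, KE_val]

theorem KE_commute {a b c d : Fin 3} (h : b ≠ a) (h' : d ≠ c) (h1 : b ≠ c) (h2 : d ≠ a) (r s : A) :
    Commute (KE a b h r) (KE c d h' s) := by
  have h0 := KE_comm_val a b c d h h' r s (Matrix.single_mul_single_of_ne (h := h2) ..)
  rw [Matrix.single_mul_single_of_ne (h := h1), add_zero] at h0
  have h3 : KE a b h r * KE c d h' s * (KE a b h r)⁻¹ * (KE c d h' s)⁻¹ = 1 := Units.ext h0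
  rw [Commute, SemiconjBy]
  rw [mul_inv_eq_one, mul_inv_eq_iff_eq_mul] at h3
  exact h3

/-- the matrix `diag(1, g, 1)` -/
theorem KE_w (g : Aˣ) (h01 : (1 : Fin 3) ≠ 0) (h10 : (0 : Fin 3) ≠ 1) :
    ((KE 0 1 h01 (1 : A) * KE 1 0 h10 (-1) * KE 0 1 h01 1 * dg A g *
      (KE 0 1 h01 (1 : A) * KE 1 0 h10 (-1) * KE 0 1 h01 1)⁻¹ :
      (Matrix (Fin 3) (Fin 3) A)ˣ) : Matrix (Fin 3) (Fin 3) A) =
      Matrix.diagonal fun i => if i = 1 then (g : A) else 1 := by
  have hw : ((KE 0 1 h01 (1 : A) * KE 1 0 h10 (-1) * KE 0 1 h01 1 :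
      (Matrix (Fin 3) (Fin 3) A)ˣ) : Matrix (Fin 3) (Fin 3) A) = !![0, 1, 0; -1, 0, 0; 0, 0, 1] := by
    rw [Units.val_mul, Units.val_mul, KE_val, KE_val]
    ext i j
    fin_cases i <;> fin_cases j <;>
      simp [Matrix.mul_apply, Fin.sum_univ_three, Matrix.single_apply, Matrix.one_apply]
  generalize KE 0 1 h01 (1 : A) * KE 1 0 h10 (-1) * KE 0 1 h01 1 = w at hw ⊢
  have h1 : (w : Matrix (Fin 3) (Fin 3) A) * (dg A g : Matrix (Fin 3) (Fin 3) A) =
      (Matrix.diagonal fun i => if i = 1 then (g : A) else 1) * (w : Matrix (Fin 3) (Fin 3) A) := by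
    rw [hw]
    have hg : (dg A g : Matrix (Fin 3) (Fin 3) A) =
      Matrix.diagonal fun i => if i = 0 then (g : A) else 1 := rfl
    rw [hg]
    ext i j
    rw [Matrix.mul_apply, Matrix.mul_apply, Fin.sum_univ_three, Fin.sum_univ_three]
    fin_cases i <;> fin_cases j <;> simp [Matrix.diagonal_apply]
  rw [Units.val_mul, Units.val_mul, h1, mul_assoc, ← Units.val_mul, mul_inv_cancel, Units.val_one,
    mul_one]

theorem KE_w_commute (g g' : Aˣ) (h01 : (1 : Fin 3) ≠ 0) (h10 : (0 : Fin 3) ≠ 1) :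
    Commute (KE 0 1 h01 (1 : A) * KE 1 0 h10 (-1) * KE 0 1 h01 1 * dg A g *
      (KE 0 1 h01 (1 : A) * KE 1 0 h10 (-1) * KE 0 1 h01 1)⁻¹) (dg A g') := by
  rw [Commute, SemiconjBy]
  ext1
  rw [Units.val_mul, Units.val_mul _ (KE 0 1 h01 (1 : A) * KE 1 0 h10 (-1) * KE 0 1 h01 1 *
    dg A g * (KE 0 1 h01 (1 : A) * KE 1 0 h10 (-1) * KE 0 1 h01 1)⁻¹), KE_w]
  have hg : (dg A g' : Matrix (Fin 3) (Fin 3) A) =
    Matrix.diagonal fun i => if i = 0 then (g' : A) else 1 := rfl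
  rw [hg, Matrix.diagonal_mul_diagonal, Matrix.diagonal_mul_diagonal]
  congr 1
  funext i
  fin_cases i <;> simp

theorem K_diag (X : A) : 1 + Matrix.single (0 : Fin 3) (0 : Fin 3) X =
    Matrix.diagonal fun i => if i = 0 then 1 + X else 1 := by
  ext i j
  fin_cases i <;> fin_cases j <;> simp [Matrix.single_apply, Matrix.one_apply]

end KRing

section KSeq

/-- the ring of sequences of coefficients -/
abbrev KM : Type := ∀ n, Rg n

/-- sequences of elementary matrices -/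
def KS (a b : Fin 3) (h : b ≠ a) (r : KM) : Ps := fun n => KE a b h (r n)

theorem K_fin (a : Fin 3) : a + 1 ≠ a ∧ a + 1 + 1 ≠ a + 1 ∧ a + 1 + 1 ≠ a := by
  fin_cases a <;> decide

theorem KS_add (a b : Fin 3) (h : b ≠ a) (r s : KM) : KS a b h (r + s) = KS a b h r * KS a b h s :=
  funext fun _ => KE_add a b h _ _

theorem KS_zero (a b : Fin 3) (h : b ≠ a) : KS a b h 0 = 1 := funext fun _ => KE_zero a b h

theorem KS_neg (a b : Fin 3) (h : b ≠ a) (r : KM) : KS a b h (-r) = (KS a b h r)⁻¹ :=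
  funext fun _ => KE_neg a b h _

theorem KS_comm (a b c : Fin 3) (h : b ≠ a) (h' : c ≠ b) (h'' : c ≠ a) (r s : KM) :
    KS a b h r * KS b c h' s * (KS a b h r)⁻¹ * (KS b c h' s)⁻¹ = KS a c h'' (r * s) :=
  funext fun _ => KE_comm a b c h h' h'' _ _

theorem KS_commute {a b c d : Fin 3} (h : b ≠ a) (h' : d ≠ c) (h1 : b ≠ c) (h2 : d ≠ a)
    (r s : KM) : Commute (KS a b h r) (KS c d h' s) :=
  funext fun _ => KE_commute h h' h1 h2 _ _

/-- the coefficient sequences -/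
def Ks (t : Fin 4) : KM := fun n => sR t n

theorem xs_eq (i : Fin 3 × Fin 4) (h : i.1 + 1 ≠ i.1) : xs i = KS i.1 (i.1 + 1) h (Ks i.2) :=
  funext fun _ => el_eq_KE _ h _

theorem K_101 : ∀ (n : ℕ) (r : Rg n), (101 : ℕ) • r = 0
  | 0, r => by
    have h : ∀ x : ZMod 101, (101 : ℕ) • x = 0 := fun x => by
      rw [nsmul_eq_mul, ZMod.natCast_self, zero_mul]
    exact h r
  | n + 1, r => by
    have h : ∀ x : Matrix (Fin 3) (Fin 3) (Rg n), (101 : ℕ) • x = 0 := fun x => by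
      ext i j
      exact K_101 n (x i j)
    exact h r

theorem K_pow (i : Fin 3 × Fin 4) : xs i ^ 101 = 1 := by
  rw [xs_eq i (K_fin i.1).1]
  funext n
  show KE i.1 (i.1 + 1) _ (Ks i.2 n) ^ 101 = 1
  rw [← KE_nsmul, K_101, KE_zero]

theorem K_heis0 (i j : Fin 3 × Fin 4) (hij : j.1 = i.1 + 1) :
    Commute (xs i * xs j * (xs i)⁻¹ * (xs j)⁻¹) (xs i) ∧
    Commute (xs i * xs j * (xs i)⁻¹ * (xs j)⁻¹) (xs j) := by
  obtain ⟨a, t⟩ := i
  obtain ⟨b, u⟩ := j
  simp only at hij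
  subst hij
  obtain ⟨h1, h2, h3⟩ := K_fin a
  rw [xs_eq (a, t) h1, xs_eq (a + 1, u) (K_fin (a + 1)).1]
  show Commute (KS a (a + 1) h1 (Ks t) * KS (a + 1) (a + 1 + 1) h2 (Ks u) *
    (KS a (a + 1) h1 (Ks t))⁻¹ * (KS (a + 1) (a + 1 + 1) h2 (Ks u))⁻¹)
      (KS a (a + 1) h1 (Ks t)) ∧ Commute (KS a (a + 1) h1 (Ks t) *
      KS (a + 1) (a + 1 + 1) h2 (Ks u) * (KS a (a + 1) h1 (Ks t))⁻¹ *
      (KS (a + 1) (a + 1 + 1) h2 (Ks u))⁻¹) (KS (a + 1) (a + 1 + 1) h2 (Ks u))
  rw [KS_comm a (a + 1) (a + 1 + 1) h1 h2 h3]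
  exact ⟨KS_commute _ _ h3 h1 _ _, KS_commute _ _ h2 h3 _ _⟩

theorem K_commute_same (i j : Fin 3 × Fin 4) (hij : j.1 = i.1) : Commute (xs i) (xs j) := by
  obtain ⟨a, t⟩ := i
  obtain ⟨b, u⟩ := j
  simp only at hij
  subst hij
  obtain ⟨h1, h2, h3⟩ := K_fin b
  rw [xs_eq (b, t) h1, xs_eq (b, u) h1]
  exact KS_commute _ _ h1 h1 _ _

theorem K_comm_inv {H : Type} [Group H] {x y : H} (h : Commute (x * y * x⁻¹ * y⁻¹) x ∧
    Commute (x * y * x⁻¹ * y⁻¹) y) : Commute (y * x * y⁻¹ * x⁻¹) y ∧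
    Commute (y * x * y⁻¹ * x⁻¹) x := by
  have e : y * x * y⁻¹ * x⁻¹ = (x * y * x⁻¹ * y⁻¹)⁻¹ := by group
  rw [e]
  exact ⟨h.2.inv_left, h.1.inv_left⟩

theorem K_heis (i j : Fin 3 × Fin 4) :
    Commute (xs i * xs j * (xs i)⁻¹ * (xs j)⁻¹) (xs i) ∧
    Commute (xs i * xs j * (xs i)⁻¹ * (xs j)⁻¹) (xs j) := by
  have h : j.1 = i.1 ∨ j.1 = i.1 + 1 ∨ i.1 = j.1 + 1 := by
    generalize i.1 = a
    generalize j.1 = b
    revert a b
    decide
  rcases h with h | h | h
  · have hc := K_commute_same i j h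
    have e : xs i * xs j * (xs i)⁻¹ * (xs j)⁻¹ = 1 := by
      rw [hc.eq]; group
    rw [e]
    exact ⟨Commute.one_left _, Commute.one_left _⟩
  · exact K_heis0 i j h
  · exact K_comm_inv (K_heis0 j i h)

theorem K_deg (i : Fin 3 × Fin 4) : ∃ s : Finset (Fin 3 × Fin 4), s.card ≤ 8 ∧
    ∀ j, ¬ Commute (xs i) (xs j) → j ∈ s := by
  refine ⟨Finset.univ.filter fun j => j.1 ≠ i.1, ?_, fun j hj => ?_⟩
  · revert i; decide
  · rw [Finset.mem_filter]
    exact ⟨Finset.mem_univ _, fun h => hj (K_commute_same i j h)⟩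

/-- the group `K` -/
abbrev KK : Subgroup Ps := Subgroup.closure (Set.range xs)

theorem K_comm_mem {x y : Ps} (hx : x ∈ KK) (hy : y ∈ KK) : x * y * x⁻¹ * y⁻¹ ∈ KK :=
  KK.mul_mem (KK.mul_mem (KK.mul_mem hx hy) (KK.inv_mem hx)) (KK.inv_mem hy)

theorem Ks_zero : Ks 0 = 1 := rfl

theorem K_gen (t : Fin 4) (a b : Fin 3) (h : b ≠ a) : KS a b h (Ks t) ∈ KK := by
  have h0 : ∀ (u : Fin 4) (a : Fin 3) (h : a + 1 ≠ a), KS a (a + 1) h (Ks u) ∈ KK := by
    intro u a h
    rw [← xs_eq (a, u) h]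
    exact Subgroup.subset_closure ⟨_, rfl⟩
  obtain ⟨h1, h2, h3⟩ := K_fin a
  have hb : b = a + 1 ∨ b = a + 1 + 1 := by
    revert a b; decide
  rcases hb with rfl | rfl
  · exact h0 t a h
  · have h4 := KS_comm a (a + 1) (a + 1 + 1) h1 h2 h (Ks t) (Ks 0)
    rw [Ks_zero, mul_one] at h4
    rw [← h4]
    exact K_comm_mem (h0 t a h1) (by rw [← Ks_zero]; exact h0 0 (a + 1) h2)

/-- the coefficients which occur in `K` -/
def KT : Subring KM where
  carrier := {r | ∀ (a b : Fin 3) (h : b ≠ a), KS a b h r ∈ KK}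
  mul_mem' := by
    intro r s hr hs a b h
    obtain ⟨d, h1, h2⟩ : ∃ d : Fin 3, d ≠ a ∧ b ≠ d := by
      revert a b; decide
    rw [← KS_comm a d b h1 h2 h]
    exact K_comm_mem (hr a d h1) (hs d b h2)
  one_mem' := by
    intro a b h
    rw [← Ks_zero]
    exact K_gen 0 a b h
  add_mem' := by
    intro r s hr hs a b h
    rw [KS_add]
    exact KK.mul_mem (hr a b h) (hs a b h)
  zero_mem' := by
    intro a b h
    rw [KS_zero]
    exact KK.one_mem
  neg_mem' := by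
    intro r hr a b h
    rw [KS_neg]
    exact KK.inv_mem (hr a b h)

theorem mem_KT {r : KM} : r ∈ KT ↔ ∀ (a b : Fin 3) (h : b ≠ a), KS a b h r ∈ KK := Iff.rfl

theorem Ks_mem (t : Fin 4) : Ks t ∈ KT := K_gen t

theorem K_perfect : KK ≤ ⁅KK, KK⁆ := by
  rw [Subgroup.closure_le]
  rintro _ ⟨⟨a, t⟩, rfl⟩
  obtain ⟨h1, h2, h3⟩ := K_fin a
  have h4 : a + 1 ≠ a + 1 + 1 := h2.symm
  rw [xs_eq (a, t) h1]
  have h5 := KS_comm a (a + 1 + 1) (a + 1) h3 h4 h1 (Ks t) (Ks 0)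
  rw [Ks_zero, mul_one] at h5
  show KS a (a + 1) h1 (Ks t) ∈ ⁅KK, KK⁆
  rw [← h5, ← Ks_zero]
  exact Subgroup.commutator_mem_commutator (K_gen t _ _ _) (K_gen 0 _ _ _)

theorem K_w : ∃ w ∈ KK, ∀ n, ∀ g h : Gp n,
    Commute (w (n + 1) * io n g * (w (n + 1))⁻¹) (io n h) := by
  refine ⟨KS 0 1 (by decide) 1 * KS 1 0 (by decide) (-1) * KS 0 1 (by decide) 1,
    KK.mul_mem (KK.mul_mem (mem_KT.1 KT.one_mem _ _ _)
      (mem_KT.1 (KT.neg_mem KT.one_mem) _ _ _)) (mem_KT.1 KT.one_mem _ _ _), fun n g h => ?_⟩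
  exact KE_w_commute (A := Rg (n + 1)) g h (by decide) (by decide)

/-- a matrix of sequences as a sequence, shifted by one level -/
def KA (M : Matrix (Fin 3) (Fin 3) KM) : KM
  | 0 => 0
  | (n + 1) => (fun i j => M i j n : Matrix (Fin 3) (Fin 3) (Rg n))

theorem K_Rg_mul (n : ℕ) (X Y : Matrix (Fin 3) (Fin 3) (Rg n)) :
    @HMul.hMul (Rg (n + 1)) (Rg (n + 1)) (Rg (n + 1)) _ X Y = X * Y := rfl

theorem KA_mul (M M' : Matrix (Fin 3) (Fin 3) KM) : KA M * KA M' = KA (M * M') := by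
  funext n
  cases n with
  | zero => exact mul_zero (0 : Rg 0)
  | succ n =>
    have h1 : (KA M * KA M') (n + 1) = @HMul.hMul (Rg (n + 1)) (Rg (n + 1)) (Rg (n + 1)) _
      (KA M (n + 1)) (KA M' (n + 1)) := rfl
    rw [h1]
    refine (K_Rg_mul n _ _).trans ?_
    refine funext fun i => funext fun j => ?_
    rw [Matrix.mul_apply]
    show _ = (M * M') i j n
    rw [Matrix.mul_apply, Finset.sum_apply]
    rfl

theorem KA_zero : KA 0 = 0 := by
  funext n
  cases n with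
  | zero => rfl
  | succ n => rfl

/-- the cyclic permutation matrix over the ring of sequences -/
def KC : Matrix (Fin 3) (Fin 3) KM := fun i j => if j = i + 1 then 1 else 0

/-- first row of `z` -/
def KZ : Matrix (Fin 3) (Fin 3) KM := fun i j => if i = 0 then ![Ks 3, Ks 1, Ks 2] j else 0

theorem Ks_one : Ks 1 = KA KC := by
  funext n
  cases n with
  | zero => rfl
  | succ n =>
    show cR (n + 1) = _
    refine funext fun i => funext fun j => ?_
    show (if j = i + 1 then (1 : Rg n) else 0) = (if j = i + 1 then (1 : KM) else 0) n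
    split_ifs <;> rfl

theorem Ks_two : Ks 2 = KA (Matrix.single 0 0 1) := by
  funext n
  cases n with
  | zero => rfl
  | succ n =>
    show eR (n + 1) = _
    refine funext fun i => funext fun j => ?_
    show (if i = 0 ∧ j = 0 then (1 : Rg n) else 0) =
      (Matrix.single (0 : Fin 3) (0 : Fin 3) (1 : KM) i j) n
    rw [Matrix.single_apply]
    by_cases h : i = 0 ∧ j = 0
    · rw [if_pos h, if_pos ⟨h.1.symm, h.2.symm⟩]; rfl
    · rw [if_neg h, if_neg (fun h' => h ⟨h'.1.symm, h'.2.symm⟩)]; rfl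

theorem Ks_three : Ks 3 = KA KZ := by
  funext n
  cases n with
  | zero => rfl
  | succ n =>
    show zR (n + 1) = _
    refine funext fun i => funext fun j => ?_
    show (if i = 0 then ![zR n, cR n, eR n] j else 0) =
      (if i = 0 then ![Ks 3, Ks 1, Ks 2] j else (0 : KM)) n
    split_ifs
    · fin_cases j <;> rfl
    · rfl

theorem KA_row (b : Fin 3) : KA (Matrix.single 0 b 1) ∈ KT := by
  have h0 : KA (Matrix.single 0 0 1) ∈ KT := by rw [← Ks_two]; exact Ks_mem 2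
  have hc : KA KC ∈ KT := by rw [← Ks_one]; exact Ks_mem 1
  have hs : ∀ b : Fin 3, (Matrix.single 0 b 1 : Matrix (Fin 3) (Fin 3) KM) * KC =
      Matrix.single 0 (b + 1) 1 := by
    intro b
    ext i j : 2
    rw [Matrix.mul_apply, Fin.sum_univ_three]
    simp only [Matrix.single_apply, KC]
    fin_cases b <;> fin_cases i <;> fin_cases j <;> simp
  have hstep : ∀ b : Fin 3, KA (Matrix.single 0 b 1) ∈ KT → KA (Matrix.single 0 (b + 1) 1) ∈ KT := by
    intro b hb
    rw [← hs, ← KA_mul]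
    exact KT.mul_mem hb hc
  have h1 := hstep 0 h0
  have h2 := hstep 1 h1
  fin_cases b
  · exact h0
  · exact h1
  · exact h2

theorem KA_col (a : Fin 3) : KA (Matrix.single a 0 1) ∈ KT := by
  have h0 : KA (Matrix.single 0 0 1) ∈ KT := by rw [← Ks_two]; exact Ks_mem 2
  have hc : KA KC ∈ KT := by rw [← Ks_one]; exact Ks_mem 1
  have hs : ∀ a : Fin 3, KC * (Matrix.single (a + 1) 0 1 : Matrix (Fin 3) (Fin 3) KM) =
      Matrix.single a 0 1 := by
    intro a
    ext i j : 2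
    rw [Matrix.mul_apply, Fin.sum_univ_three]
    simp only [Matrix.single_apply, KC]
    fin_cases a <;> fin_cases i <;> fin_cases j <;> simp
  have hstep : ∀ a : Fin 3, KA (Matrix.single (a + 1) 0 1) ∈ KT → KA (Matrix.single a 0 1) ∈ KT := by
    intro a ha
    rw [← hs, ← KA_mul]
    exact KT.mul_mem hc ha
  have h2 := hstep 2 h0
  have h1 := hstep 1 h2
  fin_cases a
  · exact h0
  · exact h1
  · exact h2

theorem KA_unit (a b : Fin 3) : KA (Matrix.single a b 1) ∈ KT := by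
  have h := KT.mul_mem (KA_col a) (KA_row b)
  rwa [KA_mul, Matrix.single_mul_single_same, one_mul] at h

theorem KA_entry (a b k : Fin 3) : KA (Matrix.single a b (KZ 0 k)) ∈ KT := by
  have hz : KA KZ ∈ KT := by rw [← Ks_three]; exact Ks_mem 3
  have h := KT.mul_mem (KT.mul_mem (KA_col a) hz) (KA_unit k b)
  rwa [KA_mul, KA_mul, Matrix.single_mul_mul_single, one_mul, mul_one] at h

theorem KA_all (a b : Fin 3) (t : Fin 4) : KA (Matrix.single a b (Ks t)) ∈ KT := by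
  fin_cases t
  · exact KA_unit a b
  · exact KA_entry a b 1
  · exact KA_entry a b 2
  · exact KA_entry a b 0

theorem K_shift (i : Fin 3 × Fin 4) : ∃ y ∈ KK, ∀ n, y (n + 1) = io n (xs i n) := by
  obtain ⟨a, t⟩ := i
  obtain ⟨h1, h2, h3⟩ := K_fin a
  have h01 : (1 : Fin 3) ≠ 0 := by decide
  have h10 : (0 : Fin 3) ≠ 1 := by decide
  refine ⟨KS 0 1 h01 (KA (Matrix.single a a 1)) * KS 1 0 h10 (KA (Matrix.single a (a + 1) (Ks t))) *
    (KS 0 1 h01 (KA (Matrix.single a a 1)))⁻¹ *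
    (KS 1 0 h10 (KA (Matrix.single a (a + 1) (Ks t))))⁻¹,
    K_comm_mem (mem_KT.1 (KA_unit a a) _ _ _) (mem_KT.1 (KA_all a (a + 1) t) _ _ _), fun n => ?_⟩
  have hyx : KA (Matrix.single a (a + 1) (Ks t)) * KA (Matrix.single a a 1) = 0 := by
    rw [KA_mul, Matrix.single_mul_single_of_ne (h := h1), KA_zero]
  have hxy : KA (Matrix.single a a 1) * KA (Matrix.single a (a + 1) (Ks t)) =
      KA (Matrix.single a (a + 1) (Ks t)) := by
    rw [KA_mul, Matrix.single_mul_single_same, one_mul]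
  have hyx' : KA (Matrix.single a (a + 1) (Ks t)) (n + 1) * KA (Matrix.single a a 1) (n + 1) = 0 :=
    congrFun hyx (n + 1)
  have hxy' : KA (Matrix.single a a 1) (n + 1) * KA (Matrix.single a (a + 1) (Ks t)) (n + 1) =
    KA (Matrix.single a (a + 1) (Ks t)) (n + 1) := congrFun hxy (n + 1)
  have hval : KA (Matrix.single a (a + 1) (Ks t)) (n + 1) =
      (Matrix.single a (a + 1) (sR t n) : Matrix (Fin 3) (Fin 3) (Rg n)) := by
    refine funext fun i => funext fun j => ?_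
    show (Matrix.single a (a + 1) (Ks t) i j) n = Matrix.single a (a + 1) (sR t n) i j
    rw [Matrix.single_apply, Matrix.single_apply]
    split_ifs <;> rfl
  ext1
  show ((KE 0 1 h01 (KA (Matrix.single a a 1) (n + 1)) *
    KE 1 0 h10 (KA (Matrix.single a (a + 1) (Ks t)) (n + 1)) *
    (KE 0 1 h01 (KA (Matrix.single a a 1) (n + 1)))⁻¹ *
    (KE 1 0 h10 (KA (Matrix.single a (a + 1) (Ks t)) (n + 1)))⁻¹ :
      (Matrix (Fin 3) (Fin 3) (Rg (n + 1)))ˣ) : Matrix (Fin 3) (Fin 3) (Rg (n + 1))) = _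
  rw [KE_comm_val, Matrix.single_mul_single_same, hxy', hval]
  · exact K_diag (A := Rg (n + 1)) _
  · rw [Matrix.single_mul_single_same, hyx', Matrix.single_zero]

end KSeq

/-- TARGET -/
theorem specK : SpecK where
  pow := K_pow
  heis := K_heis
  deg := K_deg
  shift := K_shift
  comm := K_w
  perfect := K_perfect

end Pool.Agent.Helper784MS
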