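import Pool.Agent.Helper784MS.Spec

/-!
# Matricial stability from triviality on `K`
-/

set_option autoImplicit false

open Filter Topology

namespace Pool.Agent.Helper784MS

/-- operator norm of a matrix -/
noncomputable def mM_nm {k : ℕ} (A : Matrix (Fin k) (Fin k) ℂ) : ℝ :=
  ‖Matrix.toEuclideanCLM (n := Fin k) (𝕜 := ℂ) A‖

theorem mM_nonneg {k : ℕ} (A : Matrix (Fin k) (Fin k) ℂ) : 0 ≤ mM_nm A := norm_nonneg _

theorem mM_add {k : ℕ} (A B : Matrix (Fin k) (Fin k) ℂ) : mM_nm (A + B) ≤ mM_nm A + mM_nm B := by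
  unfold mM_nm
  rw [map_add]
  exact norm_add_le _ _

theorem mM_neg {k : ℕ} (A : Matrix (Fin k) (Fin k) ℂ) : mM_nm (-A) = mM_nm A := by
  unfold mM_nm
  rw [map_neg, norm_neg]

theorem mM_sub_comm {k : ℕ} (A B : Matrix (Fin k) (Fin k) ℂ) :
    mM_nm (A - B) = mM_nm (B - A) := by
  rw [← mM_neg, neg_sub]

theorem mM_unit {k : ℕ} (U : Matrix.unitaryGroup (Fin k) ℂ) :
    Matrix.toEuclideanCLM (n := Fin k) (𝕜 := ℂ) U.val ∈
      unitary (EuclideanSpace ℂ (Fin k) →L[ℂ] EuclideanSpace ℂ (Fin k)) := by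
  rw [Unitary.mem_iff]
  constructor
  · rw [← map_star, ← map_mul]
    have h : star U.val * U.val = 1 := Matrix.mem_unitaryGroup_iff'.mp U.2
    rw [h, map_one]
  · rw [← map_star, ← map_mul]
    have h : U.val * star U.val = 1 := Matrix.mem_unitaryGroup_iff.mp U.2
    rw [h, map_one]

theorem mM_mul_right {k : ℕ} (A : Matrix (Fin k) (Fin k) ℂ) (U : Matrix.unitaryGroup (Fin k) ℂ) :
    mM_nm (A * U.val) = mM_nm A := by
  unfold mM_nm
  rw [map_mul]
  exact CStarRing.norm_mul_coe_unitary _ ⟨_, mM_unit U⟩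

theorem mM_mul_left {k : ℕ} (A : Matrix (Fin k) (Fin k) ℂ) (U : Matrix.unitaryGroup (Fin k) ℂ) :
    mM_nm (U.val * A) = mM_nm A := by
  unfold mM_nm
  rw [map_mul]
  exact CStarRing.norm_coe_unitary_mul ⟨_, mM_unit U⟩ _

/-- TARGET -/
theorem specM_of (h : SpecH) : SpecM := by
  intro G I _ _ x v w p D hD hcl ψ hψx hψv k φ hφ
  have hx := h hD hcl k φ hφ
  have hφ' : ∀ g h : G, Tendsto (fun n : ℕ => mM_nm ((φ n (g * h)).val -
      (φ n g).val * (φ n h).val)) atTop (𝓝 0) := hφ
  have hx' : ∀ i, Tendsto (fun n : ℕ => mM_nm ((φ n (x i)).val - 1)) atTop (𝓝 0) := hx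
  -- the value at one
  have hone : Tendsto (fun n : ℕ => mM_nm ((φ n 1).val - 1)) atTop (𝓝 0) := by
    refine (hφ' 1 1).congr (fun n => ?_)
    have e : (φ n (1 * 1)).val - (φ n 1).val * (φ n 1).val =
        (φ n 1).val * (1 - (φ n 1).val) := by
      rw [mul_one (1 : G), mul_sub, mul_one]
    rw [e, mM_mul_left, mM_sub_comm]
  refine ⟨fun n => (zpowersHom _ (φ n v)).comp ψ, ?_⟩
  obtain ⟨ρ, hρ⟩ : ∃ ρ : ∀ n : ℕ, G →* Matrix.unitaryGroup (Fin (k n)) ℂ,
    ρ = fun n => (zpowersHom _ (φ n v)).comp ψ := ⟨_, rfl⟩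
  have hρx : ∀ n i, ρ n (x i) = 1 := by
    intro n i
    rw [hρ]
    simp [hψx i]
  have hρv : ∀ n, ρ n v = φ n v := by
    intro n
    rw [hρ]
    simp [hψv]
  rw [← hρ]
  have key : ∀ g : G, Tendsto (fun n : ℕ => mM_nm ((φ n g).val - (ρ n g).val)) atTop
      (𝓝 0) := by
    intro g
    have hg : g ∈ Subgroup.closure (insert v (Set.range x)) := by
      rw [hcl]
      exact Subgroup.mem_top g
    induction hg using Subgroup.closure_induction with
    | mem g hg =>
      rcases Set.mem_insert_iff.mp hg with rfl | ⟨i, rfl⟩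
      · refine tendsto_const_nhds.congr (fun n => ?_)
        rw [hρv, sub_self]
        unfold mM_nm
        rw [map_zero, norm_zero]
      · refine (hx' i).congr (fun n => ?_)
        rw [hρx]
        rfl
    | one =>
      refine hone.congr (fun n => ?_)
      rw [map_one]
      rfl
    | mul g g' _ _ ih ih' =>
      have h1 := ((hφ' g g').add ih).add ih'
      rw [add_zero, add_zero] at h1
      refine squeeze_zero (fun n => mM_nonneg _) (fun n => ?_) h1
      have e : (φ n (g * g')).val - (ρ n (g * g')).val =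
          ((φ n (g * g')).val - (φ n g).val * (φ n g').val) +
          ((φ n g).val - (ρ n g).val) * (φ n g').val +
          (ρ n g).val * ((φ n g').val - (ρ n g').val) := by
        rw [map_mul]
        have e2 : (ρ n g * ρ n g').val = (ρ n g).val * (ρ n g').val := rfl
        rw [e2, sub_mul, mul_sub]
        abel
      rw [e]
      refine (mM_add _ _).trans (add_le_add ((mM_add _ _).trans (add_le_add le_rfl ?_)) ?_)
      · rw [mM_mul_right]
      · rw [mM_mul_left]
    | inv g _ ih =>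
      have h1 := (ih.add (hφ' g⁻¹ g)).add hone
      rw [add_zero, add_zero] at h1
      refine squeeze_zero (fun n => mM_nonneg _) (fun n => ?_) h1
      have e3 : (ρ n g⁻¹).val * (ρ n g).val = 1 := by
        have : ρ n g⁻¹ * ρ n g = 1 := by rw [← map_mul, inv_mul_cancel, map_one]
        have e4 := congrArg Subtype.val this
        exact e4
      have e : ((φ n g⁻¹).val - (ρ n g⁻¹).val) * (ρ n g).val =
          (φ n g⁻¹).val * ((ρ n g).val - (φ n g).val) +
          -((φ n (g⁻¹ * g)).val - (φ n g⁻¹).val * (φ n g).val) +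
          ((φ n 1).val - 1) := by
        rw [sub_mul, e3, inv_mul_cancel, mul_sub]
        abel
      rw [← mM_mul_right _ (ρ n g), e]
      refine (mM_add _ _).trans (add_le_add ((mM_add _ _).trans (add_le_add ?_ ?_)) le_rfl)
      · rw [mM_mul_left, mM_sub_comm]
      · rw [mM_neg]
  exact key

end Pool.Agent.Helper784MS
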