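import Pool.Agent.Helper784MS.RedDefs
import Pool.Agent.Helper784MS.G3

/-!
# Infinite `K`, and asymptotic homomorphisms of the reduced group C*-algebra
-/

set_option autoImplicit false

open Filter Topology
open scoped ComplexOrder

namespace Pool.Agent.Helper784MS.Red

open Pool.Agent.H379R3.CS

theorem infinite_of_dat {G I : Type} [Group G] [Fintype I] {x : I → G} {v w : G} {p D : ℕ}
    (h : Dat x v w p D) (i : I) (hx : x i ≠ 1) :
    Infinite (Subgroup.closure (Set.range x)) := by
  rw [← not_finite_iff_infinite]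
  intro hfin
  set K := Subgroup.closure (Set.range x) with hK
  -- conjugation by v maps K into K, hence onto K
  have hle : K.map (MulAut.conj v).toMonoidHom ≤ K := by
    rw [hK, MonoidHom.map_closure, Subgroup.closure_le]
    rintro _ ⟨_, ⟨j, rfl⟩, rfl⟩
    exact h.conj j
  have heq : K.map (MulAut.conj v).toMonoidHom = K := by
    have : Finite (K : Set G) := hfin
    apply SetLike.coe_injective
    apply Set.eq_of_subset_of_ncard_le hle ?_ (Set.toFinite _)
    have hc : (K.map (MulAut.conj v).toMonoidHom : Set G) = (MulAut.conj v) '' (K : Set G) := rfl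
    rw [hc, Set.ncard_image_of_injective _ (MulAut.conj v).injective]
  have hmem : ∀ g ∈ K, ∃ g' ∈ K, v * g' * v⁻¹ = g := by
    intro g hg
    rw [← heq] at hg
    obtain ⟨g', h1, h2⟩ := hg
    exact ⟨g', h1, h2⟩
  have hcomm : ∀ g ∈ K, ∀ g' ∈ K, Commute g g' := by
    intro g hg g' hg'
    have hw : w⁻¹ * g * w ∈ K := K.mul_mem (K.mul_mem (K.inv_mem h.wmem) hg) h.wmem
    obtain ⟨a, ha, ha2⟩ := hmem _ hw
    obtain ⟨b, hb, hb2⟩ := hmem _ hg'
    have h1 := h.comm a ha b hb
    rw [ha2, hb2] at h1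
    have h2 : w * (w⁻¹ * g * w) * w⁻¹ = g := by group
    rwa [h2] at h1
  have htriv : K ≤ ⊥ := by
    refine h.perfect.trans ?_
    rw [Subgroup.commutator_le]
    intro g hg g' hg'
    rw [Subgroup.mem_bot, commutatorElement_def, (hcomm g hg g' hg').eq]
    group
  exact hx (Subgroup.mem_bot.1 (htriv (Subgroup.subset_closure ⟨i, rfl⟩)))

section
variable {A : Type} [CStarAlgebra A] {B : ℕ → Type} [∀ n, NonUnitalCStarAlgebra (B n)]
  {φ : ∀ n, A → B n}

/-- `a ~ b` : the images are asymptotically equal -/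
def Eqv (x y : ∀ n, B n) : Prop := Tendsto (fun n => ‖x n - y n‖) atTop (𝓝 0)

theorem Eqv.refl (x : ∀ n, B n) : Eqv x x := by
  unfold Eqv; simp

theorem Eqv.symm {x y : ∀ n, B n} (h : Eqv x y) : Eqv y x := by
  unfold Eqv at *
  simpa only [norm_sub_rev] using h

theorem Eqv.trans {x y z : ∀ n, B n} (h : Eqv x y) (h' : Eqv y z) : Eqv x z := by
  unfold Eqv at *
  refine squeeze_zero (fun n => norm_nonneg _) (fun n => norm_sub_le_norm_sub_add_norm_sub _ (y n) _) ?_
  simpa using h.add h'

theorem Eqv.add {x y x' y' : ∀ n, B n} (h : Eqv x y) (h' : Eqv x' y') :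
    Eqv (fun n => x n + x' n) (fun n => y n + y' n) := by
  unfold Eqv at *
  refine squeeze_zero (fun n => norm_nonneg _) (fun n => ?_) (by simpa using h.add h')
  have : x n + x' n - (y n + y' n) = (x n - y n) + (x' n - y' n) := by abel
  rw [this]
  exact norm_add_le _ _

theorem Eqv.sub_zero {x y : ∀ n, B n} (h : Eqv x y) : Eqv (fun n => y n - x n) (fun _ => 0) := by
  have h1 := h.symm
  unfold Eqv at *
  simpa only [_root_.sub_zero] using h1

theorem Eqv.smul {x y : ∀ n, B n} (c : ℂ) (h : Eqv x y) :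
    Eqv (fun n => c • x n) (fun n => c • y n) := by
  unfold Eqv at *
  have := h.const_mul ‖c‖
  rw [mul_zero] at this
  refine this.congr fun n => ?_
  rw [← smul_sub, norm_smul]

theorem Eqv.mul_left {x y : ∀ n, B n} {z : ∀ n, B n} {C : ℝ} (hz : ∀ n, ‖z n‖ ≤ C)
    (h : Eqv x y) : Eqv (fun n => z n * x n) (fun n => z n * y n) := by
  unfold Eqv at *
  refine squeeze_zero (fun n => norm_nonneg _) (fun n => ?_)
    (by simpa using h.const_mul C)
  rw [← mul_sub]
  exact (norm_mul_le _ _).trans (mul_le_mul_of_nonneg_right (hz n) (norm_nonneg _))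

theorem Eqv.mul_right {x y : ∀ n, B n} {z : ∀ n, B n} {C : ℝ} (hz : ∀ n, ‖z n‖ ≤ C)
    (h : Eqv x y) : Eqv (fun n => x n * z n) (fun n => y n * z n) := by
  unfold Eqv at *
  refine squeeze_zero (fun n => norm_nonneg _) (fun n => ?_)
    (by simpa using h.mul_const C)
  rw [← sub_mul]
  exact (norm_mul_le _ _).trans (mul_le_mul_of_nonneg_left (hz n) (norm_nonneg _))

theorem Eqv.sum {ι : Type} (s : Finset ι) {x y : ι → ∀ n, B n} (h : ∀ i ∈ s, Eqv (x i) (y i)) :
    Eqv (fun n => ∑ i ∈ s, x i n) (fun n => ∑ i ∈ s, y i n) := by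
  classical
  induction s using Finset.induction_on with
  | empty => simpa using Eqv.refl (fun n => (0 : B n))
  | insert a s ha ih =>
    simp only [Finset.sum_insert ha]
    exact (h a (Finset.mem_insert_self _ _)).add (ih fun i hi => h i (Finset.mem_insert_of_mem hi))

theorem IsAsympHom.zero (hφ : IsAsympHom φ) : Eqv (fun n => φ n 0) (fun _ => 0) := by
  have h1 : Eqv (fun n => φ n 0) (fun n => (0 : ℂ) • φ n 0) := by
    have := hφ.smul 0 0
    rw [smul_zero] at this
    exact this
  simpa only [zero_smul] using h1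

theorem IsAsympHom.sum (hφ : IsAsympHom φ) {ι : Type} (s : Finset ι) (a : ι → A) :
    Eqv (fun n => φ n (∑ i ∈ s, a i)) (fun n => ∑ i ∈ s, φ n (a i)) := by
  classical
  induction s using Finset.induction_on with
  | empty => simpa using hφ.zero
  | insert j s hj ih =>
    simp only [Finset.sum_insert hj]
    have h1 : Eqv (fun n => φ n (a j + ∑ i ∈ s, a i))
        (fun n => φ n (a j) + φ n (∑ i ∈ s, a i)) := hφ.add _ _
    exact h1.trans ((Eqv.refl _).add ih)

theorem IsAsympHom.sub (hφ : IsAsympHom φ) (a b : A) :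
    Eqv (fun n => φ n (a - b)) (fun n => φ n a - φ n b) := by
  have h1 : Eqv (fun n => φ n (a + (-1 : ℂ) • b)) (fun n => φ n a + φ n ((-1 : ℂ) • b)) :=
    hφ.add _ _
  have h2 : Eqv (fun n => φ n ((-1 : ℂ) • b)) (fun n => (-1 : ℂ) • φ n b) := hφ.smul _ _
  have h3 := h1.trans ((Eqv.refl _).add h2)
  simpa only [neg_smul, one_smul, ← sub_eq_add_neg] using h3

end

/-- a unitary representation which is asymptotically trivial on the `x i` kills everything -/
theorem asymp_zero {G I : Type} [Group G] [Fintype I] {x : I → G} {p : ℕ} (hp : 0 < p)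
    {b : reducedCStar G} (hb : b * LapA x p = 1) {B : ℕ → Type}
    [∀ n, NonUnitalCStarAlgebra (B n)] {φ : ∀ n, reducedCStar G → B n} (hφ : IsAsympHom φ)
    (hx : ∀ i, Tendsto (fun n => ‖φ n (regHom G (x i)) - φ n (regHom G 1)‖) atTop (𝓝 0))
    (a : reducedCStar G) : Tendsto (fun n => ‖φ n a‖) atTop (𝓝 0) := by
  have hx' : ∀ i, Eqv (fun n => φ n (regHom G (x i))) (fun n => φ n 1) := by
    intro i
    have := hx i
    rw [map_one] at this
    exact this
  -- powers
  have hpow : ∀ i t, Eqv (fun n => φ n (regHom G (x i ^ t))) (fun n => φ n 1) := by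
    intro i t
    induction t with
    | zero =>
      simp only [pow_zero, map_one]
      exact Eqv.refl _
    | succ t ih =>
      obtain ⟨C, hC⟩ := hφ.bdd (regHom G (x i))
      obtain ⟨C', hC'⟩ := hφ.bdd 1
      have h1 : Eqv (fun n => φ n (regHom G (x i ^ (t + 1))))
          (fun n => φ n (regHom G (x i ^ t)) * φ n (regHom G (x i))) := by
        have h2 := hφ.mul (regHom G (x i ^ t)) (regHom G (x i))
        rw [← map_mul, ← pow_succ] at h2
        exact h2
      have h2 : Eqv (fun n => φ n (regHom G (x i ^ t)) * φ n (regHom G (x i)))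
          (fun n => φ n 1 * φ n (regHom G (x i))) := ih.mul_right hC
      have h3 : Eqv (fun n => φ n 1 * φ n (regHom G (x i))) (fun n => φ n 1 * φ n 1) :=
        (hx' i).mul_left hC'
      have h4 : Eqv (fun n => φ n 1 * φ n 1) (fun n => φ n 1) := by
        have h5 := hφ.mul 1 1
        rw [one_mul] at h5
        exact Eqv.symm h5
      exact ((h1.trans h2).trans h3).trans h4
  have hp' : (p : ℂ) ≠ 0 := by exact_mod_cast hp.ne'
  -- the Laplacian is mapped to zero
  have hL : Eqv (fun n => φ n (LapA x p)) (fun _ => 0) := by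
    have h1 : Eqv (fun n => φ n (LapA x p)) (fun n => ∑ i : I, φ n (1 - (p : ℂ)⁻¹ •
        ∑ t ∈ Finset.range p, regHom G (x i ^ t))) := hφ.sum _ _
    refine h1.trans ?_
    have h2 : ∀ i ∈ (Finset.univ : Finset I), Eqv (fun n => φ n (1 - (p : ℂ)⁻¹ •
        ∑ t ∈ Finset.range p, regHom G (x i ^ t))) (fun _ => 0) := by
      intro i _
      have h3 : Eqv (fun n => φ n ((p : ℂ)⁻¹ • ∑ t ∈ Finset.range p, regHom G (x i ^ t)))
          (fun n => φ n 1) := by
        have h4 : Eqv (fun n => φ n ((p : ℂ)⁻¹ • ∑ t ∈ Finset.range p, regHom G (x i ^ t)))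
          (fun n => (p : ℂ)⁻¹ • φ n (∑ t ∈ Finset.range p, regHom G (x i ^ t))) := hφ.smul _ _
        have h5 : Eqv (fun n => φ n (∑ t ∈ Finset.range p, regHom G (x i ^ t)))
            (fun n => ∑ t ∈ Finset.range p, φ n (regHom G (x i ^ t))) := hφ.sum _ _
        have h6 : Eqv (fun n => ∑ t ∈ Finset.range p, φ n (regHom G (x i ^ t)))
            (fun n => ∑ _t ∈ Finset.range p, φ n 1) := Eqv.sum _ fun t _ => hpow i t
        have h7 := h4.trans ((h5.trans h6).smul (p : ℂ)⁻¹)
        have h8 : (fun n => (p : ℂ)⁻¹ • ∑ _t ∈ Finset.range p, φ n 1) = fun n => φ n 1 := by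
          funext n
          rw [Finset.sum_const, Finset.card_range, ← Nat.cast_smul_eq_nsmul ℂ, smul_smul,
            inv_mul_cancel₀ hp', one_smul]
        rwa [h8] at h7
      have h4 := hφ.sub 1 ((p : ℂ)⁻¹ • ∑ t ∈ Finset.range p, regHom G (x i ^ t))
      exact h4.trans (Eqv.sub_zero h3)
    simpa using Eqv.sum Finset.univ h2
  -- hence the unit is mapped to zero
  have h1 : Eqv (fun n => φ n 1) (fun _ => 0) := by
    obtain ⟨C, hC⟩ := hφ.bdd b
    have h2 : Eqv (fun n => φ n 1) (fun n => φ n b * φ n (LapA x p)) := by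
      have h3 := hφ.mul b (LapA x p)
      rw [hb] at h3
      exact h3
    have h4 := h2.trans (hL.mul_left hC)
    simpa only [mul_zero] using h4
  have h2 : Eqv (fun n => φ n a) (fun _ => 0) := by
    obtain ⟨C, hC⟩ := hφ.bdd a
    have h3 : Eqv (fun n => φ n a) (fun n => φ n a * φ n 1) := by
      have h4 := hφ.mul a 1
      rw [mul_one] at h4
      exact h4
    have h4 := h3.trans (h1.mul_left hC)
    simpa only [mul_zero] using h4
  unfold Eqv at h2
  simpa only [_root_.sub_zero] using h2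

theorem xG_ne : xG (0, 0) ≠ 1 := by
  intro h
  apply lf_far
  have h0 : (xG (0, 0)).1 = (1 : QQ) := congrArg Subtype.val h
  have h1 : (QuotientGroup.mk (lf (xG (0, 0))) : QQ) = QuotientGroup.mk (1 : GG) :=
    (mk_lf _).trans (h0.trans (QuotientGroup.mk_one Null).symm)
  have h2 := of_mk_eq h1
  refine h2.congr fun N => ?_
  rw [Prod.fst_one, Pi.one_apply]

end Pool.Agent.Helper784MS.Red
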