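import Pool.Agent.Helper784MS.RedDefs
import Pool.Agent.Helper784MS.A1b

set_option autoImplicit false

open Filter Topology
open scoped InnerProductSpace

namespace Pool.Agent.Helper784MS.Red

open Pool.Agent.H379R3.CS

/-- bounded below on the range, hence everywhere -/
theorem r1_abs {H : Type} [NormedAddCommGroup H] [InnerProductSpace ℂ H] [CompleteSpace H]
    (Δ : H →L[ℂ] H) (hs : star Δ = Δ) (hpos : ∀ ξ : H, 0 ≤ (⟪Δ ξ, ξ⟫_ℂ).re) {κ : ℝ}
    (hκ : 0 < κ) (hgap : ∀ ξ : H, κ * (⟪Δ ξ, ξ⟫_ℂ).re ≤ ‖Δ ξ‖ ^ 2)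
    (hker : ∀ ξ : H, Δ ξ = 0 → ξ = 0) :
    (∀ ξ : H, κ * ‖ξ‖ ≤ ‖Δ ξ‖) ∧ IsUnit Δ := by
  have hsym : ∀ a b : H, ⟪Δ a, b⟫_ℂ = ⟪a, Δ b⟫_ℂ := by
    intro a b
    have h1 := ContinuousLinearMap.adjoint_inner_left Δ b a
    rw [← ContinuousLinearMap.star_eq_adjoint, hs] at h1
    exact h1
  have h1 : ∀ ξ : H, κ * ‖Δ ξ‖ ^ 2 ≤ (⟪Δ (Δ ξ), Δ ξ⟫_ℂ).re := by
    intro ξ
    have h2 := hpos ((κ : ℂ) • ξ - Δ ξ)
    have h3 := hgap ξ
    have h4 : (⟪Δ ((κ : ℂ) • ξ - Δ ξ), (κ : ℂ) • ξ - Δ ξ⟫_ℂ).re =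
        κ * (κ * (⟪Δ ξ, ξ⟫_ℂ).re) - 2 * (κ * ‖Δ ξ‖ ^ 2) + (⟪Δ (Δ ξ), Δ ξ⟫_ℂ).re := by
      have e1 : (⟪Δ ξ, Δ ξ⟫_ℂ).re = ‖Δ ξ‖ ^ 2 := by
        rw [inner_self_eq_norm_sq_to_K]
        norm_cast
      have e2 : (⟪Δ (Δ ξ), ξ⟫_ℂ).re = ‖Δ ξ‖ ^ 2 := by
        rw [hsym, e1]
      rw [map_sub, map_smul, inner_sub_left, inner_sub_right, inner_sub_right,
        inner_smul_left, inner_smul_left, inner_smul_right, inner_smul_right,
        Complex.conj_ofReal]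
      simp only [Complex.sub_re, Complex.re_ofReal_mul, e1, e2]
      ring
    rw [h4] at h2
    have h5 := mul_le_mul_of_nonneg_left h3 hκ.le
    linarith
  have hdense : DenseRange Δ := by
    have h2 : (LinearMap.range (Δ : H →ₗ[ℂ] H))ᗮ = ⊥ := by
      rw [Submodule.eq_bot_iff]
      intro ξ hξ
      apply hker
      have h3 : ⟪Δ (Δ ξ), ξ⟫_ℂ = 0 := hξ (Δ (Δ ξ)) ⟨Δ ξ, rfl⟩
      rw [hsym] at h3
      exact inner_self_eq_zero.1 h3
    have h3 : (LinearMap.range (Δ : H →ₗ[ℂ] H)).topologicalClosure = ⊤ :=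
      (Submodule.topologicalClosure_eq_top_iff).2 h2
    intro ξ
    have h4 : ξ ∈ (LinearMap.range (Δ : H →ₗ[ℂ] H)).topologicalClosure := by
      rw [h3]; trivial
    have h5 : ξ ∈ closure ((LinearMap.range (Δ : H →ₗ[ℂ] H) : Submodule ℂ H) : Set H) := h4
    exact h5
  have h6 : ∀ η : H, κ * ‖η‖ ^ 2 ≤ (⟪Δ η, η⟫_ℂ).re := by
    intro η
    have hc : IsClosed {η : H | κ * ‖η‖ ^ 2 ≤ (⟪Δ η, η⟫_ℂ).re} := by
      apply isClosed_le
      · fun_prop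
      · fun_prop
    have := hdense.induction_on (p := fun η => κ * ‖η‖ ^ 2 ≤ (⟪Δ η, η⟫_ℂ).re) η hc h1
    exact this
  have h7 : ∀ ξ : H, κ * ‖ξ‖ ≤ ‖Δ ξ‖ := by
    intro ξ
    by_cases h0 : ξ = 0
    · subst h0; simp
    · have hn : 0 < ‖ξ‖ := norm_pos_iff.2 h0
      have h8 : (⟪Δ ξ, ξ⟫_ℂ).re ≤ ‖Δ ξ‖ * ‖ξ‖ :=
        (le_trans (le_abs_self _) (Complex.abs_re_le_norm _)).trans (norm_inner_le_norm _ _)
      have h9 := (h6 ξ).trans h8
      have h10 : (κ * ‖ξ‖) * ‖ξ‖ ≤ ‖Δ ξ‖ * ‖ξ‖ := by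
        rw [pow_two, ← mul_assoc] at h9; exact h9
      exact le_of_mul_le_mul_right h10 hn
  refine ⟨h7, ?_⟩
  rw [ContinuousLinearMap.isUnit_iff_bijective]
  rw [ContinuousLinearMap.bijective_iff_dense_range_and_antilipschitz]
  refine ⟨?_, ⟨κ.toNNReal⁻¹, ?_⟩⟩
  · rw [Submodule.topologicalClosure_eq_top_iff]
    rw [Submodule.eq_bot_iff]
    intro ξ hξ
    apply hker
    have h3 : ⟪Δ (Δ ξ), ξ⟫_ℂ = 0 := hξ (Δ (Δ ξ)) ⟨Δ ξ, rfl⟩
    rw [hsym] at h3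
    exact inner_self_eq_zero.1 h3
  · apply AddMonoidHomClass.antilipschitz_of_bound
    intro ξ
    rw [NNReal.coe_inv, Real.coe_toNNReal κ hκ.le, inv_mul_eq_div, le_div_iff₀ hκ, mul_comm]
    exact h7 ξ

/-- the constant asymptotic representation -/
noncomputable def r1_R (G : Type) [Group G] : AsRep atTop G (fun _ => L2 G) where
  T _ g := shift g
  iso _ g ξ := by
    have h1 : star (shift g) * shift g = 1 := by
      rw [star_shift, ← shift_mul, inv_mul_cancel, shift_one]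
    have h2 := (ContinuousLinearMap.norm_map_iff_adjoint_comp_self (shift g)).2
      (by rw [ContinuousLinearMap.star_eq_adjoint] at h1; exact h1)
    exact h2 ξ
  mul g h := by
    simp only [shift_mul, sub_self, norm_zero]
    exact tendsto_const_nhds

theorem r1_null {G : Type} {Z : L2 G →L[ℂ] L2 G}
    (h : specA1_Null (E := fun _ => L2 G) atTop (fun _ => Z)) : Z = 0 := by
  have h1 : Tendsto (fun _ : ℕ => ‖Z‖) atTop (𝓝 0) := h
  have h2 := tendsto_nhds_unique h1 tendsto_const_nhds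
  exact norm_eq_zero.1 h2.symm

variable {G : Type} [Group G]

theorem r1_mul (a b : MonoidAlgebra ℝ G) :
    specA1_ev (r1_R G) 0 (a * b) = specA1_ev (r1_R G) 0 a * specA1_ev (r1_R G) 0 b := by
  have h := specA1_ev_mul (r1_R G) a b
  exact sub_eq_zero.1 (r1_null (G := G) h)

theorem r1_adj {a b : MonoidAlgebra ℝ G} (h : specA1_Adj (r1_R G) a b) :
    star (specA1_ev (r1_R G) 0 a) = specA1_ev (r1_R G) 0 b :=
  sub_eq_zero.1 (r1_null (G := G) h)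

theorem r1_one : specA1_ev (r1_R G) 0 1 = 1 :=
  sub_eq_zero.1 (r1_null (G := G) (specA1_ev_one (r1_R G)))

theorem r1_pos {a : MonoidAlgebra ℝ G} (h : specA1_Pos (r1_R G) a) (ξ : L2 G) :
    0 ≤ (⟪specA1_ev (r1_R G) 0 a ξ, ξ⟫_ℂ).re := by
  by_contra hlt
  rw [not_le] at hlt
  set c : ℝ := (⟪specA1_ev (r1_R G) 0 a ξ, ξ⟫_ℂ).re with hc
  set ε : ℝ := (-c) / (2 * (‖ξ‖ ^ 2 + 1)) with hε
  have hε0 : 0 < ε := by rw [hε]; apply div_pos <;> [linarith; positivity]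
  obtain ⟨n, hn⟩ := (h ε hε0).exists
  have h1 : -(ε * ‖ξ‖ ^ 2) ≤ c := hn ξ
  have h2 : ε * (‖ξ‖ ^ 2 + 1) = (-c) / 2 := by rw [hε]; field_simp
  have h3 : 0 < ε := hε0
  nlinarith

theorem r1_ev {I : Type} [Fintype I] (x : I → G) (p : ℕ) :
    specA1_ev (r1_R G) 0 (∑ i, (1 - av p (MonoidAlgebra.of ℝ G (x i)))) = LapR x p := by
  rw [specA1_ev_sum, LapR]
  refine Finset.sum_congr rfl fun i _ => ?_
  rw [specA1_ev_sub, r1_one, specA1_av_single, specA1_ev_smul, specA1_ev_sum]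
  congr 2
  · push_cast; rfl
  · refine Finset.sum_congr rfl fun t _ => ?_
    rw [specA1_ev_single]
    simp [r1_R]

theorem r1_inv {I : Type} [Fintype I] {x : I → G} {ξ : L2 G}
    (h : ∀ i, shift (x i) ξ = ξ) : ∀ k ∈ Subgroup.closure (Set.range x), shift k ξ = ξ := by
  intro k hk
  induction hk using Subgroup.closure_induction with
  | mem y hy => obtain ⟨i, rfl⟩ := hy; exact h i
  | one => rw [shift_one]; rfl
  | mul a b _ _ ha hb =>
    rw [shift_mul]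
    change shift a (shift b ξ) = ξ
    rw [hb, ha]
  | inv a _ ha =>
    have h1 : shift a⁻¹ (shift a ξ) = ξ := by
      change (shift a⁻¹ * shift a) ξ = ξ
      rw [← shift_mul, inv_mul_cancel, shift_one]; rfl
    rw [ha] at h1
    exact h1

theorem r1_zero {K : Subgroup G} (hK : Infinite K) {ξ : L2 G}
    (h : ∀ k ∈ K, shift k ξ = ξ) : ξ = 0 := by
  ext g
  have hp : 0 < (2 : ENNReal).toReal := by norm_num
  have h1 := (memℓp_gen_iff hp).mp ξ.2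
  have hinj : Function.Injective (fun k : K => (k : G)⁻¹ * g) := by
    intro a b hab
    simp only [mul_left_inj, inv_inj] at hab
    exact Subtype.ext hab
  have h2 := h1.comp_injective hinj
  have h3 : (fun k : K => ‖(ξ : G → ℂ) ((k : G)⁻¹ * g)‖ ^ (2 : ENNReal).toReal) =
      fun _ => ‖(ξ : G → ℂ) g‖ ^ (2 : ENNReal).toReal := by
    funext k
    have h4 : (shift (k : G) ξ : G → ℂ) g = (ξ : G → ℂ) g := by rw [h k k.2]
    rw [shift_apply] at h4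
    rw [h4]
  have h5 : Summable (fun _ : K => ‖(ξ : G → ℂ) g‖ ^ (2 : ENNReal).toReal) := by
    rw [← h3]; exact h2
  rw [summable_const_iff] at h5
  have h6 : ‖(ξ : G → ℂ) g‖ = 0 := by
    by_contra hne
    have h7 : 0 < ‖(ξ : G → ℂ) g‖ := lt_of_le_of_ne (norm_nonneg _) (Ne.symm hne)
    have h8 := Real.rpow_pos_of_pos h7 (2 : ENNReal).toReal
    rw [h5] at h8
    exact lt_irrefl _ h8
  rw [norm_eq_zero] at h6
  rw [h6]; rfl

/-- TARGET -/
theorem lap_gap {G I : Type} [Group G] [Fintype I] {x : I → G} {v w : G} {p D : ℕ}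
    (h : Dat x v w p D) (hinf : Infinite (Subgroup.closure (Set.range x))) :
    (∃ κ : ℝ, 0 < κ ∧ ∀ ξ : L2 G, κ * ‖ξ‖ ≤ ‖LapR x p ξ‖) ∧
    ∃ b : reducedCStar G, b * LapA x p = 1 := by
  have hp1 : (1 : ℝ) ≤ (p : ℝ) := by exact_mod_cast h.prime.one_le
  have hp0 : (0 : ℝ) < (p : ℝ) := by linarith
  set e : ℝ := Real.sqrt ((p : ℝ)⁻¹) with he
  have he0 : 0 < e := by rw [he]; positivity
  have hep : e * e = (p : ℝ)⁻¹ := Real.mul_self_sqrt (by positivity)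
  have he1 : e ≤ 1 := by
    rw [he, Real.sqrt_le_one]
    exact inv_le_one_of_one_le₀ hp1
  have hD : e * D < 1 := by
    have h1 : (e * D) ^ 2 < 1 ^ 2 := by
      have h2 : (D : ℝ) ^ 2 < p := by exact_mod_cast h.lt
      have h3 : (e * D) ^ 2 = (p : ℝ)⁻¹ * (D : ℝ) ^ 2 := by rw [← hep]; ring
      rw [h3, one_pow, inv_mul_lt_iff₀ hp0, mul_one]
      exact h2
    exact lt_of_pow_lt_pow_left₀ 2 zero_le_one h1
  set κ : ℝ := 1 - e * D with hκ
  have hκ0 : 0 < κ := by rw [hκ]; linarith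
  set a : MonoidAlgebra ℝ G := ∑ i, (1 - av p (MonoidAlgebra.of ℝ G (x i))) with ha
  have hev : specA1_ev (r1_R G) 0 a = LapR x p := r1_ev x p
  have hgap : specA1_Pos (r1_R G) (a * a - κ • a) := specA1_gap h he0 hep he1
  have hadji : ∀ i, specA1_Adj (r1_R G) (1 - av p (MonoidAlgebra.of ℝ G (x i)))
      (1 - av p (MonoidAlgebra.of ℝ G (x i))) := fun i =>
    specA1_adj_sub specA1_adj_one (specA1_adj_av (h.pow i))
  have hadj : specA1_Adj (r1_R G) a a := specA1_adj_sum _ fun i _ => hadji i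
  have hstar : star (LapR x p) = LapR x p := by rw [← hev]; exact r1_adj hadj
  -- the norms
  have hnorm : ∀ b : MonoidAlgebra ℝ G, specA1_Adj (r1_R G) b b → ∀ ξ : L2 G,
      (⟪specA1_ev (r1_R G) 0 (b * b) ξ, ξ⟫_ℂ).re = ‖specA1_ev (r1_R G) 0 b ξ‖ ^ 2 := by
    intro b hb ξ
    have h1 := r1_adj hb
    rw [r1_mul]
    nth_rewrite 1 [← h1]
    rw [mul_apply_eq_comp, ContinuousLinearMap.star_eq_adjoint,
      ContinuousLinearMap.adjoint_inner_left, inner_self_eq_norm_sq_to_K]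
    norm_cast
  have hAi : ∀ i, ∀ ξ : L2 G,
      (⟪specA1_ev (r1_R G) 0 (1 - av p (MonoidAlgebra.of ℝ G (x i))) ξ, ξ⟫_ℂ).re =
      ‖specA1_ev (r1_R G) 0 (1 - av p (MonoidAlgebra.of ℝ G (x i))) ξ‖ ^ 2 := by
    intro i ξ
    have h1 := hnorm _ (hadji i) ξ
    rw [specA1_idem h.prime (h.pow i)] at h1
    exact h1
  have hsum : ∀ ξ : L2 G, (⟪LapR x p ξ, ξ⟫_ℂ).re =
      ∑ i, ‖specA1_ev (r1_R G) 0 (1 - av p (MonoidAlgebra.of ℝ G (x i))) ξ‖ ^ 2 := by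
    intro ξ
    rw [← hev, ha, specA1_ev_sum, sum_apply, sum_inner, Complex.re_sum]
    exact Finset.sum_congr rfl fun i _ => hAi i ξ
  have hpos : ∀ ξ : L2 G, 0 ≤ (⟪LapR x p ξ, ξ⟫_ℂ).re := by
    intro ξ
    rw [hsum]
    positivity
  have hgap' : ∀ ξ : L2 G, κ * (⟪LapR x p ξ, ξ⟫_ℂ).re ≤ ‖LapR x p ξ‖ ^ 2 := by
    intro ξ
    have h1 := r1_pos hgap ξ
    rw [specA1_ev_sub, sub_apply, inner_sub_left, Complex.sub_re,
      specA1_inner_smul, hnorm a hadj, hev] at h1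
    linarith
  have hker : ∀ ξ : L2 G, LapR x p ξ = 0 → ξ = 0 := by
    intro ξ hξ
    have h1 := hsum ξ
    rw [hξ, inner_zero_left, Complex.zero_re] at h1
    have h2 := (Finset.sum_eq_zero_iff_of_nonneg (fun i _ => by positivity)).1 h1.symm
    apply r1_zero hinf
    apply r1_inv
    intro i
    have h3 : specA1_ev (r1_R G) 0 (1 - av p (MonoidAlgebra.of ℝ G (x i))) ξ = 0 := by
      have h4 := h2 i (Finset.mem_univ i)
      exact norm_eq_zero.1 (pow_eq_zero_iff (two_ne_zero) |>.1 h4)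
    rw [specA1_ev_sub, r1_one, sub_apply] at h3
    have h5 : ξ = specA1_ev (r1_R G) 0 (av p (MonoidAlgebra.of ℝ G (x i))) ξ := sub_eq_zero.1 h3
    have h6 : MonoidAlgebra.of ℝ G (x i) * av p (MonoidAlgebra.of ℝ G (x i)) =
        av p (MonoidAlgebra.of ℝ G (x i)) := mul_av (by rw [← map_pow, h.pow i, map_one])
    have h7 : specA1_ev (r1_R G) 0 (MonoidAlgebra.of ℝ G (x i)) = shift (x i) := by
      rw [MonoidAlgebra.of_apply, specA1_ev_single]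
      simp [r1_R]
    have h8 : shift (x i) (specA1_ev (r1_R G) 0 (av p (MonoidAlgebra.of ℝ G (x i))) ξ) =
        specA1_ev (r1_R G) 0 (av p (MonoidAlgebra.of ℝ G (x i))) ξ := by
      rw [← h7]
      have h9 := r1_mul (MonoidAlgebra.of ℝ G (x i)) (av p (MonoidAlgebra.of ℝ G (x i)))
      rw [h6] at h9
      conv_rhs => rw [h9]
      rfl
    rw [← h5] at h8
    exact h8
  obtain ⟨hb, hu⟩ := r1_abs (LapR x p) hstar hpos hκ0 hgap' hker
  refine ⟨⟨κ, hκ0, hb⟩, ?_⟩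
  have hcoe : ((LapA x p : reducedCStar G) : L2 G →L[ℂ] L2 G) = LapR x p := by
    rw [LapA, LapR]
    simp [regHom]
  have hu2 : IsUnit ((LapA x p : reducedCStar G) : L2 G →L[ℂ] L2 G) := by rw [hcoe]; exact hu
  have hu3 : IsUnit (LapA x p : reducedCStar G) := by
    exact (StarSubalgebra.coe_isUnit (reducedCStar G)).1 hu2
  obtain ⟨u, hu4⟩ := hu3
  refine ⟨((u⁻¹ : (reducedCStar G)ˣ) : reducedCStar G), ?_⟩
  rw [← hu4, Units.inv_mul]

end Pool.Agent.Helper784MS.Red
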