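import Pool.Agent.Helper784MS.RedDefs
import Pool.Agent.Helper784LF.FS

/-!
JOB RED-R2 (owner helper784, MP_56ff7a_an). Asymptotic (non-unital) representations in matrices are trivial on the x i, from SpecH.
-/

set_option autoImplicit false

open Filter Topology
open scoped ComplexOrder

namespace Pool.Agent.Helper784MS.Red

section ap

variable {B : ℕ → Type} [∀ n, CStarAlgebra (B n)]

/-- asymptotic equality -/
def Ap (a b : ∀ n, B n) : Prop := Tendsto (fun n => ‖a n - b n‖) atTop (𝓝 0)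

/-- eventual boundedness -/
def Bdd (a : ∀ n, B n) : Prop := ∃ C : ℝ, 0 ≤ C ∧ ∀ᶠ n in atTop, ‖a n‖ ≤ C

theorem Ap.refl (a : ∀ n, B n) : Ap a a := by simp [Ap]

theorem Ap.symm {a b : ∀ n, B n} (h : Ap a b) : Ap b a := by
  unfold Ap at *; simpa only [norm_sub_rev] using h

theorem ap_of_le {a b : ∀ n, B n} {u : ℕ → ℝ} (h : ∀ᶠ n in atTop, ‖a n - b n‖ ≤ u n)
    (hu : Tendsto u atTop (𝓝 0)) : Ap a b :=
  tendsto_of_tendsto_of_tendsto_of_le_of_le' tendsto_const_nhds hu
    (Eventually.of_forall fun _ => norm_nonneg _) h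

theorem Ap.trans {a b c : ∀ n, B n} (h : Ap a b) (h' : Ap b c) : Ap a c := by
  refine ap_of_le (u := fun n => ‖a n - b n‖ + ‖b n - c n‖) (Eventually.of_forall fun n => ?_)
    (by simpa using Tendsto.add h h')
  simpa using norm_add_le (a n - b n) (b n - c n)

theorem Ap.add {a b c d : ∀ n, B n} (h : Ap a b) (h' : Ap c d) :
    Ap (fun n => a n + c n) (fun n => b n + d n) := by
  refine ap_of_le (u := fun n => ‖a n - b n‖ + ‖c n - d n‖) (Eventually.of_forall fun n => ?_)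
    (by simpa using Tendsto.add h h')
  have : a n + c n - (b n + d n) = (a n - b n) + (c n - d n) := by abel
  rw [this]; exact norm_add_le _ _

theorem Ap.sub {a b c d : ∀ n, B n} (h : Ap a b) (h' : Ap c d) :
    Ap (fun n => a n - c n) (fun n => b n - d n) := by
  refine ap_of_le (u := fun n => ‖a n - b n‖ + ‖c n - d n‖) (Eventually.of_forall fun n => ?_)
    (by simpa using Tendsto.add h h')
  have : a n - c n - (b n - d n) = (a n - b n) - (c n - d n) := by abel
  rw [this]; exact norm_sub_le _ _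

theorem Ap.mul {a b c d : ∀ n, B n} (h : Ap a b) (h' : Ap c d) (ha : Bdd a) (hd : Bdd d) :
    Ap (fun n => a n * c n) (fun n => b n * d n) := by
  obtain ⟨C, hC, hCn⟩ := ha
  obtain ⟨D, hD, hDn⟩ := hd
  refine ap_of_le (u := fun n => C * ‖c n - d n‖ + ‖a n - b n‖ * D) ?_ ?_
  · filter_upwards [hCn, hDn] with n h1 h2
    have : a n * c n - b n * d n = a n * (c n - d n) + (a n - b n) * d n := by
      rw [mul_sub, sub_mul]; abel
    rw [this]
    refine (norm_add_le _ _).trans (add_le_add ((norm_mul_le _ _).trans ?_)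
      ((norm_mul_le _ _).trans ?_))
    · gcongr
    · gcongr
  · have := (Tendsto.const_mul C h').add (Tendsto.mul_const D h)
    simpa using this

theorem Ap.star {a b : ∀ n, B n} (h : Ap a b) : Ap (fun n => star (a n)) (fun n => star (b n)) := by
  unfold Ap at *
  refine h.congr fun n => ?_
  rw [← star_sub, norm_star]

theorem Bdd.of_ap {a b : ∀ n, B n} (ha : Bdd a) (h : Ap a b) : Bdd b := by
  obtain ⟨C, hC, hCn⟩ := ha
  refine ⟨C + 1, by positivity, ?_⟩
  have h1 : ∀ᶠ n in atTop, ‖a n - b n‖ ≤ 1 := (h.eventually (gt_mem_nhds zero_lt_one)).mono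
    fun n hn => hn.le
  filter_upwards [hCn, h1] with n h2 h3
  have : b n = a n - (a n - b n) := by abel
  rw [this]
  exact (norm_sub_le _ _).trans (add_le_add h2 h3)

theorem Bdd.add {a b : ∀ n, B n} (ha : Bdd a) (hb : Bdd b) : Bdd fun n => a n + b n := by
  obtain ⟨C, hC, hCn⟩ := ha
  obtain ⟨D, hD, hDn⟩ := hb
  refine ⟨C + D, by positivity, ?_⟩
  filter_upwards [hCn, hDn] with n h1 h2
  exact (norm_add_le _ _).trans (add_le_add h1 h2)

theorem Bdd.sub {a b : ∀ n, B n} (ha : Bdd a) (hb : Bdd b) : Bdd fun n => a n - b n := by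
  obtain ⟨C, hC, hCn⟩ := ha
  obtain ⟨D, hD, hDn⟩ := hb
  refine ⟨C + D, by positivity, ?_⟩
  filter_upwards [hCn, hDn] with n h1 h2
  exact (norm_sub_le _ _).trans (add_le_add h1 h2)

theorem Bdd.mul {a b : ∀ n, B n} (ha : Bdd a) (hb : Bdd b) : Bdd fun n => a n * b n := by
  obtain ⟨C, hC, hCn⟩ := ha
  obtain ⟨D, hD, hDn⟩ := hb
  refine ⟨C * D, by positivity, ?_⟩
  filter_upwards [hCn, hDn] with n h1 h2
  refine (norm_mul_le _ _).trans ?_
  gcongr

theorem bdd_one : Bdd fun n => (1 : B n) := by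
  refine ⟨1, zero_le_one, Eventually.of_forall fun n => ?_⟩
  change ‖(1 : B n)‖ ≤ 1
  rcases subsingleton_or_nontrivial (B n) with h | h
  · rw [Subsingleton.elim (1 : B n) 0, norm_zero]; exact zero_le_one
  · rw [CStarRing.norm_one]

theorem Bdd.star {a : ∀ n, B n} (ha : Bdd a) : Bdd fun n => star (a n) := by
  obtain ⟨C, hC, hCn⟩ := ha
  exact ⟨C, hC, by filter_upwards [hCn] with n h; rwa [norm_star]⟩

/-- the norm bound for approximate projections -/
theorem bdd_proj {e : ∀ n, B n} (h1 : Tendsto (fun n => ‖e n - e n * e n‖) atTop (𝓝 0))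
    (h2 : Tendsto (fun n => ‖e n - star (e n)‖) atTop (𝓝 0)) : Bdd e := by
  refine ⟨2, by norm_num, ?_⟩
  have a1 : ∀ᶠ n in atTop, ‖e n - e n * e n‖ < 1 / 4 := h1.eventually (gt_mem_nhds (by norm_num))
  have a2 : ∀ᶠ n in atTop, ‖e n - star (e n)‖ < 1 / 4 := h2.eventually (gt_mem_nhds (by norm_num))
  filter_upwards [a1, a2] with n b1 b2
  have h3 : star (e n) * e n = e n - (e n - e n * e n) - (e n - star (e n)) * e n := by
    rw [sub_mul]; abel
  have h4 : ‖e n‖ * ‖e n‖ ≤ ‖e n‖ + 1 / 4 + 1 / 4 * ‖e n‖ := by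
    rw [← CStarRing.norm_star_mul_self, h3]
    refine (norm_sub_le _ _).trans (add_le_add ((norm_sub_le _ _).trans ?_)
      ((norm_mul_le _ _).trans ?_))
    · linarith
    · gcongr
  have := norm_nonneg (e n)
  nlinarith

/-- the norm bound for approximate partial isometries -/
theorem bdd_piso {e a b : ∀ n, B n} (he : Bdd e)
    (h1 : Tendsto (fun n => ‖e n - a n * b n‖) atTop (𝓝 0))
    (h2 : Tendsto (fun n => ‖b n - star (a n)‖) atTop (𝓝 0)) : Bdd a := by
  obtain ⟨C, hC, hCn⟩ := he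
  refine ⟨C + 2, by positivity, ?_⟩
  have a1 : ∀ᶠ n in atTop, ‖e n - a n * b n‖ < 1 / 4 := h1.eventually (gt_mem_nhds (by norm_num))
  have a2 : ∀ᶠ n in atTop, ‖b n - star (a n)‖ < 1 / 4 := h2.eventually (gt_mem_nhds (by norm_num))
  filter_upwards [a1, a2, hCn] with n b1 b2 b3
  have h3 : a n * star (a n) = e n - (e n - a n * b n) - a n * (b n - star (a n)) := by
    rw [mul_sub]; abel
  have h4 : ‖a n‖ * ‖a n‖ ≤ C + 1 / 4 + ‖a n‖ * (1 / 4) := by
    rw [← CStarRing.norm_self_mul_star, h3]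
    refine (norm_sub_le _ _).trans (add_le_add ((norm_sub_le _ _).trans ?_)
      ((norm_mul_le _ _).trans ?_))
    · linarith
    · gcongr
  have := norm_nonneg (a n)
  nlinarith

end ap

/-- polar decomposition without the norm hypothesis -/
theorem polar' {B : Type} [CStarAlgebra B] (W : B) (η : ℝ) (hη0 : 0 ≤ η) (hη : η ≤ 1 / 4)
    (h1 : ‖star W * W - 1‖ ≤ η) (h2 : ‖W * star W - 1‖ ≤ η) :
    ∃ V : unitary B, ‖(V : B) - W‖ ≤ 3 * η := by
  rcases subsingleton_or_nontrivial B with hB | hB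
  · refine ⟨1, ?_⟩
    rw [Subsingleton.elim (((1 : unitary B) : B) - W) 0, norm_zero]; positivity
  have hW2 : ‖W‖ * ‖W‖ ≤ 1 + η := by
    rw [← CStarRing.norm_star_mul_self]
    have : star W * W = 1 + (star W * W - 1) := by abel
    rw [this]
    refine (norm_add_le _ _).trans ?_
    rw [CStarRing.norm_one]; linarith
  have hW0 := norm_nonneg W
  set c : ℝ := max 1 ‖W‖ with hc
  have hc1 : 1 ≤ c := le_max_left _ _
  have hcW : ‖W‖ ≤ c := le_max_right _ _
  have hc2 : c * c ≤ 1 + η := by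
    rcases max_choice 1 ‖W‖ with h | h
    · rw [hc, h]; linarith
    · rw [hc, h]; exact hW2
  have hc0 : 0 < c := by linarith
  have hcη : c ≤ 1 + η := by nlinarith
  set T : B := ((c⁻¹ : ℝ) : ℂ) • W with hT
  have hTn : ‖T‖ ≤ 1 := by
    rw [hT, norm_smul, Complex.norm_real, Real.norm_eq_abs, abs_of_pos (inv_pos.mpr hc0)]
    rw [inv_mul_le_iff₀ hc0]; linarith
  have hsc : ∀ A : B, ‖A - 1‖ ≤ η → ‖((c⁻¹ * c⁻¹ : ℝ) : ℂ) • A - 1‖ ≤ 2 * η := by
    intro A hA
    have e : ((c⁻¹ * c⁻¹ : ℝ) : ℂ) • A - 1 = ((c⁻¹ * c⁻¹ : ℝ) : ℂ) • (A - 1) -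
        ((1 - c⁻¹ * c⁻¹ : ℝ) : ℂ) • (1 : B) := by
      push_cast
      rw [smul_sub, sub_smul, one_smul]; abel
    have hc3 : c⁻¹ ≤ 1 := inv_le_one_of_one_le₀ hc1
    have hc4 : 0 < c⁻¹ := inv_pos.mpr hc0
    have hc5 : c⁻¹ * c⁻¹ ≤ 1 := by nlinarith
    have hc6 : 1 - c⁻¹ * c⁻¹ ≤ η := by
      have : 1 ≤ (1 + η) * (c⁻¹ * c⁻¹) := by
        have h5 : (c * c) * (c⁻¹ * c⁻¹) = 1 := by field_simp
        calc 1 = (c * c) * (c⁻¹ * c⁻¹) := h5.symm
          _ ≤ (1 + η) * (c⁻¹ * c⁻¹) := mul_le_mul_of_nonneg_right hc2 (by positivity)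
      nlinarith
    rw [e]
    refine (norm_sub_le _ _).trans ?_
    rw [norm_smul, norm_smul, Complex.norm_real, Complex.norm_real, Real.norm_eq_abs,
      Real.norm_eq_abs, abs_of_pos (by positivity : 0 < c⁻¹ * c⁻¹),
      abs_of_nonneg (by linarith : 0 ≤ 1 - c⁻¹ * c⁻¹), CStarRing.norm_one]
    nlinarith [norm_nonneg (A - 1)]
  have hst : star T = ((c⁻¹ : ℝ) : ℂ) • star W := by
    rw [hT, star_smul]; simp
  obtain ⟨V, hV⟩ := Helper784LF.polar T (2 * η) (by linarith) hTn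
    (by
      rw [hst, hT, smul_mul_smul_comm, ← Complex.ofReal_mul]; exact hsc _ h1)
    (by
      rw [hst, hT, smul_mul_smul_comm, ← Complex.ofReal_mul]; exact hsc _ h2)
  refine ⟨V, ?_⟩
  have hTW : ‖T - W‖ ≤ η := by
    have e : T - W = -(((1 - c⁻¹ : ℝ) : ℂ) • W) := by
      rw [hT]; push_cast; rw [sub_smul, one_smul]; abel
    have hc3 : c⁻¹ ≤ 1 := inv_le_one_of_one_le₀ hc1
    rw [e, norm_neg, norm_smul, Complex.norm_real, Real.norm_eq_abs, abs_of_nonneg (by linarith)]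
    have h5 : (1 - c⁻¹) * ‖W‖ ≤ (1 - c⁻¹) * c := by
      apply mul_le_mul_of_nonneg_left hcW; linarith
    have h6 : (1 - c⁻¹) * c = c - 1 := by field_simp
    linarith
  have : (V : B) - W = ((V : B) - T) + (T - W) := by abel
  rw [this]
  exact (norm_add_le _ _).trans (by linarith)

theorem norm_toEuclideanCLM {m : ℕ} (A : Matrix (Fin m) (Fin m) ℂ) :
    ‖Matrix.toEuclideanCLM (n := Fin m) (𝕜 := ℂ) A‖ = ‖CStarMatrix.ofMatrix A‖ := by
  let Φ : CStarMatrix (Fin m) (Fin m) ℂ →⋆ₐ[ℂ]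
      (EuclideanSpace ℂ (Fin m) →L[ℂ] EuclideanSpace ℂ (Fin m)) :=
    { toFun := fun M => Matrix.toEuclideanCLM (n := Fin m) (𝕜 := ℂ) (CStarMatrix.ofMatrix.symm M)
      map_one' := map_one (Matrix.toEuclideanCLM (n := Fin m) (𝕜 := ℂ))
      map_mul' := fun a b => map_mul (Matrix.toEuclideanCLM (n := Fin m) (𝕜 := ℂ)) _ _
      map_zero' := map_zero (Matrix.toEuclideanCLM (n := Fin m) (𝕜 := ℂ))
      map_add' := fun a b => map_add (Matrix.toEuclideanCLM (n := Fin m) (𝕜 := ℂ)) _ _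
      commutes' := fun r => by
        have h1 : (algebraMap ℂ (CStarMatrix (Fin m) (Fin m) ℂ) r) =
          r • (1 : CStarMatrix (Fin m) (Fin m) ℂ) := Algebra.algebraMap_eq_smul_one r
        rw [h1, Algebra.algebraMap_eq_smul_one]
        have h2 : CStarMatrix.ofMatrix.symm (r • (1 : CStarMatrix (Fin m) (Fin m) ℂ)) =
          r • (1 : Matrix (Fin m) (Fin m) ℂ) := rfl
        rw [h2, map_smul, map_one]
      map_star' := fun a => map_star (Matrix.toEuclideanCLM (n := Fin m) (𝕜 := ℂ)) _ }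
  have hinj : Function.Injective Φ := by
    intro a b h
    have : CStarMatrix.ofMatrix.symm a = CStarMatrix.ofMatrix.symm b :=
      (Matrix.toEuclideanCLM (n := Fin m) (𝕜 := ℂ)).injective h
    exact CStarMatrix.ofMatrix.symm.injective this
  have := NonUnitalStarAlgHom.norm_map Φ hinj (CStarMatrix.ofMatrix A)
  exact this

/-- TARGET -/
theorem asymp_triv (hH : SpecH) {G I : Type} [Group G] [Fintype I]
    {x : I → G} {v w : G} {p D : ℕ} (hd : Dat x v w p D)
    (hgen : Subgroup.closure (insert v (Set.range x)) = ⊤) (k : ℕ → ℕ)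
    (φ : ∀ n, G → CStarMatrix (Fin (k n)) (Fin (k n)) ℂ)
    (h1 : ∀ g h, Tendsto (fun n => ‖φ n (g * h) - φ n g * φ n h‖) atTop (𝓝 0))
    (h2 : ∀ g, Tendsto (fun n => ‖φ n g⁻¹ - star (φ n g)‖) atTop (𝓝 0)) (i : I) :
    Tendsto (fun n => ‖φ n (x i) - φ n 1‖) atTop (𝓝 0) := by
  classical
  -- boundedness
  have he1 : Tendsto (fun n => ‖φ n 1 - φ n 1 * φ n 1‖) atTop (𝓝 0) := by
    have := h1 1 1; simpa using this
  have he2 : Tendsto (fun n => ‖φ n 1 - star (φ n 1)‖) atTop (𝓝 0) := by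
    have := h2 1; simpa using this
  have hbe : Bdd (fun n => φ n 1) := bdd_proj he1 he2
  have hb : ∀ g, Bdd (fun n => φ n g) := fun g => by
    have h3 := h1 g g⁻¹
    rw [mul_inv_cancel] at h3
    exact bdd_piso hbe h3 (h2 g)
  -- the approximate unitaries
  set W : ∀ g, ∀ n, CStarMatrix (Fin (k n)) (Fin (k n)) ℂ := fun g n => φ n g + (1 - φ n 1)
    with hW
  have hbc : Bdd (fun n => (1 : CStarMatrix (Fin (k n)) (Fin (k n)) ℂ) - φ n 1) :=
    bdd_one.sub hbe
  have hbW : ∀ g, Bdd (W g) := fun g => (hb g).add hbc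
  have hmul : ∀ g h, Ap (fun n => φ n g * φ n h) (fun n => φ n (g * h)) := fun g h =>
    Ap.symm (h1 g h)
  have hz : ∀ g, Ap (fun n => φ n g * (1 - φ n 1)) (fun n => 0) := fun g => by
    have h3 : Ap (fun n => φ n g - φ n g * φ n 1) (fun n => φ n g - φ n g) :=
      Ap.sub (Ap.refl _) (by simpa using hmul g 1)
    simpa [mul_sub] using h3
  have hz' : ∀ g, Ap (fun n => (1 - φ n 1) * φ n g) (fun n => 0) := fun g => by
    have h3 : Ap (fun n => φ n g - φ n 1 * φ n g) (fun n => φ n g - φ n g) :=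
      Ap.sub (Ap.refl _) (by simpa using hmul 1 g)
    simpa [sub_mul] using h3
  have hzz : Ap (fun n => (1 - φ n 1) * (1 - φ n 1)) (fun n => 1 - φ n 1) := by
    have h3 := Ap.sub (Ap.refl (fun n => (1 : CStarMatrix (Fin (k n)) (Fin (k n)) ℂ) - φ n 1))
      (hz' 1)
    simpa [mul_sub, sub_mul] using h3
  have hWm : ∀ g h, Ap (fun n => W g n * W h n) (W (g * h)) := by
    intro g h
    have h3 := Ap.add (Ap.add (hmul g h) (hz g)) (Ap.add (hz' h) hzz)
    refine Ap.trans (b := fun n => φ n g * φ n h + φ n g * (1 - φ n 1) +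
      ((1 - φ n 1) * φ n h + (1 - φ n 1) * (1 - φ n 1))) ?_ (Ap.trans h3 ?_)
    · have : (fun n => W g n * W h n) = fun n => φ n g * φ n h + φ n g * (1 - φ n 1) +
          ((1 - φ n 1) * φ n h + (1 - φ n 1) * (1 - φ n 1)) := by
        funext n
        simp only [hW]
        rw [add_mul, mul_add, mul_add]
      rw [this]; exact Ap.refl _
    · have : (fun n => φ n (g * h) + 0 + (0 + (1 - φ n 1))) = W (g * h) := by
        funext n; simp only [hW]; rw [add_zero, zero_add]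
      rw [this]; exact Ap.refl _
  have hWs : ∀ g, Ap (fun n => star (W g n)) (W g⁻¹) := by
    intro g
    have h3 : Ap (fun n => star (φ n g) + (1 - star (φ n 1)))
        (fun n => φ n g⁻¹ + (1 - φ n 1)) :=
      Ap.add (Ap.symm (h2 g)) (Ap.sub (Ap.refl _) (Ap.symm (by exact he2)))
    have : (fun n => star (W g n)) = fun n => star (φ n g) + (1 - star (φ n 1)) := by
      funext n
      simp only [hW]
      rw [star_add, star_sub, star_one]
    rw [this]; exact h3
  have hW1 : W 1 = fun n => 1 := by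
    funext n; simp only [hW]; abel
  have hU1 : ∀ g, Ap (fun n => star (W g n) * W g n) (fun n => 1) := by
    intro g
    have h3 := Ap.mul (hWs g) (Ap.refl (W g)) (hbW g).star (hbW g)
    have h4 := hWm g⁻¹ g
    rw [inv_mul_cancel, hW1] at h4
    exact Ap.trans h3 h4
  have hU2 : ∀ g, Ap (fun n => W g n * star (W g n)) (fun n => 1) := by
    intro g
    have h3 := Ap.mul (Ap.refl (W g)) (hWs g) (hbW g) (hbW g⁻¹)
    have h4 := hWm g g⁻¹
    rw [mul_inv_cancel, hW1] at h4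
    exact Ap.trans h3 h4
  -- the unitaries
  set η : G → ℕ → ℝ := fun g n => ‖star (W g n) * W g n - 1‖ + ‖W g n * star (W g n) - 1‖ with hη
  have hη0 : ∀ g, Tendsto (η g) atTop (𝓝 0) := fun g => by
    have := Tendsto.add (hU1 g) (hU2 g)
    simpa using this
  let V : ∀ n, G → unitary (CStarMatrix (Fin (k n)) (Fin (k n)) ℂ) := fun n g =>
    if h : ∃ V : unitary (CStarMatrix (Fin (k n)) (Fin (k n)) ℂ),
      ‖(V : CStarMatrix (Fin (k n)) (Fin (k n)) ℂ) - W g n‖ ≤ 3 * η g n then h.choose else 1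
  have hV : ∀ g, Ap (fun n => (V n g : CStarMatrix (Fin (k n)) (Fin (k n)) ℂ)) (W g) := by
    intro g
    refine ap_of_le (u := fun n => 3 * η g n) ?_ (by simpa using (hη0 g).const_mul 3)
    filter_upwards [(hη0 g).eventually (gt_mem_nhds (show (0 : ℝ) < 1 / 4 by norm_num))] with n hn
    have hex : ∃ V : unitary (CStarMatrix (Fin (k n)) (Fin (k n)) ℂ),
        ‖(V : CStarMatrix (Fin (k n)) (Fin (k n)) ℂ) - W g n‖ ≤ 3 * η g n := by
      refine polar' (W g n) (η g n) (by positivity) hn.le ?_ ?_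
      · simp only [hη]; linarith [norm_nonneg (W g n * star (W g n) - 1)]
      · simp only [hη]; linarith [norm_nonneg (star (W g n) * W g n - 1)]
    have hVd : V n g = hex.choose := dif_pos hex
    rw [hVd]
    exact hex.choose_spec
  -- the matrices
  let φ' : ∀ n, G → Matrix.unitaryGroup (Fin (k n)) ℂ := fun n g =>
    ⟨CStarMatrix.ofMatrix.symm (V n g : CStarMatrix (Fin (k n)) (Fin (k n)) ℂ),
      ⟨(V n g).2.1, (V n g).2.2⟩⟩
  have hφ' : ∀ n g, CStarMatrix.ofMatrix (φ' n g).val =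
    (V n g : CStarMatrix (Fin (k n)) (Fin (k n)) ℂ) := fun n g => rfl
  have hbV : ∀ g, Bdd (fun n => (V n g : CStarMatrix (Fin (k n)) (Fin (k n)) ℂ)) := fun g =>
    (hbW g).of_ap (hV g).symm
  have hOp : OpAsym atTop k φ' := by
    intro g h
    have h3 : Ap (fun n => (V n (g * h) : CStarMatrix (Fin (k n)) (Fin (k n)) ℂ))
        (fun n => (V n g : CStarMatrix (Fin (k n)) (Fin (k n)) ℂ) * V n h) := by
      refine Ap.trans (hV (g * h)) (Ap.trans (Ap.symm (hWm g h)) ?_)
      exact Ap.mul (hV g).symm (hV h).symm (hbW g) (hbV h)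
    refine Tendsto.congr (fun n => ?_) h3
    rw [norm_toEuclideanCLM]
    rfl
  have hfin := hH hd hgen k φ' hOp i
  have h3 : Ap (fun n => (V n (x i) : CStarMatrix (Fin (k n)) (Fin (k n)) ℂ)) (fun n => 1) := by
    refine Tendsto.congr (fun n => ?_) hfin
    rw [norm_toEuclideanCLM]
    rfl
  have h4 : Ap (W (x i)) (fun n => 1) := Ap.trans (hV (x i)).symm h3
  refine Tendsto.congr (fun n => ?_) h4
  simp only [hW]
  congr 1
  abel

end Pool.Agent.Helper784MS.Red
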