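import Pool.Agent.Helper784MS.RedDefs

set_option autoImplicit false

open Filter Topology

namespace Pool.Agent.Helper784MS.Red

open Pool.Agent.H379R3.CS

section R3

set_option linter.unusedSectionVars false
variable {G : Type} [Group G]

/-- the indicator of a finite set in `ℓ²(G)` -/
noncomputable def indR (F : Finset G) : L2 G := by
  classical exact ∑ g ∈ F, lp.single 2 g (1 : ℂ)

open Classical in
lemma indR_apply (F : Finset G) (x : G) : (indR F : G → ℂ) x = if x ∈ F then 1 else 0 := by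
  unfold indR
  have h : ((∑ g ∈ F, lp.single 2 g (1 : ℂ) : L2 G) : G → ℂ) x =
      ∑ g ∈ F, (lp.single 2 g (1 : ℂ) : L2 G) x := by
    rw [lp.coeFn_sum, Finset.sum_apply]
  refine Eq.trans (by convert h) ?_
  have h2 : ∀ g ∈ F, (lp.single 2 g (1 : ℂ) : L2 G) x = if g = x then 1 else 0 := by
    intro g _
    by_cases hg : g = x
    · subst hg; rw [lp.single_apply_self, if_pos rfl]
    · rw [lp.single_apply_ne, if_neg hg]
      exact fun h => hg h.symm
  rw [Finset.sum_congr rfl h2, Finset.sum_ite_eq' F x]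

lemma normsq_eq (f : L2 G) (T : Finset G) (h : ∀ x, x ∉ T → (f : G → ℂ) x = 0) :
    ‖f‖ ^ 2 = ∑ x ∈ T, ‖(f : G → ℂ) x‖ ^ 2 := by
  have hp : 0 < (2 : ENNReal).toReal := by norm_num
  have h1 := lp.norm_rpow_eq_tsum hp f
  have h2 : (2 : ENNReal).toReal = ((2 : ℕ) : ℝ) := by norm_num
  rw [h2] at h1
  simp only [Real.rpow_natCast] at h1
  rw [h1, tsum_eq_sum]
  intro x hx
  rw [h x hx]; simp

open Classical in
lemma norm_indR (F : Finset G) : ‖indR F‖ ^ 2 = F.card := by
  rw [normsq_eq (indR F) F (fun x hx => by rw [indR_apply, if_neg hx])]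
  rw [Finset.sum_congr rfl (fun x hx => by rw [indR_apply, if_pos hx])]
  simp

open Classical in
lemma norm_shift_sub (F : Finset G) (s : G) :
    ‖shift s (indR F) - indR F‖ ^ 2 = 2 * ((F.filter fun g => s * g ∉ F).card : ℝ) := by
  have hval : ∀ x, ((shift s (indR F) - indR F : L2 G) : G → ℂ) x =
      (if s⁻¹ * x ∈ F then 1 else 0) - (if x ∈ F then 1 else 0) := by
    intro x
    rw [lp.coeFn_sub, Pi.sub_apply, shift_apply, indR_apply, indR_apply]
  have hval2 : ∀ x, ‖((shift s (indR F) - indR F : L2 G) : G → ℂ) x‖ ^ 2 =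
      (if s⁻¹ * x ∈ F ∧ x ∉ F then (1 : ℝ) else 0) + (if x ∈ F ∧ s⁻¹ * x ∉ F then 1 else 0) := by
    intro x
    rw [hval]
    by_cases h1 : s⁻¹ * x ∈ F <;> by_cases h2 : x ∈ F <;> simp [h1, h2]
  rw [normsq_eq _ (F ∪ F.image (s * ·)) ?_]
  · rw [Finset.sum_congr rfl (fun x _ => hval2 x), Finset.sum_add_distrib,
      ← Finset.sum_filter, ← Finset.sum_filter, Finset.sum_const, Finset.sum_const,
      nsmul_eq_mul, nsmul_eq_mul, mul_one, mul_one]
    have e1 : ((F ∪ F.image (s * ·)).filter fun x => s⁻¹ * x ∈ F ∧ x ∉ F) =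
        (F.filter fun g => s * g ∉ F).image (s * ·) := by
      ext x
      simp only [Finset.mem_filter, Finset.mem_union, Finset.mem_image]
      constructor
      · rintro ⟨_, h1, h2⟩
        exact ⟨s⁻¹ * x, ⟨h1, by rw [mul_inv_cancel_left]; exact h2⟩, by rw [mul_inv_cancel_left]⟩
      · rintro ⟨g, ⟨hg, hg2⟩, rfl⟩
        exact ⟨Or.inr ⟨g, hg, rfl⟩, by rw [inv_mul_cancel_left]; exact hg, hg2⟩
    have e2 : ((F ∪ F.image (s * ·)).filter fun x => x ∈ F ∧ s⁻¹ * x ∉ F) =
        F.filter fun x => s⁻¹ * x ∉ F := by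
      ext x
      simp only [Finset.mem_filter, Finset.mem_union, Finset.mem_image]
      tauto
    have c1 : ((F.filter fun g => s * g ∉ F).image (s * ·)).card =
        (F.filter fun g => s * g ∉ F).card :=
      Finset.card_image_of_injective _ (mul_right_injective s)
    have c3 : (F.filter fun x => s⁻¹ * x ∈ F) = (F.filter fun g => s * g ∈ F).image (s * ·) := by
      ext x
      simp only [Finset.mem_filter, Finset.mem_image]
      constructor
      · rintro ⟨h1, h2⟩
        exact ⟨s⁻¹ * x, ⟨h2, by rw [mul_inv_cancel_left]; exact h1⟩, by rw [mul_inv_cancel_left]⟩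
      · rintro ⟨g, ⟨hg, hg2⟩, rfl⟩
        exact ⟨hg2, by rw [inv_mul_cancel_left]; exact hg⟩
    have c4 : (F.filter fun x => s⁻¹ * x ∈ F).card = (F.filter fun g => s * g ∈ F).card := by
      rw [c3]; exact Finset.card_image_of_injective _ (mul_right_injective s)
    have c5 := Finset.card_filter_add_card_filter_not (s := F) (fun x => s⁻¹ * x ∈ F)
    have c6 := Finset.card_filter_add_card_filter_not (s := F) (fun x => s * x ∈ F)
    have c7 : (F.filter fun x => s⁻¹ * x ∉ F).card = (F.filter fun g => s * g ∉ F).card := by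
      omega
    rw [e1, e2, c1, c7]; ring
  · intro x hx
    rw [Finset.mem_union, Finset.mem_image] at hx
    push Not at hx
    rw [hval, if_neg, if_neg hx.1, sub_zero]
    intro h
    exact hx.2 (s⁻¹ * x) h (by rw [mul_inv_cancel_left])

/-- TARGET -/
theorem not_amenable_of_gap {G I : Type} [Group G] [Fintype I] {x : I → G} {p : ℕ} (hp : 0 < p)
    {κ : ℝ} (hκ : 0 < κ) (h : ∀ ξ : L2 G, κ * ‖ξ‖ ≤ ‖LapR x p ξ‖) : ¬ Amenable G := by
  classical
  intro hA
  set δ : ℝ := κ / (2 * (Fintype.card I + 1)) with hδ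
  have hc : (0 : ℝ) < 2 * (Fintype.card I + 1) := by positivity
  have hδ0 : 0 < δ := div_pos hκ hc
  obtain ⟨F, hF, hS⟩ := hA (Finset.univ.biUnion fun i : I =>
    (Finset.range p).image fun t => x i ^ t) (δ ^ 2 / 2) (by positivity)
  have hn : ∀ i : I, ∀ t ∈ Finset.range p,
      ‖indR F - shift (x i ^ t) (indR F)‖ ≤ δ * ‖indR F‖ := by
    intro i t ht
    have h1 := hS (x i ^ t) (Finset.mem_biUnion.mpr ⟨i, Finset.mem_univ i,
      Finset.mem_image.mpr ⟨t, ht, rfl⟩⟩)
    have h2 := norm_shift_sub F (x i ^ t)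
    have h3 := norm_indR F
    rw [norm_sub_rev]
    apply (sq_le_sq₀ (norm_nonneg _) (by positivity)).mp
    · rw [mul_pow, h3, h2]
      have h4 : ((F.filter fun g => x i ^ t * g ∉ F).card : ℝ) ≤ δ ^ 2 / 2 * F.card := by
        convert h1
      linarith
  have hL : LapR x p (indR F) = ∑ i, (p : ℂ)⁻¹ • ∑ t ∈ Finset.range p,
      (indR F - shift (x i ^ t) (indR F)) := by
    unfold LapR
    rw [sum_apply]
    refine Finset.sum_congr rfl fun i _ => ?_
    rw [sub_apply, one_apply_eq_self,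
      smul_apply, sum_apply, Finset.sum_sub_distrib,
      smul_sub, Finset.sum_const, Finset.card_range]
    congr 1
    rw [← Nat.cast_smul_eq_nsmul ℂ, smul_smul, inv_mul_cancel₀, one_smul]
    exact_mod_cast hp.ne'
  have hN : ‖LapR x p (indR F)‖ ≤ Fintype.card I * (δ * ‖indR F‖) := by
    rw [hL]
    refine (norm_sum_le _ _).trans ?_
    have : ∀ i ∈ (Finset.univ : Finset I), ‖(p : ℂ)⁻¹ • ∑ t ∈ Finset.range p,
        (indR F - shift (x i ^ t) (indR F))‖ ≤ δ * ‖indR F‖ := by
      intro i _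
      rw [norm_smul]
      have h5 : ‖∑ t ∈ Finset.range p, (indR F - shift (x i ^ t) (indR F))‖ ≤
          p * (δ * ‖indR F‖) := by
        refine (norm_sum_le _ _).trans ?_
        refine (Finset.sum_le_sum (hn i)).trans ?_
        rw [Finset.sum_const, Finset.card_range, nsmul_eq_mul]
      have h6 : ‖(p : ℂ)⁻¹‖ = (p : ℝ)⁻¹ := by rw [norm_inv, Complex.norm_natCast]
      rw [h6]
      have hp' : (0 : ℝ) < p := by exact_mod_cast hp
      calc (p : ℝ)⁻¹ * _ ≤ (p : ℝ)⁻¹ * (p * (δ * ‖indR F‖)) := by gcongr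
        _ = δ * ‖indR F‖ := by rw [inv_mul_cancel_left₀ hp'.ne']
    refine (Finset.sum_le_sum this).trans ?_
    rw [Finset.sum_const, Finset.card_univ, nsmul_eq_mul]
  have hpos : 0 < ‖indR F‖ := by
    have h3 := norm_indR F
    have h4 : (0 : ℝ) < F.card := by exact_mod_cast hF.card_pos
    rcases (norm_nonneg (indR F)).lt_or_eq with h5 | h5
    · exact h5
    · rw [← h5] at h3; norm_num at h3; linarith
  have h7 := (h (indR F)).trans hN
  have h8 : κ ≤ Fintype.card I * δ := by
    by_contra h9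
    push Not at h9
    have := mul_lt_mul_of_pos_right h9 hpos
    nlinarith
  have h9 : δ * (2 * (Fintype.card I + 1)) = κ := by rw [hδ]; field_simp
  have h10 : (0 : ℝ) ≤ Fintype.card I * δ := by positivity
  nlinarith

end R3

end Pool.Agent.Helper784MS.Red
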