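import Mathlib

/-!
# The reduced group C*-algebra
-/

set_option autoImplicit false

namespace Pool.Agent.Helper784MS.Red

/-- the square of the `ℓ²`-norm of a finitely supported function on `G`, `∑ |ξ(g)|²` -/
noncomputable def nsq {G : Type} (ξ : MonoidAlgebra ℂ G) : ℝ :=
  ∑ g ∈ ξ.coeff.support, ‖ξ.coeff g‖ ^ 2

/-- The C*-algebra `A` with the unitary representation `u : G → A` is the reduced group C*-algebra of `G` with the left
regular representation: the linear combinations `∑ c(g) u(g)` are dense in `A`, and the norm of such an element is the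
norm of the left convolution operator `ξ ↦ c * ξ` on `ℓ²(G)` (computed on the finitely supported functions `ξ`, which are
dense in `ℓ²(G)`). -/
structure IsReduced (G : Type) [Group G] (A : Type) [CStarAlgebra A] (u : G →* A) : Prop where
  star : ∀ g, star (u g) = u g⁻¹
  dense : ∀ (a : A) (ε : ℝ), 0 < ε → ∃ c : MonoidAlgebra ℂ G,
    ‖a - MonoidAlgebra.lift ℂ A G u c‖ < ε
  norm : ∀ (c : MonoidAlgebra ℂ G) (C : ℝ), 0 ≤ C → (‖MonoidAlgebra.lift ℂ A G u c‖ ≤ C ↔
    ∀ ξ : MonoidAlgebra ℂ G, nsq (c * ξ) ≤ C ^ 2 * nsq ξ)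

end Pool.Agent.Helper784MS.Red
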