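import Pool.Agent.Helper784MS.RedCS
import Pool.Agent.Helper784MS.RedC

/-!
# `reducedCStar G` is the reduced group C*-algebra
-/

set_option autoImplicit false

open Filter Topology

namespace Pool.Agent.Helper784MS.Red

open Pool.Agent.H379R3.CS

variable {G : Type} [Group G]

open Classical in
/-- a finitely supported function as a vector of `ℓ²(G)` -/
noncomputable def emb (ξ : MonoidAlgebra ℂ G) : L2 G :=
  ((reg G ξ : reducedCStar G) : L2 G →L[ℂ] L2 G) (lp.single 2 (1 : G) (1 : ℂ))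

theorem emb_apply (ξ : MonoidAlgebra ℂ G) (x : G) : (emb ξ : G → ℂ) x = ξ.coeff x :=
  reg_delta ξ x

theorem norm_emb (ξ : MonoidAlgebra ℂ G) : ‖emb ξ‖ ^ 2 = nsq ξ := by
  rw [normsq_eq (emb ξ) ξ.coeff.support (fun x hx => by
    rw [emb_apply]; exact Finsupp.notMem_support_iff.1 hx)]
  exact Finset.sum_congr rfl fun x _ => by rw [emb_apply]

theorem reg_emb (c ξ : MonoidAlgebra ℂ G) :
    ((reg G c : reducedCStar G) : L2 G →L[ℂ] L2 G) (emb ξ) = emb (c * ξ) := by
  unfold emb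
  rw [map_mul]
  rfl

theorem emb_add (ξ η : MonoidAlgebra ℂ G) : emb (ξ + η) = emb ξ + emb η := by
  unfold emb
  rw [map_add]
  rfl

open Classical in
theorem emb_single (g : G) (z : ℂ) : emb (MonoidAlgebra.single g z) = lp.single 2 g z := by
  refine lp.ext (funext fun x => ?_)
  rw [emb_apply, MonoidAlgebra.coeff_single, Finsupp.single_apply]
  by_cases h : g = x
  · subst h; rw [if_pos rfl, lp.single_apply_self]
  · rw [if_neg h, lp.single_apply_ne]
    exact fun h' => h h'.symm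

open Classical in
theorem dense_emb : DenseRange (emb : MonoidAlgebra ℂ G → L2 G) := by
  intro f
  have h := lp.hasSum_single (p := 2) (by norm_num) f
  refine mem_closure_of_tendsto h (Eventually.of_forall fun s => ?_)
  induction s using Finset.induction_on with
  | empty => exact ⟨0, by refine lp.ext (funext fun x => ?_); rw [emb_apply]; simp⟩
  | insert a s ha ih =>
    obtain ⟨ξ, hξ⟩ := ih
    refine ⟨MonoidAlgebra.single a (f a) + ξ, ?_⟩
    rw [emb_add, emb_single, Finset.sum_insert ha, hξ]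

theorem norm_iff (c : MonoidAlgebra ℂ G) (C : ℝ) (hC : 0 ≤ C) :
    ‖(reg G c : reducedCStar G)‖ ≤ C ↔ ∀ ξ : MonoidAlgebra ℂ G, nsq (c * ξ) ≤ C ^ 2 * nsq ξ := by
  have h0 : ‖(reg G c : reducedCStar G)‖ = ‖((reg G c : reducedCStar G) : L2 G →L[ℂ] L2 G)‖ := rfl
  rw [h0]
  constructor
  · intro h ξ
    have h1 := ContinuousLinearMap.le_of_opNorm_le _ h (emb ξ)
    rw [reg_emb] at h1
    rw [← norm_emb, ← norm_emb, ← mul_pow]
    exact pow_le_pow_left₀ (norm_nonneg _) h1 2
  · intro h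
    refine ContinuousLinearMap.opNorm_le_bound _ hC fun f => ?_
    refine dense_emb.induction_on (p := fun f =>
      ‖((reg G c : reducedCStar G) : L2 G →L[ℂ] L2 G) f‖ ≤ C * ‖f‖) f ?_ fun ξ => ?_
    · exact isClosed_le (((reg G c : reducedCStar G) : L2 G →L[ℂ] L2 G).continuous.norm)
        (continuous_const.mul continuous_norm)
    · rw [reg_emb]
      have h1 := h ξ
      rw [← norm_emb, ← norm_emb, ← mul_pow] at h1
      exact le_of_sq_le_sq h1 (mul_nonneg hC (norm_nonneg _))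

theorem exists_star (c : MonoidAlgebra ℂ G) : ∃ c' : MonoidAlgebra ℂ G,
    reg G c' = star (reg G c) := by
  induction c using MonoidAlgebra.induction_linear with
  | zero => exact ⟨0, by simp⟩
  | add a b ha hb =>
    obtain ⟨a', ha⟩ := ha
    obtain ⟨b', hb⟩ := hb
    exact ⟨a' + b', by rw [map_add, map_add, star_add, ha, hb]⟩
  | single g z =>
    refine ⟨MonoidAlgebra.single g⁻¹ (star z), ?_⟩
    rw [reg_single, reg_single, star_smul]
    congr 1
    exact Subtype.ext (star_shift g).symm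

theorem dense_reg (a : reducedCStar G) (ε : ℝ) (hε : 0 < ε) : ∃ c : MonoidAlgebra ℂ G,
    ‖a - reg G c‖ < ε := by
  have h1 : (a : L2 G →L[ℂ] L2 G) ∈ closure
      ((StarAlgebra.adjoin ℂ (Set.range (shift : G → L2 G →L[ℂ] L2 G)) :
        StarSubalgebra ℂ (L2 G →L[ℂ] L2 G)) : Set (L2 G →L[ℂ] L2 G)) := a.2
  obtain ⟨b, hb, hab⟩ := Metric.mem_closure_iff.1 h1 ε hε
  have h2 : ∃ c : MonoidAlgebra ℂ G, ((reg G c : reducedCStar G) : L2 G →L[ℂ] L2 G) = b := by
    refine StarAlgebra.adjoin_induction (p := fun b _ => ∃ c : MonoidAlgebra ℂ G,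
      ((reg G c : reducedCStar G) : L2 G →L[ℂ] L2 G) = b) ?_ ?_ ?_ ?_ ?_ hb
    · rintro _ ⟨g, rfl⟩
      refine ⟨MonoidAlgebra.single g 1, ?_⟩
      rw [reg_single, one_smul]
    · intro r
      refine ⟨algebraMap ℂ _ r, ?_⟩
      rw [AlgHom.commutes]
      rfl
    · rintro _ _ _ _ ⟨c, rfl⟩ ⟨d, rfl⟩
      exact ⟨c + d, by rw [map_add]; rfl⟩
    · rintro _ _ _ _ ⟨c, rfl⟩ ⟨d, rfl⟩
      exact ⟨c * d, by rw [map_mul]; rfl⟩
    · rintro _ _ ⟨c, rfl⟩
      obtain ⟨c', hc'⟩ := exists_star c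
      exact ⟨c', by rw [hc']; rfl⟩
  obtain ⟨c, rfl⟩ := h2
  exact ⟨c, by rw [dist_eq_norm] at hab; exact hab⟩

theorem isReduced (G : Type) [Group G] : IsReduced G (reducedCStar G) (regHom G) where
  star g := Subtype.ext (star_shift g)
  dense a ε hε := dense_reg a ε hε
  norm c C hC := norm_iff c C hC

end Pool.Agent.Helper784MS.Red
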