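import Pool.Agent.Helper784MS.Spec
import Pool.Agent.H379R3.CStarReg

/-!
# Matricial weak semiprojectivity, amenability, the Laplacian in the reduced group C*-algebra
-/

set_option autoImplicit false

open Filter Topology
open scoped ComplexOrder

namespace Pool.Agent.Helper784MS.Red

open Pool.Agent.H379R3.CS

open Classical in
/-- Amenability of a discrete group (the Følner condition). -/
def Amenable (G : Type) [Group G] : Prop :=
  ∀ (S : Finset G) (ε : ℝ), 0 < ε → ∃ F : Finset G, F.Nonempty ∧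
    ∀ s ∈ S, ((F.filter fun g => s * g ∉ F).card : ℝ) ≤ ε * F.card

/-- A `*`-homomorphism `A → ∏ B n / ⨁ B n`, given by a set theoretic lift `A → ∏ B n`. -/
structure IsAsympHom {A : Type} [NonUnitalCStarAlgebra A] {B : ℕ → Type}
    [∀ n, NonUnitalCStarAlgebra (B n)] (φ : ∀ n, A → B n) : Prop where
  bdd : ∀ a, ∃ C : ℝ, ∀ n, ‖φ n a‖ ≤ C
  add : ∀ a b, Tendsto (fun n => ‖φ n (a + b) - (φ n a + φ n b)‖) atTop (𝓝 0)
  smul : ∀ (c : ℂ) (a : A), Tendsto (fun n => ‖φ n (c • a) - c • φ n a‖) atTop (𝓝 0)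
  mul : ∀ a b, Tendsto (fun n => ‖φ n (a * b) - φ n a * φ n b‖) atTop (𝓝 0)
  star : ∀ a, Tendsto (fun n => ‖φ n (star a) - star (φ n a)‖) atTop (𝓝 0)

/-- Matricial weak semiprojectivity: every `*`-homomorphism `A → ∏ M_{k n}(ℂ) / ⨁ M_{k n}(ℂ)` lifts to a
`*`-homomorphism `A → ∏ M_{k n}(ℂ)`. -/
def MatriciallyWeaklySemiprojective (A : Type) [NonUnitalCStarAlgebra A] : Prop :=
  ∀ (k : ℕ → ℕ) (φ : ∀ n, A → CStarMatrix (Fin (k n)) (Fin (k n)) ℂ), IsAsympHom φ →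
    ∃ ψ : ∀ n, A →⋆ₙₐ[ℂ] CStarMatrix (Fin (k n)) (Fin (k n)) ℂ,
      ∀ a, Tendsto (fun n => ‖φ n a - ψ n a‖) atTop (𝓝 0)

/-- the Laplacian of the elements `x i` of order `p` on `ℓ²(G)` -/
noncomputable def LapR {G I : Type} [Group G] [Fintype I] (x : I → G) (p : ℕ) :
    L2 G →L[ℂ] L2 G :=
  ∑ i, (1 - (p : ℂ)⁻¹ • ∑ t ∈ Finset.range p, shift (x i ^ t))

/-- the same element of the reduced group C*-algebra -/
noncomputable def LapA {G I : Type} [Group G] [Fintype I] (x : I → G) (p : ℕ) :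
    reducedCStar G :=
  ∑ i, (1 - (p : ℂ)⁻¹ • ∑ t ∈ Finset.range p, regHom G (x i ^ t))

end Pool.Agent.Helper784MS.Red
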