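import Mathlib

/-!
# Matricial stability does not imply Hilbert-Schmidt stability: definitions

`Dat x v w p D` : elements `x i` of order `p`, which pairwise commute or generate a Heisenberg group,
with at most `D < sqrt p` non-commuting neighbours each; `K = closure (range x)` is perfect,
`v K v⁻¹ ≤ K`, and `w (v K v⁻¹) w⁻¹` commutes with `v K v⁻¹` for an element `w` of `K`.
-/

set_option autoImplicit false

open Filter Topology
open scoped InnerProductSpace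

namespace Pool.Agent.Helper784MS

/-- The hypotheses on the group. -/
structure Dat {G I : Type} [Group G] [Fintype I] (x : I → G) (v w : G) (p D : ℕ) : Prop where
  prime : p.Prime
  lt : D ^ 2 < p
  pow : ∀ i, x i ^ p = 1
  heis : ∀ i j, Commute (x i * x j * (x i)⁻¹ * (x j)⁻¹) (x i) ∧
    Commute (x i * x j * (x i)⁻¹ * (x j)⁻¹) (x j)
  deg : ∀ i, ∃ s : Finset I, s.card ≤ D ∧ ∀ j, ¬ Commute (x i) (x j) → j ∈ s
  conj : ∀ i, v * x i * v⁻¹ ∈ Subgroup.closure (Set.range x)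
  wmem : w ∈ Subgroup.closure (Set.range x)
  comm : ∀ k ∈ Subgroup.closure (Set.range x), ∀ k' ∈ Subgroup.closure (Set.range x),
    Commute (w * (v * k * v⁻¹) * w⁻¹) (v * k' * v⁻¹)
  perfect : Subgroup.closure (Set.range x) ≤
    ⁅Subgroup.closure (Set.range x), Subgroup.closure (Set.range x)⁆

/-- Asymptotic representations by isometries on finite dimensional Hilbert spaces. -/
structure AsRep (F : Filter ℕ) (G : Type) [Group G] (E : ℕ → Type)
    [∀ n, NormedAddCommGroup (E n)] [∀ n, InnerProductSpace ℂ (E n)] where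
  T : ∀ n, G → (E n →L[ℂ] E n)
  iso : ∀ n g ξ, ‖T n g ξ‖ = ‖ξ‖
  mul : ∀ g h, Tendsto (fun n => ‖T n (g * h) - T n g * T n h‖) F (𝓝 0)

section
variable {F : Filter ℕ} {G I : Type} [Group G] [Fintype I] {E : ℕ → Type}
  [∀ n, NormedAddCommGroup (E n)] [∀ n, InnerProductSpace ℂ (E n)]
  [∀ n, FiniteDimensional ℂ (E n)]

/-- `A n` is asymptotically the space of vectors fixed by the `x i`. -/
structure Near (R : AsRep F G E) (x : I → G) (A : ∀ n, Submodule ℂ (E n)) : Prop where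
  fix : ∀ i, ∀ ε : ℝ, 0 < ε → ∀ᶠ n in F, ∀ a ∈ A n, ‖R.T n (x i) a - a‖ ≤ ε * ‖a‖
  gap : ∃ c : ℝ, 0 < c ∧ ∀ ε : ℝ, 0 < ε → ∀ᶠ n in F, ∀ ξ : E n,
    c * ‖ξ - (A n).starProjection ξ‖ ≤ (∑ i, ‖R.T n (x i) ξ - ξ‖) + ε * ‖ξ‖

end

section
variable {F : Filter ℕ} {G I : Type} [Group G] [Fintype I] {E : ℕ → Type}
  [∀ n, NormedAddCommGroup (E n)] [∀ n, InnerProductSpace ℂ (E n)]
  [∀ n, FiniteDimensional ℂ (E n)]

/-- average over the powers `g ^ t`, `t < p` -/
noncomputable def avg (R : AsRep F G E) (p : ℕ) (g : G) (n : ℕ) : E n →ₗ[ℂ] E n :=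
  (p : ℂ)⁻¹ • ∑ t ∈ Finset.range p, (R.T n (g ^ t) : E n →ₗ[ℂ] E n)

/-- the Laplacian: the sum of the self-adjoint parts of `1 - avg (x i)` -/
noncomputable def Lap (R : AsRep F G E) (x : I → G) (p n : ℕ) : E n →ₗ[ℂ] E n :=
  ∑ i, (1 - (1 / 2 : ℂ) • (avg R p (x i) n + LinearMap.adjoint (avg R p (x i) n)))

end

/-- asymptotic homomorphisms in operator norm, along a filter -/
def OpAsym (F : Filter ℕ) {G : Type} [Group G] (k : ℕ → ℕ)
    (φ : ∀ n : ℕ, G → Matrix.unitaryGroup (Fin (k n)) ℂ) : Prop :=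
  ∀ g h : G, Tendsto (fun n : ℕ => ‖Matrix.toEuclideanCLM (𝕜 := ℂ)
    ((φ n (g * h)).val - (φ n g).val * (φ n h).val)‖) F (𝓝 0)

/-! ## The modules -/

/-- MODULE A1 (spectral gap inequality). -/
def SpecA1 : Prop := ∀ {F : Filter ℕ} {G I : Type} [Group G] [Fintype I] {E : ℕ → Type}
  [∀ n, NormedAddCommGroup (E n)] [∀ n, InnerProductSpace ℂ (E n)]
  [∀ n, FiniteDimensional ℂ (E n)] (R : AsRep F G E) {x : I → G} {v w : G} {p D : ℕ},
  Dat x v w p D → ∃ κ : ℝ, 0 < κ ∧ ∀ ε : ℝ, 0 < ε → ∀ᶠ n in F, ∀ ξ : E n,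
    κ * (⟪Lap R x p n ξ, ξ⟫_ℂ).re ≤ ‖Lap R x p n ξ‖ ^ 2 + ε * ‖ξ‖ ^ 2

/-- MODULE A (spectral gap): near-fixed spaces exist. -/
def SpecA : Prop := ∀ {F : Filter ℕ} {G I : Type} [Group G] [Fintype I] {E : ℕ → Type}
  [∀ n, NormedAddCommGroup (E n)] [∀ n, InnerProductSpace ℂ (E n)]
  [∀ n, FiniteDimensional ℂ (E n)] (R : AsRep F G E) {x : I → G} {v w : G} {p D : ℕ},
  Dat x v w p D → ∃ A : ∀ n, Submodule ℂ (E n), Near R x A

/-- MODULE V: the near-fixed spaces are asymptotically fixed by `closure (range x)` and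
asymptotically invariant under `closure (insert v (range x))`. -/
def SpecV : Prop := ∀ {F : Filter ℕ} {G I : Type} [Group G] [Fintype I] {E : ℕ → Type}
  [∀ n, NormedAddCommGroup (E n)] [∀ n, InnerProductSpace ℂ (E n)]
  [∀ n, FiniteDimensional ℂ (E n)] (R : AsRep F G E) {x : I → G} {v w : G} {p D : ℕ},
  Dat x v w p D → ∀ A : ∀ n, Submodule ℂ (E n), Near R x A →
  (∀ g ∈ Subgroup.closure (Set.range x), ∀ ε : ℝ, 0 < ε →
    ∀ᶠ n in F, ∀ a ∈ A n, ‖R.T n g a - a‖ ≤ ε * ‖a‖) ∧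
  (∀ g ∈ Subgroup.closure (insert v (Set.range x)), ∀ ε : ℝ, 0 < ε →
    ∀ᶠ n in F, ∀ a ∈ A n, ‖R.T n g a - (A n).starProjection (R.T n g a)‖ ≤ ε * ‖a‖)

/-- MODULE H: an operator norm asymptotic homomorphism is asymptotically trivial on the `x i`. -/
def SpecH : Prop := ∀ {F : Filter ℕ} {G I : Type} [Group G] [Fintype I]
  {x : I → G} {v w : G} {p D : ℕ}, Dat x v w p D →
  Subgroup.closure (insert v (Set.range x)) = ⊤ → ∀ (k : ℕ → ℕ)
  (φ : ∀ n : ℕ, G → Matrix.unitaryGroup (Fin (k n)) ℂ), OpAsym F k φ →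
  ∀ i, Tendsto (fun n : ℕ => ‖Matrix.toEuclideanCLM (n := Fin (k n)) (𝕜 := ℂ)
    ((φ n (x i)).val - 1)‖) F (𝓝 0)

/-- MODULE M: matricial stability. -/
def SpecM : Prop := ∀ {G I : Type} [Group G] [Fintype I]
  {x : I → G} {v w : G} {p D : ℕ}, Dat x v w p D →
  Subgroup.closure (insert v (Set.range x)) = ⊤ →
  ∀ ψ : G →* Multiplicative ℤ, (∀ i, ψ (x i) = 1) → ψ v = Multiplicative.ofAdd 1 →
  ∀ (k : ℕ → ℕ) (φ : ∀ n : ℕ, G → Matrix.unitaryGroup (Fin (k n)) ℂ), OpAsym atTop k φ →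
  ∃ ρ : ∀ n : ℕ, G →* Matrix.unitaryGroup (Fin (k n)) ℂ,
    ∀ g : G, Tendsto (fun n : ℕ =>
      ‖Matrix.toEuclideanCLM (𝕜 := ℂ) ((φ n g).val - (ρ n g).val)‖) atTop (𝓝 0)

/-! ## The levels -/

/-- The ring of level `n`: `R 0 = F_101`, `R (n+1) = M_3(R n)`. -/
def Rg : ℕ → Type
  | 0 => ZMod 101
  | (n + 1) => Matrix (Fin 3) (Fin 3) (Rg n)

instance instRg : ∀ n, Ring (Rg n)
  | 0 => inferInstanceAs (Ring (ZMod 101))
  | (n + 1) => letI := instRg n; inferInstanceAs (Ring (Matrix (Fin 3) (Fin 3) (Rg n)))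

instance instFRg : ∀ n, Fintype (Rg n)
  | 0 => inferInstanceAs (Fintype (ZMod 101))
  | (n + 1) => letI := instFRg n; inferInstanceAs (Fintype (Matrix (Fin 3) (Fin 3) (Rg n)))

/-- The group of level `n`: `GL_3(R n)`, the units of `R (n+1) = M_3(R n)`. -/
abbrev Gp (n : ℕ) : Type := (Matrix (Fin 3) (Fin 3) (Rg n))ˣ

theorem single_sq {A : Type} [Ring A] (a : Fin 3) (r : A) :
    Matrix.single a (a + 1) r * Matrix.single a (a + 1) r = 0 := by
  have ha : a + 1 ≠ a := by fin_cases a <;> decide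
  exact Matrix.single_mul_single_of_ne (h := ha) ..

/-- The elementary matrix `1 + r E_{a,a+1}`. -/
def el {A : Type} [Ring A] (a : Fin 3) (r : A) : (Matrix (Fin 3) (Fin 3) A)ˣ where
  val := 1 + Matrix.single a (a + 1) r
  inv := 1 - Matrix.single a (a + 1) r
  val_inv := by
    rw [add_mul, mul_sub, mul_sub, one_mul, one_mul, mul_one, single_sq]; abel
  inv_val := by
    rw [sub_mul, mul_add, mul_add, one_mul, one_mul, mul_one, single_sq]; abel

/-- `g ↦ diag(g, 1, 1)` -/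
def dg (A : Type) [Ring A] : Aˣ →* (Matrix (Fin 3) (Fin 3) A)ˣ where
  toFun g :=
    { val := Matrix.diagonal fun i => if i = 0 then (g : A) else 1
      inv := Matrix.diagonal fun i => if i = 0 then ((g⁻¹ : Aˣ) : A) else 1
      val_inv := by
        rw [Matrix.diagonal_mul_diagonal, ← Matrix.diagonal_one]
        congr 1; funext i; split_ifs <;> simp
      inv_val := by
        rw [Matrix.diagonal_mul_diagonal, ← Matrix.diagonal_one]
        congr 1; funext i; split_ifs <;> simp }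
  map_one' := by
    ext i j
    simp [Matrix.diagonal_apply, Matrix.one_apply]
  map_mul' g h := by
    ext i j
    simp only [Units.val_mul, Matrix.diagonal_mul_diagonal]
    congr 2; funext i; split_ifs <;> simp

/-- `GL_3(R n) → GL_3(R (n+1))`, `g ↦ diag(g, 1, 1)`, where `R (n+1) = M_3(R n)` -/
def io (n : ℕ) : Gp n →* Gp (n + 1) := dg (Rg (n + 1))

/-- the cyclic permutation matrix, level by level -/
def cR : ∀ n, Rg n
  | 0 => 0
  | (n + 1) => (fun i j => if j = i + 1 then 1 else 0 : Matrix (Fin 3) (Fin 3) (Rg n))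

/-- the matrix unit `E_00`, level by level -/
def eR : ∀ n, Rg n
  | 0 => 0
  | (n + 1) => (fun i j => if i = 0 ∧ j = 0 then 1 else 0 : Matrix (Fin 3) (Fin 3) (Rg n))

/-- `z (n+1) = E_00 z_n + E_01 c_n + E_02 e_n` -/
def zR : ∀ n, Rg n
  | 0 => 0
  | (n + 1) => (fun i j => if i = 0 then ![zR n, cR n, eR n] j else 0 :
      Matrix (Fin 3) (Fin 3) (Rg n))

/-- the four coefficients -/
def sR (t : Fin 4) (n : ℕ) : Rg n := ![1, cR n, eR n, zR n] t

/-- the twelve generators of `K`, as sequences over all levels -/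
def xs (i : Fin 3 × Fin 4) : ∀ n, Gp n := fun n => el i.1 (sR i.2 n)

/-- the group of sequences -/
abbrev Ps : Type := ∀ n, Gp n

/-- MODULE K: facts on the group generated by the twelve sequences. -/
structure SpecK : Prop where
  pow : ∀ i, xs i ^ 101 = 1
  heis : ∀ i j, Commute (xs i * xs j * (xs i)⁻¹ * (xs j)⁻¹) (xs i) ∧
    Commute (xs i * xs j * (xs i)⁻¹ * (xs j)⁻¹) (xs j)
  deg : ∀ i, ∃ s : Finset (Fin 3 × Fin 4), s.card ≤ 8 ∧ ∀ j, ¬ Commute (xs i) (xs j) → j ∈ s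
  shift : ∀ i, ∃ y ∈ Subgroup.closure (Set.range xs), ∀ n, y (n + 1) = io n (xs i n)
  comm : ∃ w ∈ Subgroup.closure (Set.range xs), ∀ n, ∀ g h : Gp n,
    Commute (w (n + 1) * io n g * (w (n + 1))⁻¹) (io n h)
  perfect : Subgroup.closure (Set.range xs) ≤
    ⁅Subgroup.closure (Set.range xs), Subgroup.closure (Set.range xs)⁆

end Pool.Agent.Helper784MS
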