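import Pool.Agent.Helper784MS.Spec

set_option autoImplicit false

open Filter Topology
open scoped InnerProductSpace

namespace Pool.Agent.Helper784MS

namespace specV_aux

theorem proj_min {E : Type} [NormedAddCommGroup E] [InnerProductSpace ℂ E]
    [FiniteDimensional ℂ E] (A : Submodule ℂ E) (y a : E) (ha : a ∈ A) :
    ‖y - A.starProjection y‖ ≤ ‖y - a‖ := by
  have h1 : Aᗮ.starProjection (y - a) = y - A.starProjection y := by
    rw [Submodule.starProjection_orthogonal_val, map_sub,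
      Submodule.starProjection_eq_self_iff.2 ha]
    abel
  rw [← h1]
  exact Submodule.norm_starProjection_apply_le _ _

section
variable {F : Filter ℕ} {G : Type} [Group G] {E : ℕ → Type}
  [∀ n, NormedAddCommGroup (E n)] [∀ n, InnerProductSpace ℂ (E n)]

theorem amul (R : AsRep F G E) (g h : G) (ε : ℝ) (hε : 0 < ε) :
    ∀ᶠ n in F, ∀ ξ : E n, ‖R.T n (g * h) ξ - R.T n g (R.T n h ξ)‖ ≤ ε * ‖ξ‖ := by
  filter_upwards [(R.mul g h).eventually (gt_mem_nhds hε)] with n hn ξ
  have h1 : ‖(R.T n (g * h) - R.T n g * R.T n h) ξ‖ ≤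
      ‖R.T n (g * h) - R.T n g * R.T n h‖ * ‖ξ‖ := ContinuousLinearMap.le_opNorm _ _
  have h2 : (R.T n (g * h) - R.T n g * R.T n h) ξ =
      R.T n (g * h) ξ - R.T n g (R.T n h ξ) := rfl
  rw [h2] at h1
  exact h1.trans (mul_le_mul_of_nonneg_right hn.le (norm_nonneg _))

theorem aone (R : AsRep F G E) (ε : ℝ) (hε : 0 < ε) :
    ∀ᶠ n in F, ∀ ξ : E n, ‖R.T n 1 ξ - ξ‖ ≤ ε * ‖ξ‖ := by
  filter_upwards [amul R 1 1 ε hε] with n hn ξ
  have h1 := hn ξ
  rw [mul_one, ← map_sub, R.iso, norm_sub_rev] at h1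
  exact h1

theorem ainv (R : AsRep F G E) (g : G) (ε : ℝ) (hε : 0 < ε) :
    ∀ᶠ n in F, ∀ ξ : E n, ‖R.T n g (R.T n g⁻¹ ξ) - ξ‖ ≤ ε * ‖ξ‖ := by
  filter_upwards [amul R g g⁻¹ (ε / 2) (by positivity), aone R (ε / 2) (by positivity)] with
    n h1 h2 ξ
  have h3 := h1 ξ
  have h4 := h2 ξ
  rw [mul_inv_cancel] at h3
  rw [norm_sub_rev] at h3
  have h5 := norm_sub_le_norm_sub_add_norm_sub (R.T n g (R.T n g⁻¹ ξ)) (R.T n 1 ξ) ξ
  linarith

variable [∀ n, FiniteDimensional ℂ (E n)]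

/-- asymptotic invariance -/
def Inv (R : AsRep F G E) (A : ∀ n, Submodule ℂ (E n)) (g : G) : Prop :=
  ∀ ε : ℝ, 0 < ε → ∀ᶠ n in F, ∀ a ∈ A n,
    ‖R.T n g a - (A n).starProjection (R.T n g a)‖ ≤ ε * ‖a‖

theorem Inv.mul {R : AsRep F G E} {A : ∀ n, Submodule ℂ (E n)} {g h : G} (hg : Inv R A g)
    (hh : Inv R A h) : Inv R A (g * h) := by
  intro ε hε
  filter_upwards [hg (ε / 3) (by positivity), hh (ε / 3) (by positivity),
    amul R g h (ε / 3) (by positivity)] with n h1 h2 h3 a ha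
  set b := (A n).starProjection (R.T n h a) with hb
  have hbA : b ∈ A n := Submodule.starProjection_apply_mem _ _
  have hbn : ‖b‖ ≤ ‖a‖ := by
    rw [← R.iso n h a]
    exact Submodule.norm_starProjection_apply_le _ _
  have e1 := h1 b hbA
  have e2 := h2 a ha
  have e3 := h3 a
  have e4 := proj_min (A n) (R.T n (g * h) a) _
    (Submodule.starProjection_apply_mem (A n) (R.T n g b))
  have e5 : ‖R.T n g (R.T n h a) - R.T n g b‖ ≤ ε / 3 * ‖a‖ := by
    rw [← map_sub, R.iso]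
    exact e2
  have e6 := norm_sub_le_norm_sub_add_norm_sub (R.T n (g * h) a) (R.T n g (R.T n h a))
    ((A n).starProjection (R.T n g b))
  have e7 := norm_sub_le_norm_sub_add_norm_sub (R.T n g (R.T n h a)) (R.T n g b)
    ((A n).starProjection (R.T n g b))
  have e8 : ε / 3 * ‖b‖ ≤ ε / 3 * ‖a‖ := by gcongr
  linarith

theorem Inv.of_fix {R : AsRep F G E} {A : ∀ n, Submodule ℂ (E n)} {g : G}
    (h : ∀ ε : ℝ, 0 < ε → ∀ᶠ n in F, ∀ a ∈ A n, ‖R.T n g a - a‖ ≤ ε * ‖a‖) : Inv R A g := by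
  intro ε hε
  filter_upwards [h ε hε] with n hn a ha
  exact (proj_min (A n) _ a ha).trans (hn a ha)

theorem Inv.inv {R : AsRep F G E} {A : ∀ n, Submodule ℂ (E n)} {g : G} (hg : Inv R A g⁻¹) :
    Inv R A g := by
  intro ε hε
  have hδ : 0 < min (1 / 2) (ε / 4) := lt_min (by norm_num) (by positivity)
  filter_upwards [hg _ hδ, ainv R g _ hδ] with n h1 h2
  set δ := min (1 / 2) (ε / 4) with hδd
  have hδ1 : δ ≤ 1 / 2 := min_le_left _ _
  have hδ2 : δ ≤ ε / 4 := min_le_right _ _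
  let L : A n →ₗ[ℂ] A n :=
    { toFun := fun a => ⟨(A n).starProjection (R.T n g⁻¹ a), Submodule.starProjection_apply_mem _ _⟩
      map_add' := fun a b => Subtype.ext (by simp)
      map_smul' := fun c a => Subtype.ext (by simp) }
  have hL : ∀ a : A n, ((L a : A n) : E n) = (A n).starProjection (R.T n g⁻¹ a) := fun a => rfl
  have hLn : ∀ a : A n, ‖a‖ ≤ 2 * ‖L a‖ := by
    intro a
    have e1 := h1 a a.2
    have e2 : ‖R.T n g⁻¹ (a : E n)‖ = ‖a‖ := R.iso n g⁻¹ a
    have e3 : ‖L a‖ = ‖(A n).starProjection (R.T n g⁻¹ a)‖ := rfl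
    have e4 := norm_sub_norm_le (R.T n g⁻¹ (a : E n)) ((A n).starProjection (R.T n g⁻¹ a))
    have e5 : δ * ‖(a : E n)‖ ≤ 1 / 2 * ‖a‖ := by
      rw [Submodule.coe_norm]; gcongr
    linarith
  have hinj : Function.Injective L := by
    rw [injective_iff_map_eq_zero]
    intro a ha
    have := hLn a
    rw [ha, norm_zero, mul_zero] at this
    exact norm_le_zero_iff.1 this
  have hsurj : Function.Surjective L := LinearMap.injective_iff_surjective.1 hinj
  intro b hb
  obtain ⟨a, ha⟩ := hsurj ⟨b, hb⟩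
  have hab : (A n).starProjection (R.T n g⁻¹ (a : E n)) = b := by
    rw [← hL, ha]
  have hn : ‖(a : E n)‖ ≤ 2 * ‖b‖ := by
    have := hLn a
    rw [ha] at this
    exact this
  have e1 := h1 a a.2
  rw [hab] at e1
  have e2 := h2 (a : E n)
  have e3 : ‖R.T n g b - R.T n g (R.T n g⁻¹ (a : E n))‖ ≤ δ * ‖(a : E n)‖ := by
    rw [← map_sub, R.iso, norm_sub_rev]
    exact e1
  have e4 := proj_min (A n) (R.T n g b) a a.2
  have e5 := norm_sub_le_norm_sub_add_norm_sub (R.T n g b) (R.T n g (R.T n g⁻¹ (a : E n)))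
    (a : E n)
  have e6 : δ * ‖(a : E n)‖ ≤ ε / 4 * (2 * ‖b‖) := by gcongr
  linarith

end

end specV_aux

open specV_aux

/-- asymptotic invariance of the near-fixed spaces -/
theorem specV : SpecV := by
  intro F G I _ _ E _ _ _ R x v w p D hD A hA
  have hfix : ∀ g ∈ Subgroup.closure (Set.range x), ∀ ε : ℝ, 0 < ε →
      ∀ᶠ n in F, ∀ a ∈ A n, ‖R.T n g a - a‖ ≤ ε * ‖a‖ := by
    intro g hg
    induction hg using Subgroup.closure_induction with
    | mem y hy =>
      obtain ⟨i, rfl⟩ := hy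
      exact hA.fix i
    | one =>
      intro ε hε
      filter_upwards [aone R ε hε] with n hn a _
      exact hn a
    | mul g h _ _ hg hh =>
      intro ε hε
      filter_upwards [hg (ε / 3) (by positivity), hh (ε / 3) (by positivity),
        amul R g h (ε / 3) (by positivity)] with n h1 h2 h3 a ha
      have e1 := h1 a ha
      have e2 := h2 a ha
      have e3 := h3 a
      have e4 : ‖R.T n g (R.T n h a) - R.T n g a‖ ≤ ε / 3 * ‖a‖ := by
        rw [← map_sub, R.iso]
        exact e2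
      have e5 := norm_sub_le_norm_sub_add_norm_sub (R.T n (g * h) a) (R.T n g (R.T n h a)) a
      have e6 := norm_sub_le_norm_sub_add_norm_sub (R.T n g (R.T n h a)) (R.T n g a) a
      linarith
    | inv g _ hg =>
      intro ε hε
      filter_upwards [hg (ε / 2) (by positivity), ainv R g (ε / 2) (by positivity)] with
        n h1 h2 a ha
      have e1 := h1 a ha
      have e2 := h2 a
      have e3 : ‖R.T n g⁻¹ a - a‖ = ‖R.T n g (R.T n g⁻¹ a) - R.T n g a‖ := by
        rw [← map_sub, R.iso]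
      rw [e3]
      rw [norm_sub_rev] at e1
      have e5 := norm_sub_le_norm_sub_add_norm_sub (R.T n g (R.T n g⁻¹ a)) a (R.T n g a)
      linarith
  refine ⟨hfix, ?_⟩
  have hvinv : Inv R A v⁻¹ := by
    obtain ⟨c, hc, hgap⟩ := hA.gap
    intro ε hε
    set δ : ℝ := c * ε / (3 * Fintype.card I + 1) with hδ
    have hδ0 : 0 < δ := by positivity
    have hall : ∀ᶠ n in F, ∀ i, ∀ a ∈ A n,
        ‖R.T n (x i) (R.T n v⁻¹ a) - R.T n v⁻¹ a‖ ≤ 3 * δ * ‖a‖ := by
      rw [eventually_all]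
      intro i
      filter_upwards [hfix _ (hD.conj i) δ hδ0, amul R (x i) v⁻¹ δ hδ0,
        amul R v⁻¹ (v * x i * v⁻¹) δ hδ0] with n h1 h2 h3 a ha
      have e1 := h1 a ha
      have e2 := h2 a
      have e3 := h3 a
      have e0 : v⁻¹ * (v * x i * v⁻¹) = x i * v⁻¹ := by group
      rw [e0] at e3
      have e4 : ‖R.T n v⁻¹ (R.T n (v * x i * v⁻¹) a) - R.T n v⁻¹ a‖ ≤ δ * ‖a‖ := by
        rw [← map_sub, R.iso]
        exact e1
      rw [norm_sub_rev] at e2
      have e5 := norm_sub_le_norm_sub_add_norm_sub (R.T n (x i) (R.T n v⁻¹ a))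
        (R.T n (x i * v⁻¹) a) (R.T n v⁻¹ a)
      have e6 := norm_sub_le_norm_sub_add_norm_sub (R.T n (x i * v⁻¹) a)
        (R.T n v⁻¹ (R.T n (v * x i * v⁻¹) a)) (R.T n v⁻¹ a)
      linarith
    filter_upwards [hall, hgap δ hδ0] with n h1 h2 a ha
    have e1 := h2 (R.T n v⁻¹ a)
    rw [R.iso] at e1
    have e2 : ∑ i, ‖R.T n (x i) (R.T n v⁻¹ a) - R.T n v⁻¹ a‖ ≤
        Fintype.card I * (3 * δ * ‖a‖) := by
      refine (Finset.sum_le_sum fun i _ => h1 i a ha).trans ?_
      rw [Finset.sum_const, Finset.card_univ, nsmul_eq_mul]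
    have e3 : Fintype.card I * (3 * δ * ‖a‖) + δ * ‖a‖ = c * (ε * ‖a‖) := by
      have : (3 * (Fintype.card I : ℝ) + 1) ≠ 0 := by positivity
      rw [hδ]
      field_simp
    have e4 : c * ‖R.T n v⁻¹ a - (A n).starProjection (R.T n v⁻¹ a)‖ ≤ c * (ε * ‖a‖) := by
      linarith
    exact le_of_mul_le_mul_left e4 hc
  have hall : ∀ g ∈ Subgroup.closure (insert v (Set.range x)), Inv R A g := by
    intro g hg
    induction hg using Subgroup.closure_induction with
    | mem y hy =>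
      rcases hy with rfl | ⟨i, rfl⟩
      · exact hvinv.inv
      · exact Inv.of_fix (hA.fix i)
    | one =>
      refine Inv.of_fix fun ε hε => ?_
      filter_upwards [aone R ε hε] with n hn a _
      exact hn a
    | mul g h _ _ hg hh => exact hg.mul hh
    | inv g _ hg =>
      refine specV_aux.Inv.inv ?_
      rw [inv_inv]
      exact hg
  exact hall

end Pool.Agent.Helper784MS
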